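import Pool.Agent.SAT.Stmts

/-!
ACW.  Arithmetic of the parameters.
-/

set_option autoImplicit false

namespace Pool.SAT

open Matrix Finset Pool.SAR

theorem t_ACW : Stmt_ACW := by
  intro m ℓ D d hD hl hmD H1 H2
  have hD' : (1 : ℝ) ≤ D := by exact_mod_cast hD
  have hl' : (1 : ℝ) ≤ ℓ := by exact_mod_cast hl
  have hmD' : (m : ℝ) ≤ D := by exact_mod_cast hmD
  have hL : 1 ≤ 1 + Real.log ℓ := by
    have := Real.log_nonneg hl'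
    linarith
  set L : ℝ := 1 + Real.log ℓ with hLdef
  have hL2 : 1 ≤ L ^ 2 := one_le_pow₀ hL
  have hD2 : 1 ≤ (D : ℝ) ^ 2 := one_le_pow₀ hD'
  have hpos : 0 < (m : ℝ) ^ 3 := lt_of_le_of_lt (by positivity) H1
  have hm : 1 ≤ m := by
    rcases Nat.eq_zero_or_pos m with h | h
    · rw [h] at hpos
      simp at hpos
    · exact h
  have hm' : (1 : ℝ) ≤ m := by exact_mod_cast hm
  have hm0 : (0 : ℝ) < m := by linarith
  have hD0 : (0 : ℝ) < D := by linarith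
  have hL0 : 0 < L := by linarith
  -- `2^20 ℓ D² < m³`
  have K1 : 2 ^ 20 * (ℓ : ℝ) * (D : ℝ) ^ 2 < (m : ℝ) ^ 3 := by
    refine lt_of_le_of_lt ?_ H1
    have h1 : 0 ≤ 2 ^ 20 * (ℓ : ℝ) * (D : ℝ) ^ 2 := by positivity
    nlinarith
  have K2 : 2 ^ 20 * (D : ℝ) ^ 2 < (m : ℝ) ^ 3 := by
    refine lt_of_le_of_lt ?_ K1
    have h1 : 0 ≤ 2 ^ 20 * (D : ℝ) ^ 2 := by positivity
    nlinarith
  have K3 : 2 ^ 20 * ((ℓ : ℝ) * D) < (m : ℝ) ^ 2 := by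
    have h1 : (2 ^ 20 * ((ℓ : ℝ) * D)) * D < (m : ℝ) ^ 2 * D := by
      calc (2 ^ 20 * ((ℓ : ℝ) * D)) * D = 2 ^ 20 * (ℓ : ℝ) * (D : ℝ) ^ 2 := by ring
        _ < (m : ℝ) ^ 3 := K1
        _ = (m : ℝ) ^ 2 * m := by ring
        _ ≤ (m : ℝ) ^ 2 * D := by gcongr
    exact lt_of_mul_lt_mul_right h1 hD0.le
  have hq1 : (m : ℝ) / (32 * D) ≤ 1 := by
    rw [div_le_one (by positivity)]
    linarith
  have hsq : ((m : ℝ) / (32 * D) / (4 * L)) ^ 2 = (m : ℝ) ^ 2 / (2 ^ 14 * ((D : ℝ) ^ 2 * L ^ 2)) := by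
    field_simp
    norm_num
  refine ⟨hm, hL, by positivity, hq1, ?_, ?_, ?_, ?_, ?_, ?_⟩
  · rw [div_le_one (by positivity)]
    linarith
  · rw [hsq, div_mul_eq_mul_div, lt_div_iff₀ (by positivity)]
    calc 64 * (ℓ : ℝ) * (2 ^ 14 * ((D : ℝ) ^ 2 * L ^ 2)) =
        2 ^ 20 * (ℓ : ℝ) * (D : ℝ) ^ 2 * L ^ 2 := by ring
      _ < (m : ℝ) ^ 3 := H1
      _ = (m : ℝ) ^ 2 * m := by ring
  · rw [hsq, div_mul_eq_mul_div, le_div_iff₀ (by positivity)]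
    have h1 : ((8 * D : ℕ) : ℝ) * (((8 * D : ℕ) : ℝ) + 1) ≤ 72 * (D : ℝ) ^ 2 := by
      push_cast
      nlinarith
    have h2 : 0 ≤ 2 ^ 14 * ((D : ℝ) ^ 2 * L ^ 2) := by positivity
    calc 1152 * ((8 * D : ℕ) : ℝ) * (((8 * D : ℕ) : ℝ) + 1) * (2 ^ 14 * ((D : ℝ) ^ 2 * L ^ 2)) =
        1152 * ((((8 * D : ℕ) : ℝ) * (((8 * D : ℕ) : ℝ) + 1)) * (2 ^ 14 * ((D : ℝ) ^ 2 * L ^ 2))) := by
          ring
      _ ≤ 1152 * ((72 * (D : ℝ) ^ 2) * (2 ^ 14 * ((D : ℝ) ^ 2 * L ^ 2))) := by gcongr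
      _ ≤ 2 ^ 31 * (D : ℝ) ^ 4 * L ^ 2 := by
          have h3 : 0 ≤ (D : ℝ) ^ 4 * L ^ 2 := by positivity
          nlinarith
      _ ≤ (d : ℝ) * (m : ℝ) ^ 2 := H2
      _ = (m : ℝ) ^ 2 * d := by ring
  · rw [le_div_iff₀ hm0]
    linarith
  · have h1 : 4 * (((8 * D : ℕ) : ℝ) / (m : ℝ) + 1) = (32 * D + 4 * m) / (m : ℝ) := by
      push_cast
      field_simp
      ring
    rw [h1]
    gcongr
    linarith
  · have h1 : (ℓ : ℝ) * (36 * (D : ℝ) / m) + ((8 * D : ℕ) : ℝ) * ((m : ℝ) / (32 * D)) +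
        2 * (36 * (D : ℝ) / m) / ((m : ℝ) / (32 * D)) =
        36 * ((ℓ : ℝ) * D) / m + m / 4 + 2304 * (D : ℝ) ^ 2 / (m : ℝ) ^ 2 := by
      push_cast
      field_simp
      ring
    rw [h1]
    have h2 : 36 * ((ℓ : ℝ) * D) / m ≤ m / 4 := by
      rw [div_le_div_iff₀ hm0 (by norm_num)]
      nlinarith
    have h3 : 2304 * (D : ℝ) ^ 2 / (m : ℝ) ^ 2 ≤ m / 4 := by
      rw [div_le_div_iff₀ (by positivity) (by norm_num)]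
      nlinarith
    linarith

end Pool.SAT
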