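import Pool.Agent.SAT.Stmts

/-!
MP_c21969_lc, project SAT: module AF (properties of the adjugate).
-/

set_option autoImplicit false

namespace Pool.SAT

open Matrix Finset Pool.SAR

namespace AFX

variable {ι : Type} [Fintype ι] [DecidableEq ι] {p ℓ : ℕ} {q Λ : ℝ} {u : ι → Fin p → ℝ}

lemma mm_update (u : ι → Fin p → ℝ) (z : ι → ℝ) (k : ι) (s : ℝ) :
    MM u (Function.update z k s) =
      MM u (Function.update z k 0) + s • vecMulVec (u k) (u k) := by
  unfold MM
  have h1 : ∀ a : ℝ, ∑ j, Function.update z k a j • vecMulVec (u j) (u j) =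
      a • vecMulVec (u k) (u k) +
        ∑ j ∈ univ.erase k, z j • vecMulVec (u j) (u j) := by
    intro a
    rw [← Finset.add_sum_erase univ _ (Finset.mem_univ k)]
    congr 1
    · simp
    · apply Finset.sum_congr rfl
      intro j hj
      rw [Function.update_of_ne (Finset.ne_of_mem_erase hj)]
  rw [h1 s, h1 0, zero_smul, zero_add]
  abel

lemma rg_update {A : Finset ι} {z : ι → ℝ} {t : ℝ} (h : Rg t A z) {k : ι} (hk : k ∉ A) {s : ℝ}
    (hs : 0 ≤ s) : Rg t A (Function.update z k s) := by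
  refine ⟨fun j hj => ?_, fun j hj => ?_⟩
  · have : j ≠ k := fun e => hk (e ▸ hj)
    rw [Function.update_of_ne this]
    exact h.1 j hj
  · by_cases e : j = k
    · subst e
      simpa using hs
    · rw [Function.update_of_ne e]
      exact h.2 j hj

lemma rg_insert {A : Finset ι} {z : ι → ℝ} {t : ℝ} (h : Rg t A z) {k : ι} (hk : k ∉ A) :
    Rg t (insert k A) (Function.update z k (-t)) := by
  refine ⟨fun j hj => ?_, fun j hj => ?_⟩
  · by_cases e : j = k
    · subst e
      simp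
    · rw [Function.update_of_ne e]
      exact h.1 j ((Finset.mem_insert.1 hj).resolve_left e)
  · have e : j ≠ k := fun e => hj (by simp [e])
    rw [Function.update_of_ne e]
    exact h.2 j fun hj' => hj (Finset.mem_insert_of_mem hj')

/-- the symmetric inverse -/
lemma inv_symm {M : Matrix (Fin p) (Fin p) ℝ} (hM : M.PosDef) : (M⁻¹).transpose = M⁻¹ := by
  have h := hM.inv.isHermitian
  have h2 : (M⁻¹).conjTranspose = M⁻¹ := h
  rw [conjTranspose_eq_transpose_of_trivial] at h2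
  exact h2

lemma dot_inv {M : Matrix (Fin p) (Fin p) ℝ} (hM : M.PosDef) (a x : Fin p → ℝ) :
    (M⁻¹ *ᵥ a) ⬝ᵥ x = a ⬝ᵥ (M⁻¹ *ᵥ x) := by
  rw [dotProduct_mulVec, ← mulVec_transpose, inv_symm hM]

/-- SM applied to the update -/
lemma am_update (hSM : Stmt_SM) (hPD : Stmt_PD) (hS : Sy ℓ q Λ u) {A : Finset ι} {z : ι → ℝ}
    (hA : A.card ≤ ℓ) (hz : Rg (1 - q) A z) {k : ι} (hk : k ∉ A) {s : ℝ}
    (hpd : (MM u (Function.update z k s)).PosDef) :
    AM u (Function.update z k s) = (MM u (Function.update z k 0)).det •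
      ((1 + s * (u k ⬝ᵥ ((MM u (Function.update z k 0))⁻¹ *ᵥ u k))) •
        (MM u (Function.update z k 0))⁻¹ - s • vecMulVec ((MM u (Function.update z k 0))⁻¹ *ᵥ u k)
          ((MM u (Function.update z k 0))⁻¹ *ᵥ u k)) := by
  have h0 : (MM u (Function.update z k 0)).PosDef :=
    (hPD ι p ℓ q Λ u hS A _ hA (rg_update hz hk le_rfl)).1
  unfold AM
  rw [mm_update] at hpd ⊢
  exact hSM p _ _ s h0 hpd

lemma am_zero (hSM : Stmt_SM) (hPD : Stmt_PD) (hS : Sy ℓ q Λ u) {A : Finset ι} {z : ι → ℝ}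
    (hA : A.card ≤ ℓ) (hz : Rg (1 - q) A z) {k : ι} (hk : k ∉ A) :
    AM u (Function.update z k 0) = (MM u (Function.update z k 0)).det •
        (MM u (Function.update z k 0))⁻¹ := by
  have h := am_update hSM hPD hS hA hz hk (s := 0)
    (hPD ι p ℓ q Λ u hS A _ hA (rg_update hz hk le_rfl)).1
  rw [h]
  simp

lemma adj_eq {M : Matrix (Fin p) (Fin p) ℝ} (hM : M.PosDef) : M.adjugate = M.det • M⁻¹ := by
  have hd : M.det ≠ 0 := hM.det_pos.ne'
  rw [Matrix.inv_def, smul_smul, Ring.mul_inverse_cancel _ (isUnit_iff_ne_zero.2 hd), one_smul]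

end AFX

theorem t_AF : Stmt_SM → Stmt_PD → Stmt_AF := by
  intro hSM hPD ι _ _ p ℓ q Λ u hS A z hA hz
  have hq0 := hS.q0
  have hq1 := hS.q1
  have pdS : ∀ k ∉ A, ∀ s : ℝ, 0 ≤ s → (MM u (Function.update z k s)).PosDef := fun k hk s hs =>
    (hPD ι p ℓ q Λ u hS A _ hA (AFX.rg_update hz hk hs)).1
  have pdN : A.card + 1 ≤ ℓ → ∀ k ∉ A, (MM u (Function.update z k (-(1 - q)))).PosDef :=
    fun hA' k hk => (hPD ι p ℓ q Λ u hS (insert k A) _
      (by rw [Finset.card_insert_of_notMem hk]; exact hA') (AFX.rg_insert hz hk)).1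
  have hM := (hPD ι p ℓ q Λ u hS A z hA hz).1
  refine ⟨?_, ?_, ?_, ?_, ?_, ?_⟩
  · intro k hk s hs
    rw [AFX.am_update hSM hPD hS hA hz hk (pdS k hk s hs),
      AFX.am_update hSM hPD hS hA hz hk (pdS k hk 1 zero_le_one), AFX.am_zero hSM hPD hS hA hz hk]
    ext i j
    simp only [Matrix.smul_apply, Matrix.add_apply, Matrix.sub_apply, smul_eq_mul]
    ring
  · intro hA' k hk
    rw [AFX.am_update hSM hPD hS hA hz hk (pdN hA' k hk),
      AFX.am_update hSM hPD hS hA hz hk (pdS k hk 1 zero_le_one), AFX.am_zero hSM hPD hS hA hz hk]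
    ext i j
    simp only [Matrix.smul_apply, Matrix.add_apply, Matrix.sub_apply, smul_eq_mul]
    ring
  · intro k hk x
    have h0 := pdS k hk 0 le_rfl
    rw [AFX.am_update hSM hPD hS hA hz hk (pdS k hk 1 zero_le_one),
      AFX.am_zero hSM hPD hS hA hz hk]
    simp only [smul_mulVec, sub_mulVec, dotProduct_smul, dotProduct_sub, smul_eq_mul, one_smul,
      one_mul, vecMulVec_mulVec, AFX.dot_inv h0]
    ring_nf
    simp only [op_smul_eq_smul, dotProduct_smul, smul_eq_mul]
    ring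
  · intro y
    unfold AM
    rw [AFX.adj_eq hM, smul_mulVec, dotProduct_smul, smul_eq_mul]
    have h1 := hM.inv.posSemidef.dotProduct_mulVec_nonneg y
    simp only [star_trivial] at h1
    exact mul_nonneg hM.det_pos.le h1
  · unfold AM
    rw [AFX.adj_eq hM]
    unfold Matrix.IsSymm
    rw [transpose_smul, AFX.inv_symm hM]
  · intro hA' k hk hzk y
    have hup : Function.update z k 0 = z := by
      rw [← hzk]; exact Function.update_eq_self k z
    have h1 := AFX.am_update hSM hPD hS hA hz hk (pdN hA' k hk)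
    rw [hup] at h1
    rw [h1]
    unfold AM
    rw [AFX.adj_eq hM]
    simp only [smul_mulVec, sub_mulVec, dotProduct_smul, dotProduct_sub, smul_eq_mul,
      vecMulVec_mulVec, AFX.dot_inv hM]
    have h2 : y ⬝ᵥ ((MM u z)⁻¹ *ᵥ u k) = u k ⬝ᵥ ((MM u z)⁻¹ *ᵥ y) := by
      rw [← AFX.dot_inv hM, dotProduct_comm]
    simp [h2]
    ring

end Pool.SAT
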