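import Pool.Agent.SAT.Stmts
import Pool.Agent.SAR.Stmts

/-!
The barrier for vectors, wide lifts.
-/

set_option autoImplicit false

namespace Pool.SAT

open Matrix Finset Pool.SAR
open scoped ComplexOrder

namespace ARWX

/-- The Gram form of the feature vectors. -/
theorem gram {κ E F : Type} [Fintype κ] [DecidableEq κ] [NormedAddCommGroup E]
    [InnerProductSpace ℝ E] [NormedAddCommGroup F] [InnerProductSpace ℝ F] (u : κ → E)
    (w : κ → F) (hw : ∀ i, ‖w i‖ = 1)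
    (hu : ∀ i j, inner ℝ (u i) (u j) =
      1 / 2 * (if i = j then 1 else 0) + 1 / 2 * inner ℝ (w i) (w j)) (A : Finset κ) (x : κ → ℝ) :
    ∑ i ∈ A, ∑ j ∈ A, x i * x j * inner ℝ (u i) (u j) =
      ∑ i ∈ A, x i ^ 2 + 1 / 2 * ∑ i ∈ A, ∑ j ∈ A.erase i, x i * x j * inner ℝ (w i) (w j) := by
  rw [mul_sum, ← sum_add_distrib]
  refine sum_congr rfl fun i hi => ?_
  rw [← add_sum_erase A _ hi, hu i i, if_pos rfl, real_inner_self_eq_norm_sq, hw, mul_sum]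
  have h1 : ∑ j ∈ A.erase i, x i * x j * inner ℝ (u i) (u j) =
      ∑ j ∈ A.erase i, 1 / 2 * (x i * x j * inner ℝ (w i) (w j)) := by
    refine sum_congr rfl fun j hj => ?_
    rw [hu i j, if_neg (Ne.symm (ne_of_mem_erase hj))]
    ring
  rw [h1]
  ring

end ARWX

theorem t_ARW : Pool.SAR.Stmt_GD → Pool.SAR.Stmt_GA → Pool.SAR.Stmt_GB → Pool.SAR.Stmt_GU →
    Pool.SAR.Stmt_AV → Stmt_ACW → Stmt_SE → Stmt_FL → Stmt_LN → Stmt_TR → Stmt_LW →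
    Stmt_ARW := by
  intro hGD hGA hGB hGU hAV hACW hSE hFL hLN hTR hLW
  intro ι _ _ F _ _ _ m ℓ D c φ hc hD hℓ hfin hmι hpar1 hpar2 hrip
  have hmD : m ≤ D := (hGD ι F m c φ hc (fun J hJ x => (hrip J hJ x).1) hmι).trans hfin
  obtain ⟨a1, a2, a3, a4, a5, a6, a7, a8, a9, a10⟩ :=
    hACW m ℓ D (Fintype.card ι) hD hℓ hmD hpar1 hpar2
  set q : ℝ := (m : ℝ) / (32 * D) with hq
  set L : ℝ := 1 + Real.log ℓ with hL
  set Λ : ℝ := 36 * (D : ℝ) / m with hΛ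
  obtain ⟨g1, g2⟩ := hGA ι F m c φ a1 hc hrip
  have hφ : ∀ j, 0 < ‖φ j‖ := fun j => hc.trans_le (g1 j)
  have hv1 : ∀ j, ‖‖φ j‖⁻¹ • φ j‖ = 1 := by
    intro j
    rw [norm_smul, norm_inv, norm_norm, inv_mul_cancel₀ (hφ j).ne']
  have hL0 : 0 < L := by linarith
  have hθ : 0 < q / (4 * L) := by positivity
  obtain ⟨r, hr⟩ := hSE ι F m ℓ (8 * D) (q / (4 * L)) (fun j => ‖φ j‖⁻¹ • φ j) hv1 hθ a5 hℓ a6
    a7 g2
  have hm0 : (0 : ℝ) < m := by exact_mod_cast a1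
  have hD0 : (0 : ℝ) < D := by exact_mod_cast hD
  have hbound : ∀ y : F, ∑ k : Fin (8 * D), (inner ℝ y (‖φ (r k)‖⁻¹ • φ (r k))) ^ 2 ≤
      Λ * ‖y‖ ^ 2 := by
    intro y
    have h1 := hGB ι m (4 * ‖y‖ ^ 2) (fun j => (inner ℝ y (‖φ j‖⁻¹ • φ j)) ^ 2) a1
      (by positivity) (fun i => sq_nonneg _) (fun J hJ => g2 J hJ y) (univ.map r)
    rw [sum_map, card_map, card_univ, Fintype.card_fin] at h1
    refine h1.trans ?_
    have h3 := mul_le_mul_of_nonneg_right a9 (sq_nonneg ‖y‖)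
    calc 4 * ‖y‖ ^ 2 * ((8 * D : ℕ) / (m : ℝ) + 1)
        = 4 * ((8 * D : ℕ) / (m : ℝ) + 1) * ‖y‖ ^ 2 := by ring
      _ ≤ _ := h3
  obtain ⟨E, i1, i2, i3, u, hu1, hu2⟩ := hGU (Fin (8 * D)) F
    (fun k => ‖φ (r k)‖⁻¹ • φ (r k)) Λ (fun k => hv1 (r k)) a8 hbound
  have hunit : ∀ i, inner ℝ (u i) (u i) = (1 : ℝ) := by
    intro i
    have h1 := hu1 i i
    rw [if_pos rfl, real_inner_self_eq_norm_sq (‖φ (r i)‖⁻¹ • φ (r i)), hv1] at h1
    rw [h1]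
    norm_num
  have hoff := hFL (Fin (8 * D)) ℓ (q / (4 * L))
    (fun i j => inner ℝ (‖φ (r i)‖⁻¹ • φ (r i)) (‖φ (r j)‖⁻¹ • φ (r j))) hℓ hθ.le (by
      intro I J hIJ hI hJ
      have h1 := hr I J hIJ hI hJ
      rw [sum_inner] at h1
      simp only [inner_sum] at h1
      exact h1)
  have hloc : ∀ A : Finset (Fin (8 * D)), A.card ≤ ℓ → ∀ y : E,
      ∑ a ∈ A, (inner ℝ y (u a)) ^ 2 ≤ (1 + q / 2) * ‖y‖ ^ 2 := by
    intro A hA y
    refine hLN (Fin (8 * D)) E u A (1 + q / 2) (by positivity) (fun x => ?_) y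
    rw [ARWX.gram u (fun k => ‖φ (r k)‖⁻¹ • φ (r k)) (fun i => hv1 (r i)) hu1 A x]
    have h1 := (abs_le.mp (hoff A hA x)).2
    have h2 : 4 * (q / (4 * L)) * L = q := by field_simp
    rw [h2] at h1
    have h3 : (1 + q / 2) * ∑ i ∈ A, x i ^ 2 =
        ∑ i ∈ A, x i ^ 2 + 1 / 2 * (q * ∑ i ∈ A, x i ^ 2) := by ring
    rw [h3]
    linarith
  obtain ⟨p, u', hu1', hu2'⟩ := hTR (Fin (8 * D)) E u
  have hsy : Sy ℓ q Λ u' := by
    refine ⟨a3, a4, zero_le_one.trans a8, fun k => ?_, fun A hA y' => ?_, fun y' => ?_⟩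
    · rw [hu1', hunit]
    · obtain ⟨y, hy1, hy2⟩ := hu2' y'
      have h1 := hloc A hA y
      simp only [hy2] at h1
      rw [hy1] at h1
      exact h1
    · obtain ⟨y, hy1, hy2⟩ := hu2' y'
      have h1 := hu2 y
      simp only [hy2] at h1
      rw [hy1] at h1
      exact h1
  have hne : Nonempty (Fin (8 * D)) := ⟨⟨0, by omega⟩⟩
  obtain ⟨hW, hY⟩ := hLW (Fin (8 * D)) p ℓ q Λ u' hsy m a8
    (by rw [Fintype.card_fin]; exact a10)
  refine ⟨Fin (8 * D), inferInstance, inferInstance, r, YD (1 - q) u', hW, ?_, ?_⟩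
  · ext i j
    rw [transpose_apply, hY, hY, dotProduct_comm]
  · have h1 := hAV (Fin (8 * D)) F D c (fun k => φ (r k)) hc hD (fun k => g1 (r k)) hfin
      (Fintype.card_fin _)
    refine h1.trans_le (le_of_eq ?_)
    refine sum_congr rfl fun i _ => sum_congr rfl fun j _ => ?_
    rw [hY, hu1', hu1]

end Pool.SAT
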