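import Pool.Agent.SAT.Stmts

/-!
MP_c21969_lc, project SAT, block C: the arithmetic of the choice of the columns.
-/

set_option autoImplicit false

namespace Pool.SAT

open Matrix Finset Pool.SAR

namespace ATX

theorem card_small (N b : ℕ) :
    ((univ.filter fun A : Finset (Fin N) => A.card ≤ b).card : ℝ) ≤ ((N : ℝ) + 1) ^ b := by
  have h1 : (univ.filter fun A : Finset (Fin N) => A.card ≤ b).card ≤
      ∑ a ∈ range (b + 1), N.choose a := by
    have hsub : (univ.filter fun A : Finset (Fin N) => A.card ≤ b) ⊆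
        (range (b + 1)).biUnion fun a => powersetCard a (univ : Finset (Fin N)) := by
      intro A hA
      rw [mem_filter] at hA
      rw [mem_biUnion]
      exact ⟨A.card, mem_range.2 (Nat.lt_succ_of_le hA.2),
        mem_powersetCard.2 ⟨subset_univ _, rfl⟩⟩
    refine (card_le_card hsub).trans (card_biUnion_le.trans ?_)
    refine le_of_eq (sum_congr rfl fun a _ => ?_)
    rw [card_powersetCard, card_univ, Fintype.card_fin]
  have h2 : ∑ a ∈ range (b + 1), N.choose a ≤ (N + 1) ^ b := by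
    rw [add_pow]
    refine sum_le_sum fun a ha => ?_
    have ha' : a ≤ b := Nat.lt_succ_iff.1 (mem_range.1 ha)
    have hc : 1 ≤ b.choose a := Nat.choose_pos ha'
    calc N.choose a ≤ N ^ a := Nat.choose_le_pow N a
      _ = N ^ a * 1 ^ (b - a) * 1 := by rw [one_pow, mul_one, mul_one]
      _ ≤ N ^ a * 1 ^ (b - a) * b.choose a := Nat.mul_le_mul_left _ hc
  have h3 := h1.trans h2
  calc ((univ.filter fun A : Finset (Fin N) => A.card ≤ b).card : ℝ)
      ≤ (((N + 1) ^ b : ℕ) : ℝ) := by exact_mod_cast h3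
    _ = ((N : ℝ) + 1) ^ b := by push_cast; ring

theorem card_exact (N b : ℕ) :
    ((univ.filter fun A : Finset (Fin N) => A.card = b).card : ℝ) ≤
      (N : ℝ) ^ b / (b.factorial : ℝ) := by
  have h : (univ.filter fun A : Finset (Fin N) => A.card = b) =
      powersetCard b (univ : Finset (Fin N)) := by
    ext A
    simp [mem_powersetCard]
  rw [h, card_powersetCard, card_univ, Fintype.card_fin]
  exact Nat.choose_le_pow_div b N

theorem fac (b : ℕ) : (b : ℝ) ^ b / (b.factorial : ℝ) ≤ 3 ^ b := by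
  have h1 := Real.pow_div_factorial_le_exp (b : ℝ) (Nat.cast_nonneg b) b
  have h2 : Real.exp (b : ℝ) = Real.exp 1 ^ b := by
    rw [← Real.exp_nat_mul, mul_one]
  have h3 : Real.exp 1 ≤ 3 := by
    have := Real.exp_one_lt_d9
    linarith
  calc (b : ℝ) ^ b / (b.factorial : ℝ) ≤ Real.exp (b : ℝ) := h1
    _ = Real.exp 1 ^ b := h2
    _ ≤ 3 ^ b := pow_le_pow_left₀ (Real.exp_pos 1).le h3 b

end ATX

theorem t_AT : Stmt_AT := by
  intro N b θ d _ hθ h
  have hset : (univ.filter fun P : Finset (Fin N) × Finset (Fin N) =>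
      P.2.card = b ∧ P.1.card ≤ b) =
      (univ.filter fun A : Finset (Fin N) => A.card ≤ b) ×ˢ
        (univ.filter fun A : Finset (Fin N) => A.card = b) := by
    ext P
    simp only [mem_filter, mem_univ, true_and, mem_product]
    exact and_comm
  rw [hset, card_product, Nat.cast_mul]
  have hθ2 : 0 < θ ^ 2 := by positivity
  have hN : (0 : ℝ) ≤ N := Nat.cast_nonneg N
  have hb : (0 : ℝ) ≤ b := Nat.cast_nonneg b
  have hf : (0 : ℝ) < (b.factorial : ℝ) := by exact_mod_cast Nat.factorial_pos b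
  have h1 := ATX.card_small N b
  have h2 := ATX.card_exact N b
  have h3 := ATX.fac b
  have hpos : (0 : ℝ) ≤ (64 * (b : ℝ) / θ ^ 2) ^ b := by positivity
  have hd : 192 * (N : ℝ) * ((N : ℝ) + 1) / θ ^ 2 ≤ d / 6 := by
    rw [div_le_iff₀ hθ2]
    linarith
  calc ((univ.filter fun A : Finset (Fin N) => A.card ≤ b).card : ℝ) *
        ((univ.filter fun A : Finset (Fin N) => A.card = b).card : ℝ) *
        (64 * (b : ℝ) / θ ^ 2) ^ b
      ≤ ((N : ℝ) + 1) ^ b * ((N : ℝ) ^ b / (b.factorial : ℝ)) *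
          (64 * (b : ℝ) / θ ^ 2) ^ b :=
        mul_le_mul_of_nonneg_right
          (mul_le_mul h1 h2 (Nat.cast_nonneg _) (by positivity)) hpos
    _ = (64 * (N : ℝ) * ((N : ℝ) + 1) / θ ^ 2) ^ b * ((b : ℝ) ^ b / (b.factorial : ℝ)) := by
        rw [div_pow, div_pow, mul_pow, mul_pow, mul_pow]
        ring
    _ ≤ (64 * (N : ℝ) * ((N : ℝ) + 1) / θ ^ 2) ^ b * 3 ^ b :=
        mul_le_mul_of_nonneg_left h3 (by positivity)
    _ = (192 * (N : ℝ) * ((N : ℝ) + 1) / θ ^ 2) ^ b := by
        rw [← mul_pow]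
        congr 1
        ring
    _ ≤ (d / 6) ^ b := pow_le_pow_left₀ (by positivity) hd b

end Pool.SAT
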