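import Pool.Agent.SAT.Stmts

set_option autoImplicit false

namespace Pool.SAT

open Matrix Finset Pool.SAR

namespace BLX

theorem bilin_nonneg (hLO : Stmt_LO) {κ : Type} [DecidableEq κ] {ℓ : ℕ} {θ : ℝ}
    {Δ : κ → κ → ℝ} {I J : Finset κ} (hℓ : 1 ≤ ℓ) (hθ : 0 ≤ θ) (hI : I.card ≤ ℓ)
    (hJ : J.card ≤ ℓ)
    (h : ∀ I' ⊆ I, ∀ J' ⊆ J,
      |∑ i ∈ I', ∑ j ∈ J', Δ i j| ≤ θ * √((I'.card : ℝ) * (J'.card : ℝ)))
    {x y : κ → ℝ} (hx : ∀ i, 0 ≤ x i) (hy : ∀ j, 0 ≤ y j) :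
    |∑ i ∈ I, ∑ j ∈ J, x i * y j * Δ i j| ≤
      θ * (1 + Real.log ℓ) * (√(∑ i ∈ I, x i ^ 2) * √(∑ j ∈ J, y j ^ 2)) := by
  have hL : 0 ≤ 1 + Real.log ℓ := by
    have : 0 ≤ Real.log (ℓ : ℝ) := Real.log_natCast_nonneg ℓ
    linarith
  have h1 : ∀ J' ⊆ J, |∑ j ∈ J', ∑ i ∈ I, x i * Δ i j| ≤
      θ * √(1 + Real.log ℓ) * √(∑ i ∈ I, x i ^ 2) * √(J'.card : ℝ) := by
    intro J' hJ'
    have h2 := hLO κ I ℓ (θ * √(J'.card : ℝ)) (fun i => ∑ j ∈ J', Δ i j) x hℓ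
      (mul_nonneg hθ (Real.sqrt_nonneg _)) hI (fun i _ => hx i) (by
        intro I' hI'
        refine (h I' hI' J' hJ').trans (le_of_eq ?_)
        rw [Real.sqrt_mul (Nat.cast_nonneg _)]
        ring)
    have h3 : ∑ j ∈ J', ∑ i ∈ I, x i * Δ i j = ∑ i ∈ I, x i * ∑ j ∈ J', Δ i j := by
      rw [Finset.sum_comm]
      exact Finset.sum_congr rfl fun i _ => (Finset.mul_sum _ _ _).symm
    rw [h3]
    refine h2.trans (le_of_eq ?_)
    ring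
  have h4 := hLO κ J ℓ (θ * √(1 + Real.log ℓ) * √(∑ i ∈ I, x i ^ 2))
    (fun j => ∑ i ∈ I, x i * Δ i j) y hℓ
    (mul_nonneg (mul_nonneg hθ (Real.sqrt_nonneg _)) (Real.sqrt_nonneg _)) hJ
    (fun j _ => hy j) h1
  have h5 : ∑ i ∈ I, ∑ j ∈ J, x i * y j * Δ i j = ∑ j ∈ J, y j * ∑ i ∈ I, x i * Δ i j := by
    rw [Finset.sum_comm]
    refine Finset.sum_congr rfl fun j _ => ?_
    rw [Finset.mul_sum]
    exact Finset.sum_congr rfl fun i _ => by ring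
  rw [h5]
  refine h4.trans (le_of_eq ?_)
  have h6 : √(1 + Real.log ℓ) * √(1 + Real.log ℓ) = 1 + Real.log ℓ := Real.mul_self_sqrt hL
  calc θ * √(1 + Real.log ℓ) * √(∑ i ∈ I, x i ^ 2) * √(1 + Real.log ℓ) * √(∑ i ∈ J, y i ^ 2)
      = θ * (√(1 + Real.log ℓ) * √(1 + Real.log ℓ)) *
        (√(∑ i ∈ I, x i ^ 2) * √(∑ i ∈ J, y i ^ 2)) := by ring
    _ = _ := by rw [h6]

theorem sum_sq_split {κ : Type} (I : Finset κ) (x : κ → ℝ) :
    √(∑ i ∈ I, max (x i) 0 ^ 2) ^ 2 + √(∑ i ∈ I, max (-x i) 0 ^ 2) ^ 2 =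
      √(∑ i ∈ I, x i ^ 2) ^ 2 := by
  rw [Real.sq_sqrt (Finset.sum_nonneg fun i _ => sq_nonneg _),
    Real.sq_sqrt (Finset.sum_nonneg fun i _ => sq_nonneg _),
    Real.sq_sqrt (Finset.sum_nonneg fun i _ => sq_nonneg _), ← Finset.sum_add_distrib]
  refine Finset.sum_congr rfl fun i _ => ?_
  rcases le_total 0 (x i) with h | h
  · rw [max_eq_left h, max_eq_right (by linarith)]
    ring
  · rw [max_eq_right h, max_eq_left (by linarith)]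
    ring

theorem four {a b c d X Y : ℝ} (ha : 0 ≤ a) (hb : 0 ≤ b) (hc : 0 ≤ c) (hd : 0 ≤ d) (hX : 0 ≤ X)
    (hY : 0 ≤ Y) (h1 : a ^ 2 + b ^ 2 = X ^ 2) (h2 : c ^ 2 + d ^ 2 = Y ^ 2) :
    (a + b) * (c + d) ≤ 2 * (X * Y) := by
  have h3 : (a + b) ^ 2 ≤ 2 * X ^ 2 := by nlinarith [sq_nonneg (a - b)]
  have h4 : (c + d) ^ 2 ≤ 2 * Y ^ 2 := by nlinarith [sq_nonneg (c - d)]
  have h5 : ((a + b) * (c + d)) ^ 2 ≤ (2 * (X * Y)) ^ 2 := by
    calc ((a + b) * (c + d)) ^ 2 = (a + b) ^ 2 * (c + d) ^ 2 := by ring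
      _ ≤ (2 * X ^ 2) * (2 * Y ^ 2) := mul_le_mul h3 h4 (sq_nonneg _) (by positivity)
      _ = (2 * (X * Y)) ^ 2 := by ring
  exact (pow_le_pow_iff_left₀ (by positivity) (by positivity) two_ne_zero).1 h5

end BLX

theorem t_BL : Stmt_LO → Stmt_BL := by
  intro hLO κ _ ℓ θ Δ I J hℓ hθ hI hJ h x y
  have hL : 0 ≤ 1 + Real.log ℓ := by
    have : 0 ≤ Real.log (ℓ : ℝ) := Real.log_natCast_nonneg ℓ
    linarith
  have key : ∀ (a b : κ → ℝ), (∀ i, 0 ≤ a i) → (∀ j, 0 ≤ b j) →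
      |∑ i ∈ I, ∑ j ∈ J, a i * b j * Δ i j| ≤
      θ * (1 + Real.log ℓ) * (√(∑ i ∈ I, a i ^ 2) * √(∑ j ∈ J, b j ^ 2)) :=
    fun a b ha hb => BLX.bilin_nonneg hLO hℓ hθ hI hJ h ha hb
  have h1 := key (fun i => max (x i) 0) (fun j => max (y j) 0) (fun i => le_max_right _ _)
    (fun i => le_max_right _ _)
  have h2 := key (fun i => max (x i) 0) (fun j => max (-y j) 0) (fun i => le_max_right _ _)
    (fun i => le_max_right _ _)
  have h3 := key (fun i => max (-x i) 0) (fun j => max (y j) 0) (fun i => le_max_right _ _)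
    (fun i => le_max_right _ _)
  have h4 := key (fun i => max (-x i) 0) (fun j => max (-y j) 0) (fun i => le_max_right _ _)
    (fun i => le_max_right _ _)
  have hsplit : ∀ t : ℝ, t = max t 0 - max (-t) 0 := by
    intro t
    rcases le_total 0 t with ht | ht
    · rw [max_eq_left ht, max_eq_right (by linarith)]
      ring
    · rw [max_eq_right ht, max_eq_left (by linarith)]
      ring
  have h5 : ∑ i ∈ I, ∑ j ∈ J, x i * y j * Δ i j =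
      ((∑ i ∈ I, ∑ j ∈ J, max (x i) 0 * max (y j) 0 * Δ i j) -
        (∑ i ∈ I, ∑ j ∈ J, max (x i) 0 * max (-y j) 0 * Δ i j)) -
      ((∑ i ∈ I, ∑ j ∈ J, max (-x i) 0 * max (y j) 0 * Δ i j) -
        (∑ i ∈ I, ∑ j ∈ J, max (-x i) 0 * max (-y j) 0 * Δ i j)) := by
    rw [← Finset.sum_sub_distrib, ← Finset.sum_sub_distrib, ← Finset.sum_sub_distrib]
    refine Finset.sum_congr rfl fun i _ => ?_
    rw [← Finset.sum_sub_distrib, ← Finset.sum_sub_distrib, ← Finset.sum_sub_distrib]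
    refine Finset.sum_congr rfl fun j _ => ?_
    have e1 := hsplit (x i)
    have e2 := hsplit (y j)
    calc x i * y j * Δ i j = (max (x i) 0 - max (-x i) 0) * (max (y j) 0 - max (-y j) 0) *
          Δ i j := by rw [← e1, ← e2]
      _ = _ := by ring
  have h6 := BLX.four (Real.sqrt_nonneg (∑ i ∈ I, max (x i) 0 ^ 2))
    (Real.sqrt_nonneg (∑ i ∈ I, max (-x i) 0 ^ 2)) (Real.sqrt_nonneg (∑ j ∈ J, max (y j) 0 ^ 2))
    (Real.sqrt_nonneg (∑ j ∈ J, max (-y j) 0 ^ 2)) (Real.sqrt_nonneg (∑ i ∈ I, x i ^ 2))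
    (Real.sqrt_nonneg (∑ j ∈ J, y j ^ 2)) (BLX.sum_sq_split I x) (BLX.sum_sq_split J y)
  have h7 : 0 ≤ θ * (1 + Real.log ℓ) := mul_nonneg hθ hL
  have h8 := mul_le_mul_of_nonneg_left h6 h7
  rw [h5]
  generalize √(∑ i ∈ I, max (x i) 0 ^ 2) = a at *
  generalize √(∑ i ∈ I, max (-x i) 0 ^ 2) = b at *
  generalize √(∑ j ∈ J, max (y j) 0 ^ 2) = c at *
  generalize √(∑ j ∈ J, max (-y j) 0 ^ 2) = d at *
  generalize √(∑ i ∈ I, x i ^ 2) = X at *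
  generalize √(∑ j ∈ J, y j ^ 2) = Y at *
  refine (abs_sub _ _).trans ?_
  refine (add_le_add (abs_sub _ _) (abs_sub _ _)).trans ?_
  refine (add_le_add (add_le_add h1 h2) (add_le_add h3 h4)).trans ?_
  have e1 : θ * (1 + Real.log ℓ) * (a * c) + θ * (1 + Real.log ℓ) * (a * d) +
      (θ * (1 + Real.log ℓ) * (b * c) + θ * (1 + Real.log ℓ) * (b * d)) =
      θ * (1 + Real.log ℓ) * ((a + b) * (c + d)) := by ring
  rw [e1]
  refine h8.trans (le_of_eq ?_)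
  ring

end Pool.SAT
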