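import Pool.Agent.SAT.Stmts

/-!
MP_c21969_lc, project SAT: few columns have a large inner product with a vector.
-/

set_option autoImplicit false

namespace Pool.SAT

open Matrix Finset Pool.SAR

namespace CNX

lemma key {ι : Type} [DecidableEq ι] {F : Type} [NormedAddCommGroup F]
    [InnerProductSpace ℝ F] (m : ℕ) (v : ι → F)
    (h : ∀ J : Finset ι, J.card ≤ m → ∀ y : F, ∑ j ∈ J, (inner ℝ y (v j)) ^ 2 ≤ 4 * ‖y‖ ^ 2)
    (y : F) (b θ : ℝ) (hb : 0 < b) (hy : y ≠ 0) (S J : Finset ι)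
    (hS : ∀ j ∈ S, θ ^ 2 * ‖y‖ ^ 2 ≤ 16 * b * (inner ℝ y (v j)) ^ 2) (hJS : J ⊆ S)
    (hJ : J.card ≤ m) : θ ^ 2 * (J.card : ℝ) ≤ 64 * b := by
  have h1 : ∑ j ∈ J, θ ^ 2 * ‖y‖ ^ 2 ≤ ∑ j ∈ J, 16 * b * (inner ℝ y (v j)) ^ 2 :=
    Finset.sum_le_sum fun j hj => hS j (hJS hj)
  rw [Finset.sum_const, nsmul_eq_mul, ← Finset.mul_sum] at h1
  have h2 := h J hJ y
  have h3 : 0 < ‖y‖ ^ 2 := by
    have := norm_pos_iff.2 hy
    positivity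
  have h4 : 16 * b * ∑ j ∈ J, (inner ℝ y (v j)) ^ 2 ≤ 16 * b * (4 * ‖y‖ ^ 2) :=
    mul_le_mul_of_nonneg_left h2 (by positivity)
  have h5 : (θ ^ 2 * (J.card : ℝ)) * ‖y‖ ^ 2 ≤ (64 * b) * ‖y‖ ^ 2 := by
    calc (θ ^ 2 * (J.card : ℝ)) * ‖y‖ ^ 2 = (J.card : ℝ) * (θ ^ 2 * ‖y‖ ^ 2) := by ring
      _ ≤ 16 * b * (4 * ‖y‖ ^ 2) := h1.trans h4
      _ = (64 * b) * ‖y‖ ^ 2 := by ring
  exact le_of_mul_le_mul_right h5 h3

end CNX

theorem t_CN : Stmt_CN := by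
  intro ι _ _ F _ _ m v h y b θ hb hm hy S hS
  rcases le_or_gt S.card m with hc | hc
  · exact CNX.key m v h y b θ hb hy S S hS (Finset.Subset.refl _) hc
  · exfalso
    obtain ⟨J, hJS, hJ⟩ := Finset.exists_subset_card_eq hc.le
    have h1 := CNX.key m v h y b θ hb hy S J hS hJS hJ.le
    rw [hJ] at h1
    linarith

end Pool.SAT
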