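import Pool.Agent.SAR.Stmts2

/-!
MP_c21969_lc, project SAT: semidefinite Sherali-Adams tests for the restricted isometry property,
sharp levels.  Definitions.
-/

set_option autoImplicit false

namespace Pool.SAT

open Matrix Finset Pool.SAR
open scoped ComplexOrder

section Tests

variable {𝕜 : Type} [RCLike 𝕜] {ι ρ : Type} [Fintype ι] [DecidableEq ι] [Fintype ρ]

/-- Wide lifts of level `ℓ` for sparsity `m`.  As in `Pool.SAR.Lift m ℓ`, `Y A C` stands for the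
expectation of `1[A ⊆ supp x, supp x ∩ C = ∅] x x*` for a random unit vector `x` with at most `m`
nonzero coordinates; positivity, splitting and vanishing are imposed for all disjoint `A`, `C` with
`A.card ≤ ℓ`, without any bound for `C`. -/
structure Wide (m ℓ : ℕ) (Y : Finset ι → Finset ι → Matrix ι ι 𝕜) : Prop where
  psd : ∀ A C : Finset ι, Disjoint A C → A.card ≤ ℓ → (Y A C).PosSemidef
  split : ∀ A C : Finset ι, Disjoint A C → A.card + 1 ≤ ℓ → ∀ k ∉ A ∪ C,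
    Y A C = Y (insert k A) C + Y A (insert k C)
  zero : ∀ A C : Finset ι, Disjoint A C → A.card ≤ ℓ → ∀ i ∈ C, ∀ j, Y A C i j = 0
  trace : (Y ∅ ∅).trace = 1
  sparse : ∀ A C : Finset ι, Disjoint A C → (A ∪ C).card + 1 ≤ ℓ →
    (((m : ℝ) - (A.card : ℝ)) • Y A C - ∑ k ∈ (A ∪ C)ᶜ, Y (insert k A) C).PosSemidef

/-- The wide level-`ℓ` test accepts `Φ`: for some `c > 0` the value of every wide lift of level `ℓ`
is between `c ^ 2` and `4 * c ^ 2`. -/
def WCert (m ℓ : ℕ) (Φ : Matrix ρ ι 𝕜) : Prop :=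
  ∃ c : ℝ, 0 < c ∧ ∀ Y : Finset ι → Finset ι → Matrix ι ι 𝕜, Wide m ℓ Y →
    c ^ 2 ≤ val Φ (Y ∅ ∅) ∧ val Φ (Y ∅ ∅) ≤ 4 * c ^ 2

end Tests

section Algebra

variable {ι : Type} [DecidableEq ι]

/-- The iterated difference of `f` with respect to the coordinates in `C`, at the point which is `0`
or `1` on `C` and `z` elsewhere. -/
def sl (C : Finset ι) (f : (ι → ℝ) → ℝ) (z : ι → ℝ) : ℝ :=
  ∑ B ∈ C.powerset, (-1) ^ (C.card + B.card) *
    f (fun k => if k ∈ C then (if k ∈ B then 1 else 0) else z k)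

/-- The point with coordinates `-t` on `A` and `0` elsewhere. -/
def za (t : ℝ) (A : Finset ι) (k : ι) : ℝ := if k ∈ A then -t else 0

/-- The points with coordinates `-t` on `A` and nonnegative coordinates elsewhere. -/
def Rg (t : ℝ) (A : Finset ι) (z : ι → ℝ) : Prop := (∀ k ∈ A, z k = -t) ∧ ∀ k ∉ A, 0 ≤ z k

end Algebra

section Geometry

variable {ι : Type} [Fintype ι] [DecidableEq ι] {p : ℕ}

/-- The matrix `1 + ∑ k, z k • u_k u_kᵀ`. -/
noncomputable def MM (u : ι → Fin p → ℝ) (z : ι → ℝ) : Matrix (Fin p) (Fin p) ℝ :=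
  1 + ∑ k, z k • vecMulVec (u k) (u k)

/-- The adjugate of `MM u z`, a matrix whose entries are affine in every coordinate of `z`. -/
noncomputable def AM (u : ι → Fin p → ℝ) (z : ι → ℝ) : Matrix (Fin p) (Fin p) ℝ :=
  (MM u z).adjugate

/-- The determinantal lift built from the vectors `u i`. -/
noncomputable def YD (t : ℝ) (u : ι → Fin p → ℝ) (A C : Finset ι) : Matrix ι ι ℝ :=
  Matrix.of fun i j => (Fintype.card ι : ℝ)⁻¹ * t ^ C.card *
    sl C (fun z => u i ⬝ᵥ (AM u z *ᵥ u j)) (za t A)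

/-- Unit vectors such that any `ℓ` of them are nearly orthonormal. -/
structure Sy (ℓ : ℕ) (q Λ : ℝ) (u : ι → Fin p → ℝ) : Prop where
  q0 : 0 < q
  q1 : q ≤ 1
  L0 : 0 ≤ Λ
  unit : ∀ k, u k ⬝ᵥ u k = 1
  loc : ∀ A : Finset ι, A.card ≤ ℓ → ∀ y : Fin p → ℝ,
    ∑ a ∈ A, (y ⬝ᵥ u a) ^ 2 ≤ (1 + q / 2) * (y ⬝ᵥ y)
  glob : ∀ y : Fin p → ℝ, ∑ k, (y ⬝ᵥ u k) ^ 2 ≤ Λ * (y ⬝ᵥ y)

end Geometry

end Pool.SAT
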