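import Pool.Agent.SAT.Stmts

/-!
# Off-diagonal quadratic forms
-/

set_option autoImplicit false

open Matrix Finset Pool.SAR

namespace Pool.SAT.FLX

variable {κ : Type} [DecidableEq κ]

theorem cnt (A : Finset κ) (i j : κ) (hi : i ∈ A) (hj : j ∈ A) (hij : i ≠ j) :
    4 * ∑ S ∈ A.powerset, (if i ∈ S ∧ j ∉ S then (1 : ℝ) else 0) = 2 ^ A.card := by
  set B : Finset κ := (A.erase i).erase j with hB
  have hjB : j ∉ B := Finset.notMem_erase _ _
  have hjA : j ∈ A.erase i := Finset.mem_erase.2 ⟨hij.symm, hj⟩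
  have h1 : insert j B = A.erase i := Finset.insert_erase hjA
  have hiB : i ∉ insert j B := by
    rw [h1]
    exact Finset.notMem_erase _ _
  have h2 : insert i (insert j B) = A := by
    rw [h1]
    exact Finset.insert_erase hi
  have hcard : A.card = B.card + 2 := by
    rw [← h2, Finset.card_insert_of_notMem hiB, Finset.card_insert_of_notMem hjB]
  rw [← h2, Finset.sum_powerset_insert hiB, Finset.sum_powerset_insert hjB,
    Finset.sum_powerset_insert hjB]
  have hsub : ∀ S ∈ B.powerset, i ∉ S ∧ j ∉ S := by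
    intro S hS
    have h3 := Finset.mem_powerset.1 hS
    exact ⟨fun h => hiB (Finset.mem_insert_of_mem (h3 h)), fun h => hjB (h3 h)⟩
  have e1 : ∑ S ∈ B.powerset, (if i ∈ S ∧ j ∉ S then (1 : ℝ) else 0) = 0 := by
    refine Finset.sum_eq_zero fun S hS => ?_
    rw [if_neg fun h => (hsub S hS).1 h.1]
  have e2 : ∑ S ∈ B.powerset, (if i ∈ insert j S ∧ j ∉ insert j S then (1 : ℝ) else 0) = 0 := by
    refine Finset.sum_eq_zero fun S _ => ?_
    rw [if_neg fun h => h.2 (Finset.mem_insert_self _ _)]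
  have e3 : ∑ S ∈ B.powerset, (if i ∈ insert i S ∧ j ∉ insert i S then (1 : ℝ) else 0) =
      2 ^ B.card := by
    rw [Finset.sum_congr rfl fun S hS => if_pos ⟨Finset.mem_insert_self i S, fun h =>
      (Finset.mem_insert.1 h).elim (fun h => hij h.symm) (hsub S hS).2⟩,
      Finset.sum_const, Finset.card_powerset, nsmul_eq_mul, mul_one]
    push_cast
    rfl
  have e4 : ∑ S ∈ B.powerset,
      (if i ∈ insert i (insert j S) ∧ j ∉ insert i (insert j S) then (1 : ℝ) else 0) = 0 := by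
    refine Finset.sum_eq_zero fun S _ => ?_
    rw [if_neg fun h => h.2 (Finset.mem_insert_of_mem (Finset.mem_insert_self _ _))]
  rw [e1, e2, e3, e4, h2, hcard, pow_add]
  ring

theorem split (A S : Finset κ) (hS : S ⊆ A) (g : κ → κ → ℝ) :
    ∑ i ∈ S, ∑ j ∈ A \ S, g i j =
      ∑ i ∈ A, ∑ j ∈ A.erase i, g i j * (if i ∈ S ∧ j ∉ S then (1 : ℝ) else 0) := by
  have h1 : ∀ i ∈ A, ∑ j ∈ A.erase i, g i j * (if i ∈ S ∧ j ∉ S then (1 : ℝ) else 0) =
      if i ∈ S then ∑ j ∈ A \ S, g i j else 0 := by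
    intro i hi
    by_cases hiS : i ∈ S
    · rw [if_pos hiS]
      have h2 : A \ S ⊆ A.erase i := by
        intro j hj
        rw [Finset.mem_sdiff] at hj
        exact Finset.mem_erase.2 ⟨fun h => hj.2 (h ▸ hiS), hj.1⟩
      rw [← Finset.sum_subset h2]
      · refine Finset.sum_congr rfl fun j hj => ?_
        rw [if_pos ⟨hiS, (Finset.mem_sdiff.1 hj).2⟩, mul_one]
      · intro j hj hj'
        rw [if_neg, mul_zero]
        rintro ⟨-, h⟩
        exact hj' (Finset.mem_sdiff.2 ⟨Finset.mem_of_mem_erase hj, h⟩)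
    · rw [if_neg hiS]
      refine Finset.sum_eq_zero fun j _ => ?_
      rw [if_neg fun h => hiS h.1, mul_zero]
  rw [Finset.sum_congr rfl h1, ← Finset.sum_filter, Finset.filter_mem_eq_inter,
    Finset.inter_eq_right.2 hS]

end Pool.SAT.FLX

namespace Pool.SAT

open FLX in
theorem t_FL : Stmt_BL → Stmt_FL := by
  intro hBL κ _ _ ℓ θ Δ hℓ hθ hΔ A hA x
  set L : ℝ := 1 + Real.log ℓ with hL
  have hL0 : 0 ≤ L := by
    have : 0 ≤ Real.log (ℓ : ℝ) := Real.log_nonneg (by exact_mod_cast hℓ)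
    linarith
  set X : ℝ := ∑ i ∈ A, x i ^ 2 with hX
  set g : κ → κ → ℝ := fun i j => x i * x j * Δ i j with hg
  have hQ : ∀ S ∈ A.powerset, |∑ i ∈ S, ∑ j ∈ A \ S, g i j| ≤ θ * L * X := by
    intro S hS
    have hSA := Finset.mem_powerset.1 hS
    have h1 := hBL κ ℓ θ Δ S (A \ S) hℓ hθ ((Finset.card_le_card hSA).trans hA)
      ((Finset.card_le_card Finset.sdiff_subset).trans hA) (fun I' hI' J' hJ' => by
        refine hΔ I' J' ?_ ((Finset.card_le_card (hI'.trans hSA)).trans hA)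
          ((Finset.card_le_card (hJ'.trans Finset.sdiff_subset)).trans hA)
        exact Finset.disjoint_of_subset_left hI' (Finset.disjoint_of_subset_right hJ'
          Finset.disjoint_sdiff)) x x
    refine h1.trans ?_
    set a : ℝ := ∑ i ∈ S, x i ^ 2 with ha
    set b : ℝ := ∑ j ∈ A \ S, x j ^ 2 with hb
    have ha0 : 0 ≤ a := Finset.sum_nonneg fun i _ => sq_nonneg _
    have hb0 : 0 ≤ b := Finset.sum_nonneg fun i _ => sq_nonneg _
    have hab : b + a = X := Finset.sum_sdiff hSA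
    have h2 : 2 * (√a * √b) ≤ X := by
      have h3 := sq_nonneg (√a - √b)
      have h4 := Real.sq_sqrt ha0
      have h5 := Real.sq_sqrt hb0
      nlinarith
    have h6 : 0 ≤ θ * L := mul_nonneg hθ hL0
    calc 2 * θ * L * (√a * √b) = θ * L * (2 * (√a * √b)) := by ring
      _ ≤ θ * L * X := mul_le_mul_of_nonneg_left h2 h6
  have hsum : 4 * ∑ S ∈ A.powerset, ∑ i ∈ S, ∑ j ∈ A \ S, g i j =
      2 ^ A.card * ∑ i ∈ A, ∑ j ∈ A.erase i, g i j := by
    rw [Finset.sum_congr rfl fun S hS => split A S (Finset.mem_powerset.1 hS) g,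
      Finset.sum_comm, Finset.mul_sum, Finset.mul_sum]
    refine Finset.sum_congr rfl fun i hi => ?_
    rw [Finset.sum_comm, Finset.mul_sum, Finset.mul_sum]
    refine Finset.sum_congr rfl fun j hj => ?_
    rw [← Finset.mul_sum, ← cnt A i j hi (Finset.mem_of_mem_erase hj)
      (Finset.ne_of_mem_erase hj).symm]
    ring
  have h2 : |4 * ∑ S ∈ A.powerset, ∑ i ∈ S, ∑ j ∈ A \ S, g i j| ≤
      2 ^ A.card * (4 * θ * L * X) := by
    rw [abs_mul, abs_of_pos (by norm_num : (0 : ℝ) < 4)]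
    have h3 : |∑ S ∈ A.powerset, ∑ i ∈ S, ∑ j ∈ A \ S, g i j| ≤ ∑ S ∈ A.powerset, θ * L * X :=
      (Finset.abs_sum_le_sum_abs _ _).trans (Finset.sum_le_sum hQ)
    rw [Finset.sum_const, Finset.card_powerset, nsmul_eq_mul] at h3
    push_cast at h3
    linarith
  rw [hsum, abs_mul, abs_of_pos (by positivity : (0 : ℝ) < 2 ^ A.card)] at h2
  exact le_of_mul_le_mul_left h2 (by positivity)

end Pool.SAT
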