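import Pool.Agent.SAT.Stmts

/-!
MP_c21969_lc, project SAT: module FN (counting functions).
-/

set_option autoImplicit false

open Matrix Finset Pool.SAR

namespace Pool.SAT

namespace FNX

theorem step {ν ι : Type} [Fintype ν] [DecidableEq ν] [Fintype ι] [DecidableEq ι] (K : ℝ)
    (J : Finset ν) (S : (ν → ι) → Finset ι)
    (hS : ∀ r r' : ν → ι, (∀ i ∉ J, r i = r' i) → S r = S r')
    (hK : ∀ r, ((S r).card : ℝ) ≤ K) (J' : Finset ν) (j : ν) (hj : j ∈ J) (hj' : j ∉ J') :
    ((univ.filter fun r : ν → ι => ∀ i ∈ insert j J', r i ∈ S r).card : ℝ) *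
        (Fintype.card ι : ℝ) ≤
      K * ((univ.filter fun r : ν → ι => ∀ i ∈ J', r i ∈ S r).card : ℝ) := by
  have hup : ∀ (r : ν → ι) (x : ι), S (Function.update r j x) = S r := by
    intro r x
    apply hS
    intro i hi
    rw [Function.update_of_ne]
    rintro rfl
    exact hi hj
  have h1 : ((univ.filter fun r : ν → ι => ∀ i ∈ insert j J', r i ∈ S r) ×ˢ
      (univ : Finset ι)).card ≤
      ((univ.filter fun r : ν → ι => ∀ i ∈ J', r i ∈ S r).sigma S).card := by
    apply Finset.card_le_card_of_injOn
      (fun a => (⟨Function.update a.1 j a.2, a.1 j⟩ : (_ : ν → ι) × ι))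
    · rintro ⟨r, x⟩ h
      rw [Finset.mem_coe, Finset.mem_product, Finset.mem_filter] at h
      have hr := h.1.2
      rw [Finset.mem_coe, Finset.mem_sigma, Finset.mem_filter]
      refine ⟨⟨Finset.mem_univ _, fun i hi => ?_⟩, ?_⟩
      · show Function.update r j x i ∈ S (Function.update r j x)
        rw [hup, Function.update_of_ne (by rintro rfl; exact hj' hi)]
        exact hr i (Finset.mem_insert_of_mem hi)
      · show r j ∈ S (Function.update r j x)
        rw [hup]
        exact hr j (Finset.mem_insert_self _ _)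
    · rintro ⟨r, x⟩ _ ⟨r', x'⟩ _ h
      have e1 : Function.update r j x = Function.update r' j x' := congrArg Sigma.fst h
      have e2 : r j = r' j := by
        have := congrArg (fun a : (_ : ν → ι) × ι => a.2) h
        exact this
      have e3 : x = x' := by
        have := congrFun e1 j
        rwa [Function.update_self, Function.update_self] at this
      have e4 : r = r' := by
        funext i
        by_cases hi : i = j
        · rw [hi, e2]
        · have := congrFun e1 i
          rwa [Function.update_of_ne hi, Function.update_of_ne hi] at this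
      rw [e3, e4]
  rw [Finset.card_product, Finset.card_sigma, Finset.card_univ] at h1
  have h2 : ((univ.filter fun r : ν → ι => ∀ i ∈ insert j J', r i ∈ S r).card : ℝ) *
      (Fintype.card ι : ℝ) ≤
      ∑ r ∈ univ.filter (fun r : ν → ι => ∀ i ∈ J', r i ∈ S r), ((S r).card : ℝ) := by
    exact_mod_cast h1
  refine h2.trans ((Finset.sum_le_card_nsmul _ _ K fun r _ => hK r).trans ?_)
  rw [nsmul_eq_mul, mul_comm]

end FNX

/-- Module FN. -/
theorem t_FN : Stmt_FN := by
  intro ν ι _ _ _ _ K J S hK0 hS hK
  have key : ∀ J' : Finset ν, J' ⊆ J →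
      ((univ.filter fun r : ν → ι => ∀ j ∈ J', r j ∈ S r).card : ℝ) *
          (Fintype.card ι : ℝ) ^ J'.card ≤
        K ^ J'.card * (Fintype.card ι : ℝ) ^ Fintype.card ν := by
    intro J'
    induction J' using Finset.induction_on with
    | empty =>
      intro _
      simp
    | insert j J' hj' ih =>
      intro hJ
      have hj : j ∈ J := hJ (Finset.mem_insert_self _ _)
      have ih' := ih fun i hi => hJ (Finset.mem_insert_of_mem hi)
      have hs := FNX.step K J S hS hK J' j hj hj'
      rw [Finset.card_insert_of_notMem hj']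
      calc ((univ.filter fun r : ν → ι => ∀ i ∈ insert j J', r i ∈ S r).card : ℝ) *
            (Fintype.card ι : ℝ) ^ (J'.card + 1)
          = ((univ.filter fun r : ν → ι => ∀ i ∈ insert j J', r i ∈ S r).card : ℝ) *
            (Fintype.card ι : ℝ) * (Fintype.card ι : ℝ) ^ J'.card := by ring
        _ ≤ K * ((univ.filter fun r : ν → ι => ∀ i ∈ J', r i ∈ S r).card : ℝ) *
            (Fintype.card ι : ℝ) ^ J'.card := by gcongr
        _ = K * (((univ.filter fun r : ν → ι => ∀ i ∈ J', r i ∈ S r).card : ℝ) *
            (Fintype.card ι : ℝ) ^ J'.card) := by ring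
        _ ≤ K * (K ^ J'.card * (Fintype.card ι : ℝ) ^ Fintype.card ν) := by gcongr
        _ = K ^ (J'.card + 1) * (Fintype.card ι : ℝ) ^ Fintype.card ν := by ring
  exact key J (Finset.Subset.refl J)

end Pool.SAT
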