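import Pool.Agent.SAT.Stmts
import Pool.Agent.SAR.HE

/-!
# Module HEW: extension by zero of a wide lift
-/

set_option autoImplicit false

set_option linter.unusedSectionVars false

namespace Pool.SAT

open Matrix Finset Pool.SAR
open scoped ComplexOrder

open Pool.SAR.HEX in
theorem t_HEW : Stmt_HEW := by
  intro 𝕜 _ ι κ _ _ _ _ e m ℓ Y hY
  refine ⟨?_, ?_, ?_, ?_, ?_⟩
  · intro A C hd hc
    by_cases hA : A ⊆ univ.map e
    · rw [ext_pos e Y C hA]
      exact TM_psd e (hY.psd _ _ (pre_disj e hd) ((pre_card_eq e hA).le.trans hc))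
    · rw [ext_neg e Y C hA]
      exact Matrix.PosSemidef.zero
  · intro A C hd hc i hi
    by_cases hA : A ⊆ univ.map e
    · by_cases hk : ∃ k, e k = i
      · obtain ⟨k, rfl⟩ := hk
        rw [ext_pos e Y C hA, ext_pos e Y C (ins_sub e hA k), ext_pos e Y _ hA, pre_insert,
          pre_insert, ← TM_add]
        congr 1
        refine hY.split _ _ (pre_disj e hd) ?_ k (pre_not_mem e hi)
        have := pre_card_eq e hA
        omega
      · have hk' : ∀ k, e k ≠ i := fun k h => hk ⟨k, h⟩
        rw [ext_pos e Y C hA, ext_neg e Y C (ins_not e i hk'), ext_pos e Y _ hA,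
          pre_insert_not e C i hk', zero_add]
    · have hA' : ¬ insert i A ⊆ univ.map e := fun h => hA ((Finset.subset_insert i A).trans h)
      rw [ext_neg e Y C hA, ext_neg e Y C hA', ext_neg e Y _ hA, zero_add]
  · intro A C hd hc i hi j
    by_cases hA : A ⊆ univ.map e
    · rw [ext_pos e Y C hA, TM_apply]
      refine Finset.sum_eq_zero fun k _ => Finset.sum_eq_zero fun l _ => ?_
      by_cases h : e k = i ∧ e l = j
      · rw [if_pos h]
        have hk : k ∈ pre e C := by
          rw [mem_pre, h.1]
          exact hi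
        rw [hY.zero _ _ (pre_disj e hd) ((pre_card_eq e hA).le.trans hc) k hk l,
          RCLike.ofReal_zero]
      · rw [if_neg h]
    · rw [ext_neg e Y C hA, Matrix.zero_apply]
  · have h0 : (∅ : Finset ι) ⊆ univ.map e := Finset.empty_subset _
    have h1 : pre e (∅ : Finset ι) = ∅ := by
      ext k
      rw [mem_pre]
      simp
    rw [ext_pos e Y ∅ h0, h1, TM_trace, hY.trace, RCLike.ofReal_one]
  · intro A C hd hc
    by_cases hA : A ⊆ univ.map e
    · have hsum : ∑ i ∈ (A ∪ C)ᶜ, ext 𝕜 e Y (insert i A) C =
          TM 𝕜 e (∑ k ∈ (pre e A ∪ pre e C)ᶜ, Y (insert k (pre e A)) (pre e C)) := by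
        rw [TM_sum]
        have h2 : ((pre e A ∪ pre e C)ᶜ).map e ⊆ (A ∪ C)ᶜ := by
          intro i hi
          obtain ⟨k, hk, rfl⟩ := Finset.mem_map.1 hi
          rw [Finset.mem_compl] at hk ⊢
          intro h
          apply hk
          rw [Finset.mem_union] at h ⊢
          rw [mem_pre, mem_pre]
          exact h
        rw [← Finset.sum_subset h2, Finset.sum_map]
        · refine Finset.sum_congr rfl fun k _ => ?_
          rw [ext_pos e Y C (ins_sub e hA k), pre_insert]
        · intro i hi hi2
          refine ext_neg e Y C (ins_not e i fun k hk => hi2 ?_)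
          subst hk
          refine Finset.mem_map_of_mem e ?_
          rw [Finset.mem_compl] at hi ⊢
          exact pre_not_mem e hi
      rw [hsum, ext_pos e Y C hA, ← TM_smul, ← TM_sub, ← pre_card_eq e hA]
      refine TM_psd e (hY.sparse _ _ (pre_disj e hd) ?_)
      have := pre_card e A C
      omega
    · have hsum : ∑ i ∈ (A ∪ C)ᶜ, ext 𝕜 e Y (insert i A) C = 0 := by
        refine Finset.sum_eq_zero fun i _ => ext_neg e Y C fun h => hA ?_
        exact (Finset.subset_insert i A).trans h
      rw [hsum, ext_neg e Y C hA, smul_zero, sub_zero]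
      exact Matrix.PosSemidef.zero

end Pool.SAT
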