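import Pool.Agent.SAT.Stmts
import Pool.Agent.SAR.HS

/-!
MP_c21969_lc, project SAT, module HSW: the lift of a single vector is wide.
-/

set_option autoImplicit false

namespace Pool.SAT

open Matrix Finset Pool.SAR
open scoped ComplexOrder

open HSX in
theorem t_HSW : Stmt_HSW := by
  classical
  intro 𝕜 _ ι _ _ m ℓ x hx hS
  obtain ⟨S, hSm, hS0⟩ := hS
  have hpsd : (vecMulVec x (star x)).PosSemidef := posSemidef_vecMulVec_self_star x
  refine ⟨?_, ?_, ?_, ?_, ?_⟩
  · intro A C _ _
    by_cases h : Cd x A C
    · rw [vlift_pos h]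
      exact hpsd
    · rw [vlift_neg h]
      exact PosSemidef.zero
  · intro A C _ _ k _
    by_cases h : Cd x A C
    · by_cases hk : x k = 0
      · rw [vlift_pos h, vlift_neg (fun h' => (cd_insA.1 h').1 hk), vlift_pos (cd_insC.2 ⟨hk, h⟩),
          zero_add]
      · rw [vlift_pos h, vlift_pos (cd_insA.2 ⟨hk, h⟩), vlift_neg (fun h' => hk (cd_insC.1 h').1),
          add_zero]
    · rw [vlift_neg h, vlift_neg (fun h' => h (cd_insA.1 h').2),
        vlift_neg (fun h' => h (cd_insC.1 h').2), add_zero]
  · intro A C _ _ i hi j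
    by_cases h : Cd x A C
    · rw [vlift_pos h, vecMulVec_apply, h.2 i hi, zero_mul]
    · rw [vlift_neg h]
      rfl
  · have h : Cd x ∅ ∅ := ⟨fun i hi => absurd hi (Finset.notMem_empty i),
      fun i hi => absurd hi (Finset.notMem_empty i)⟩
    rw [vlift_pos h, trace]
    have h1 : ∀ i, (vecMulVec x (star x)).diag i = ((‖x i‖ ^ 2 : ℝ) : 𝕜) := by
      intro i
      rw [diag_apply, vecMulVec_apply, Pi.star_apply, RCLike.star_def, RCLike.mul_conj]
      push_cast
      rfl
    rw [Finset.sum_congr rfl fun i _ => h1 i, ← RCLike.ofReal_sum, hx, RCLike.ofReal_one]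
  · intro A C hAC _
    by_cases h : Cd x A C
    · set T : Finset ι := (A ∪ C)ᶜ.filter (fun k => x k ≠ 0) with hT
      have h1 : ∑ k ∈ (A ∪ C)ᶜ, vlift x (insert k A) C = (T.card : ℝ) • vecMulVec x (star x) := by
        rw [hT]
        have h2 : ∀ k ∈ (A ∪ C)ᶜ, vlift x (insert k A) C =
            if x k ≠ 0 then vecMulVec x (star x) else 0 := by
          intro k _
          by_cases hk : x k ≠ 0
          · rw [if_pos hk, vlift_pos (cd_insA.2 ⟨hk, h⟩)]
          · rw [if_neg hk, vlift_neg (fun h' => hk (cd_insA.1 h').1)]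
        rw [Finset.sum_congr rfl h2, ← Finset.sum_filter, Finset.sum_const, Nat.cast_smul_eq_nsmul]
      rw [h1, vlift_pos h, ← sub_smul]
      apply hpsd.smul
      have hd : Disjoint A T := by
        rw [Finset.disjoint_left]
        intro k hkA hkT
        rw [hT, Finset.mem_filter, Finset.mem_compl, Finset.mem_union] at hkT
        exact hkT.1 (Or.inl hkA)
      have hsub : A ∪ T ⊆ S := by
        intro k hk
        by_contra hkS
        have h0 := hS0 k hkS
        rcases Finset.mem_union.1 hk with hk | hk
        · exact h.1 k hk h0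
        · exact (Finset.mem_filter.1 hk).2 h0
      have hc := (Finset.card_le_card hsub).trans hSm
      rw [Finset.card_union_of_disjoint hd] at hc
      have hc' : (A.card : ℝ) + T.card ≤ m := by exact_mod_cast hc
      linarith
    · rw [vlift_neg h, smul_zero, Finset.sum_eq_zero, sub_zero]
      · exact PosSemidef.zero
      · intro k _
        exact vlift_neg (fun h' => h (cd_insA.1 h').2)

end Pool.SAT
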