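import Pool.Agent.SAT.Stmts

/-!
Module LN: from Gram matrices to `loc`.
-/

set_option autoImplicit false

namespace Pool.SAT

open Matrix Finset Pool.SAR

theorem t_LN : Stmt_LN := by
  intro ι _ E _ _ u A K hK hx y
  set S := ∑ a ∈ A, (inner ℝ y (u a)) ^ 2 with hS
  have hS0 : 0 ≤ S := Finset.sum_nonneg fun a _ => sq_nonneg _
  set w : E := ∑ a ∈ A, (inner ℝ y (u a) : ℝ) • u a with hw
  have h1 : inner ℝ y w = S := by
    rw [hw, inner_sum, hS]
    exact Finset.sum_congr rfl fun a _ => by rw [real_inner_smul_right, sq]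
  have h2 : ‖w‖ ^ 2 = ∑ i ∈ A, ∑ j ∈ A, inner ℝ y (u i) * inner ℝ y (u j) * inner ℝ (u i) (u j) := by
    rw [← real_inner_self_eq_norm_sq, hw, sum_inner]
    refine Finset.sum_congr rfl fun i _ => ?_
    rw [inner_sum]
    refine Finset.sum_congr rfl fun j _ => ?_
    rw [real_inner_smul_left, real_inner_smul_right]
    ring
  have h3 : ‖w‖ ^ 2 ≤ K * S := by
    rw [h2]
    exact hx fun a => inner ℝ y (u a)
  have h4 : S ≤ ‖y‖ * ‖w‖ := by
    rw [← h1]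
    exact real_inner_le_norm y w
  have h5 : S ^ 2 ≤ ‖y‖ ^ 2 * (K * S) := by
    calc S ^ 2 ≤ (‖y‖ * ‖w‖) ^ 2 := pow_le_pow_left₀ hS0 h4 2
      _ = ‖y‖ ^ 2 * ‖w‖ ^ 2 := mul_pow _ _ _
      _ ≤ ‖y‖ ^ 2 * (K * S) := mul_le_mul_of_nonneg_left h3 (sq_nonneg _)
  rcases hS0.eq_or_lt with h0 | h0
  · rw [← h0]
    positivity
  · have h6 : S * S ≤ (K * ‖y‖ ^ 2) * S := by nlinarith
    exact le_of_mul_le_mul_right h6 h0

end Pool.SAT
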