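import Pool.Agent.SAT.Stmts

/-!
MP_c21969_lc, project SAT: module LO.
-/

set_option autoImplicit false

namespace Pool.SAT

open Matrix Finset Pool.SAR

namespace LOX

/-- `(√(n+1) - √n)² ≤ 1 / (n + 1)`. -/
lemma sq_diff (n : ℕ) : (√((n : ℝ) + 1) - √(n : ℝ)) ^ 2 ≤ ((n : ℝ) + 1)⁻¹ := by
  have hn : (0 : ℝ) ≤ n := Nat.cast_nonneg n
  have hx := Real.sq_sqrt (show (0 : ℝ) ≤ (n : ℝ) + 1 by positivity)
  have hy := Real.sq_sqrt hn
  have hxy : √(n : ℝ) ≤ √((n : ℝ) + 1) := Real.sqrt_le_sqrt (by linarith)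
  have hy0 := Real.sqrt_nonneg (n : ℝ)
  have hx0 := Real.sqrt_nonneg ((n : ℝ) + 1)
  set x := √((n : ℝ) + 1)
  set y := √(n : ℝ)
  have h1 : 0 ≤ (x - y) * x := mul_nonneg (by linarith) hx0
  have h2 : (x - y) * x ≤ 1 := by nlinarith [mul_nonneg (sub_nonneg.mpr hxy) hy0]
  have h3 : ((x - y) * x) ^ 2 ≤ 1 := by nlinarith
  have h4 : (x - y) ^ 2 * ((n : ℝ) + 1) ≤ 1 := by
    rw [← hx]
    linarith [h3, mul_pow (x - y) x 2]
  rw [← one_div, le_div_iff₀ (by positivity)]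
  exact h4

lemma key {κ : Type} [DecidableEq κ] (g : κ → ℝ) (C : ℝ) (hC : 0 ≤ C) :
    ∀ (n : ℕ) (A : Finset κ), A.card = n → ∀ a : κ → ℝ, (∀ i ∈ A, 0 ≤ a i) →
      (∀ I ⊆ A, |∑ i ∈ I, g i| ≤ C * √(I.card : ℝ)) →
      ∃ c : κ → ℝ, ∑ i ∈ A, c i = √(n : ℝ) ∧
        ∑ i ∈ A, c i ^ 2 ≤ ((harmonic n : ℚ) : ℝ) ∧
        |∑ i ∈ A, a i * g i| ≤ C * ∑ i ∈ A, a i * c i := by
  intro n
  induction n with
  | zero =>
    intro A hA a _ _
    have : A = ∅ := Finset.card_eq_zero.mp hA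
    subst this
    exact ⟨fun _ => 0, by simp, by simp, by simp⟩
  | succ n ih =>
    intro A hA a ha hg
    have hne : A.Nonempty := by
      rw [← Finset.card_pos, hA]
      exact Nat.succ_pos n
    obtain ⟨i₀, hi₀, hmin⟩ := Finset.exists_min_image A a hne
    have hc' : (A.erase i₀).card = n := by
      rw [Finset.card_erase_of_mem hi₀, hA]
      rfl
    obtain ⟨c', h1, h2, h3⟩ := ih (A.erase i₀) hc' (fun i => a i - a i₀)
      (fun i hi => sub_nonneg.mpr (hmin i (Finset.mem_of_mem_erase hi)))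
      (fun I hI => hg I (hI.trans (Finset.erase_subset i₀ A)))
    have hα := ha i₀ hi₀
    let c : κ → ℝ := fun i => if i = i₀ then √((n : ℝ) + 1) - √(n : ℝ) else c' i
    have hc0 : c i₀ = √((n : ℝ) + 1) - √(n : ℝ) := if_pos rfl
    have hc1 : ∀ i ∈ A.erase i₀, c i = c' i := fun i hi => if_neg (Finset.ne_of_mem_erase hi)
    have hcast : ((n + 1 : ℕ) : ℝ) = (n : ℝ) + 1 := by push_cast; ring
    refine ⟨c, ?_, ?_, ?_⟩
    · rw [← Finset.add_sum_erase A c hi₀, hc0, Finset.sum_congr rfl hc1, h1, hcast]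
      ring
    · rw [← Finset.add_sum_erase A (fun i => c i ^ 2) hi₀, hc0,
        Finset.sum_congr rfl fun i hi => by rw [hc1 i hi]]
      rw [harmonic_succ]
      have := sq_diff n
      push_cast
      linarith
    · have e1 : ∑ i ∈ A, a i * g i =
          a i₀ * (∑ i ∈ A, g i) + ∑ i ∈ A.erase i₀, (a i - a i₀) * g i := by
        rw [← Finset.add_sum_erase A (fun i => a i * g i) hi₀, ← Finset.add_sum_erase A g hi₀,
          mul_add, Finset.mul_sum, add_assoc, ← Finset.sum_add_distrib]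
        congr 1
        refine Finset.sum_congr rfl fun i _ => ?_
        ring
      have e2 : ∑ i ∈ A, a i * c i =
          a i₀ * (√((n : ℝ) + 1) - √(n : ℝ)) + ∑ i ∈ A.erase i₀, a i * c' i := by
        rw [← Finset.add_sum_erase A (fun i => a i * c i) hi₀, hc0,
          Finset.sum_congr rfl fun i hi => by rw [hc1 i hi]]
      have e3 : ∑ i ∈ A.erase i₀, (a i - a i₀) * c' i =
          (∑ i ∈ A.erase i₀, a i * c' i) - a i₀ * √(n : ℝ) := by
        rw [← h1, Finset.mul_sum, ← Finset.sum_sub_distrib]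
        refine Finset.sum_congr rfl fun i _ => ?_
        ring
      have h4 : |a i₀ * ∑ i ∈ A, g i| ≤ a i₀ * (C * √((n : ℝ) + 1)) := by
        rw [abs_mul, abs_of_nonneg hα]
        have := hg A (Finset.Subset.refl A)
        rw [hA, hcast] at this
        exact mul_le_mul_of_nonneg_left this hα
      rw [e1, e2]
      rw [e3] at h3
      calc |a i₀ * (∑ i ∈ A, g i) + ∑ i ∈ A.erase i₀, (a i - a i₀) * g i|
          ≤ |a i₀ * (∑ i ∈ A, g i)| + |∑ i ∈ A.erase i₀, (a i - a i₀) * g i| := abs_add_le _ _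
        _ ≤ a i₀ * (C * √((n : ℝ) + 1)) +
            C * ((∑ i ∈ A.erase i₀, a i * c' i) - a i₀ * √(n : ℝ)) := add_le_add h4 h3
        _ = _ := by ring

end LOX

theorem t_LO : Stmt_LO := by
  intro κ _ A ℓ C g a hℓ hC hA ha hg
  obtain ⟨c, -, h2, h3⟩ := LOX.key g C hC A.card A rfl a ha hg
  have hℓ' : (1 : ℝ) ≤ ℓ := by exact_mod_cast hℓ
  have hlog : 0 ≤ Real.log ℓ := Real.log_nonneg hℓ'
  have h4 : ∑ i ∈ A, c i ^ 2 ≤ 1 + Real.log ℓ := by
    refine h2.trans ?_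
    rcases Nat.eq_zero_or_pos A.card with h0 | h0
    · rw [h0]
      simp only [harmonic_zero, Rat.cast_zero]
      linarith
    · refine (harmonic_le_one_add_log A.card).trans ?_
      have h5 : (0 : ℝ) < A.card := by exact_mod_cast h0
      have h6 : (A.card : ℝ) ≤ ℓ := by exact_mod_cast hA
      linarith [Real.log_le_log h5 h6]
  have h5 : ∑ i ∈ A, a i * c i ≤ √(∑ i ∈ A, a i ^ 2) * √(1 + Real.log ℓ) :=
    (Real.sum_mul_le_sqrt_mul_sqrt A a c).trans
      (mul_le_mul_of_nonneg_left (Real.sqrt_le_sqrt h4) (Real.sqrt_nonneg _))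
  calc |∑ i ∈ A, a i * g i| ≤ C * ∑ i ∈ A, a i * c i := h3
    _ ≤ C * (√(∑ i ∈ A, a i ^ 2) * √(1 + Real.log ℓ)) := mul_le_mul_of_nonneg_left h5 hC
    _ = C * √(1 + Real.log ℓ) * √(∑ i ∈ A, a i ^ 2) := by ring

end Pool.SAT
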