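import Pool.Agent.SAT.Stmts

/-!
MP_c21969_lc, project SAT: the matrices `YD (1 - q) u A C` form a wide lift.
-/

set_option autoImplicit false

namespace Pool.SAT

open Matrix Finset Pool.SAR
open scoped ComplexOrder

namespace LWX

section

variable {ι : Type} [DecidableEq ι]

theorem za_insert (t : ℝ) (A : Finset ι) (k : ι) :
    za t (insert k A) = Function.update (za t A) k (-t) := by
  funext j
  unfold za
  rcases eq_or_ne j k with rfl | h
  · simp
  · rw [Function.update_of_ne h]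
    simp [Finset.mem_insert, h]

theorem za_zero (t : ℝ) (A : Finset ι) (k : ι) (hk : k ∉ A) :
    Function.update (za t A) k 0 = za t A := by
  funext j
  unfold za
  rcases eq_or_ne j k with rfl | h
  · simp [hk]
  · rw [Function.update_of_ne h]

theorem za_empty (t : ℝ) : za t (∅ : Finset ι) = 0 := by
  funext j
  simp [za]

/-- The points used for `(A, C)`. -/
theorem rg (t : ℝ) (A C : Finset ι) (hAC : Disjoint A C) (w : ι → ℝ)
    (h1 : ∀ k ∉ C, w k = za t A k) (h2 : ∀ k ∈ C, 0 ≤ w k) : Rg t A w := by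
  refine ⟨fun k hk => ?_, fun k hk => ?_⟩
  · rw [h1 k (Finset.disjoint_left.1 hAC hk)]
    simp [za, hk]
  · by_cases hC : k ∈ C
    · exact h2 k hC
    · rw [h1 k hC]
      simp [za, hk]

theorem rg_insert (t : ℝ) (A : Finset ι) (w : ι → ℝ) (h : Rg t A w) (k : ι) (hk : k ∉ A) :
    Rg t (insert k A) (Function.update w k (-t)) := by
  refine ⟨fun j hj => ?_, fun j hj => ?_⟩
  · rcases eq_or_ne j k with rfl | hjk
    · simp
    · rw [Function.update_of_ne hjk]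
      exact h.1 j ((Finset.mem_insert.1 hj).resolve_left hjk)
  · rw [Finset.mem_insert, not_or] at hj
    rw [Function.update_of_ne hj.1]
    exact h.2 j hj.2

end

section

set_option linter.unusedSectionVars false

variable {ι : Type} [Fintype ι] [DecidableEq ι] {p : ℕ}

theorem YD_apply (t : ℝ) (u : ι → Fin p → ℝ) (A C : Finset ι) (i j : ι) :
    YD t u A C i j = (Fintype.card ι : ℝ)⁻¹ * t ^ C.card *
      sl C (fun z => u i ⬝ᵥ (AM u z *ᵥ u j)) (za t A) := rfl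

/-- The quadratic form. -/
noncomputable def Q (u : ι → Fin p → ℝ) (y : Fin p → ℝ) (z : ι → ℝ) : ℝ := y ⬝ᵥ (AM u z *ᵥ y)

theorem Q_eq (u : ι → Fin p → ℝ) (x : ι → ℝ) (z : ι → ℝ) :
    Q u (∑ i, x i • u i) z = ∑ i, ∑ j, x i * x j * (u i ⬝ᵥ (AM u z *ᵥ u j)) := by
  unfold Q
  rw [Matrix.mulVec_sum, sum_dotProduct]
  refine Finset.sum_congr rfl fun i _ => ?_
  rw [dotProduct_sum]
  refine Finset.sum_congr rfl fun j _ => ?_
  rw [Matrix.mulVec_smul, smul_dotProduct, dotProduct_smul, smul_eq_mul, smul_eq_mul]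
  ring

theorem qf (t : ℝ) (u : ι → Fin p → ℝ) (A C : Finset ι) (x : ι → ℝ) :
    star x ⬝ᵥ (YD t u A C *ᵥ x) = (Fintype.card ι : ℝ)⁻¹ * t ^ C.card *
      sl C (Q u (∑ i, x i • u i)) (za t A) := by
  rw [star_trivial]
  unfold sl
  simp only [Q_eq]
  unfold dotProduct mulVec dotProduct
  simp only [YD_apply]
  unfold sl
  simp only [Finset.mul_sum, Finset.sum_mul]
  rw [Finset.sum_comm (s := C.powerset)]
  refine Finset.sum_congr rfl fun i _ => ?_
  rw [Finset.sum_comm (s := C.powerset)]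
  refine Finset.sum_congr rfl fun j _ => ?_
  refine Finset.sum_congr rfl fun B _ => ?_
  unfold dotProduct mulVec dotProduct
  simp only [Finset.mul_sum, Finset.sum_mul]
  refine Finset.sum_congr rfl fun a _ => ?_
  refine Finset.sum_congr rfl fun b _ => ?_
  ring

theorem symm (hSLI : Stmt_SLI) (hAF : Stmt_AF) {ℓ : ℕ} {q Λ : ℝ} {u : ι → Fin p → ℝ}
    (hS : Sy ℓ q Λ u) (A C : Finset ι) (hAC : Disjoint A C) (hA : A.card ≤ ℓ) (i j : ι) :
    YD (1 - q) u A C i j = YD (1 - q) u A C j i := by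
  rw [YD_apply, YD_apply]
  congr 1
  refine (hSLI ι _ _ _).2.2.1 C fun w h1 h2 => ?_
  have h3 : Rg (1 - q) A w := rg (1 - q) A C hAC w h1 fun k hk => by
    rcases h2 k hk with h | h <;> rw [h] <;> norm_num
  have h4 : (AM u w).IsSymm := (hAF ι p ℓ q Λ u hS A w hA h3).2.2.2.2.1
  rw [Matrix.dotProduct_mulVec, ← Matrix.mulVec_transpose, h4.eq, dotProduct_comm]

theorem herm (hSLI : Stmt_SLI) (hAF : Stmt_AF) {ℓ : ℕ} {q Λ : ℝ} {u : ι → Fin p → ℝ}
    (hS : Sy ℓ q Λ u) (A C : Finset ι) (hAC : Disjoint A C) (hA : A.card ≤ ℓ) :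
    (YD (1 - q) u A C).IsHermitian := by
  ext i j
  rw [Matrix.conjTranspose_apply, star_trivial]
  exact symm hSLI hAF hS A C hAC hA j i

/-- `Q` is affine in the coordinates off `A`. -/
theorem Q_affine (hAF : Stmt_AF) {ℓ : ℕ} {q Λ : ℝ} {u : ι → Fin p → ℝ}
    (hS : Sy ℓ q Λ u) (A : Finset ι) (w : ι → ℝ) (hA : A.card ≤ ℓ) (hw : Rg (1 - q) A w)
    (y : Fin p → ℝ) (k : ι) (hk : k ∉ A) (s : ℝ) (hs : 0 ≤ s) :
    Q u y (Function.update w k s) =
      (1 - s) * Q u y (Function.update w k 0) + s * Q u y (Function.update w k 1) := by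
  unfold Q
  rw [(hAF ι p ℓ q Λ u hS A w hA hw).1 k hk s hs, Matrix.add_mulVec, Matrix.smul_mulVec,
    Matrix.smul_mulVec, dotProduct_add, dotProduct_smul, dotProduct_smul, smul_eq_mul,
    smul_eq_mul]

theorem psd (hSLI : Stmt_SLI) (hSL : Stmt_SL) (hAF : Stmt_AF) {ℓ : ℕ} {q Λ : ℝ}
    {u : ι → Fin p → ℝ} (hS : Sy ℓ q Λ u) (A C : Finset ι) (hAC : Disjoint A C)
    (hA : A.card ≤ ℓ) : (YD (1 - q) u A C).PosSemidef := by
  have hq := hS.q1
  refine .of_dotProduct_mulVec_nonneg (herm hSLI hAF hS A C hAC hA) fun x => ?_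
  rw [qf]
  refine mul_nonneg ?_ ?_
  · have : (0 : ℝ) ≤ 1 - q := by linarith
    positivity
  · refine hSL ι C _ _ ?_ ?_
    · intro w h1 h2
      exact (hAF ι p ℓ q Λ u hS A w hA (rg _ A C hAC w h1 h2)).2.2.2.1 _
    · intro w h1 h2 k hk s hs
      exact Q_affine hAF hS A w hA (rg _ A C hAC w h1 h2) _ k
        (Finset.disjoint_right.1 hAC hk) s hs

theorem zo {w : ι → ℝ} {C : Finset ι} (h : ∀ k ∈ C, w k = 0 ∨ w k = 1) : ∀ k ∈ C, 0 ≤ w k := by
  intro k hk
  rcases h k hk with h | h <;> rw [h] <;> norm_num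

theorem split (hSLI : Stmt_SLI) (hAF : Stmt_AF) {ℓ : ℕ} {q Λ : ℝ}
    {u : ι → Fin p → ℝ} (hS : Sy ℓ q Λ u) (A C : Finset ι) (hAC : Disjoint A C)
    (hA : A.card + 1 ≤ ℓ) (k : ι) (hk : k ∉ A ∪ C) :
    YD (1 - q) u A C = YD (1 - q) u (insert k A) C + YD (1 - q) u A (insert k C) := by
  rw [Finset.mem_union, not_or] at hk
  ext i j
  rw [Matrix.add_apply, YD_apply, YD_apply, YD_apply, Finset.card_insert_of_notMem hk.2]
  let f : (ι → ℝ) → ℝ := fun z => u i ⬝ᵥ (AM u z *ᵥ u j)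
  show (Fintype.card ι : ℝ)⁻¹ * (1 - q) ^ C.card * sl C f (za (1 - q) A) =
    (Fintype.card ι : ℝ)⁻¹ * (1 - q) ^ C.card * sl C f (za (1 - q) (insert k A)) +
    (Fintype.card ι : ℝ)⁻¹ * (1 - q) ^ (C.card + 1) * sl (insert k C) f (za (1 - q) A)
  have e0 : sl C f (Function.update (za (1 - q) A) k 0) = sl C f (za (1 - q) A) := by
    rw [za_zero _ _ _ hk.1]
  have e1 : sl (insert k C) f (za (1 - q) A) =
      sl C f (Function.update (za (1 - q) A) k 1) - sl C f (za (1 - q) A) := by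
    rw [(hSLI ι f f (za (1 - q) A)).2.1 C k hk.2, e0]
  have e2 : sl C f (za (1 - q) (insert k A)) =
      (1 + (1 - q)) * sl C f (za (1 - q) A) +
        (-(1 - q)) * sl C f (Function.update (za (1 - q) A) k 1) := by
    rw [za_insert]
    have a1 := (hSLI ι f f (za (1 - q) A)).2.2.2.2.2 C k (-(1 - q)) hk.2
    have a2 := (hSLI ι f f (za (1 - q) A)).2.2.2.2.2 C k 0 hk.2
    have a3 := (hSLI ι f f (za (1 - q) A)).2.2.2.2.2 C k 1 hk.2
    have a4 := (hSLI ι (fun w => f (Function.update w k 0)) (fun w => f (Function.update w k 1))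
      (za (1 - q) A)).2.2.2.1 C (1 + (1 - q)) (-(1 - q))
    rw [e0] at a2
    rw [a2, a3] at a4
    rw [← a1, ← a4]
    refine (hSLI ι _ _ _).2.2.1 C fun w h1 h2 => ?_
    have h3 : Rg (1 - q) A w := rg (1 - q) A C hAC w h1 (zo h2)
    have h4 := (hAF ι p ℓ q Λ u hS A w (by omega) h3).2.1 hA k hk.1
    show u i ⬝ᵥ (AM u (Function.update w k (-(1 - q))) *ᵥ u j) =
      (1 + (1 - q)) * (u i ⬝ᵥ (AM u (Function.update w k 0) *ᵥ u j)) +
        (-(1 - q)) * (u i ⬝ᵥ (AM u (Function.update w k 1) *ᵥ u j))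
    rw [h4, Matrix.sub_mulVec, Matrix.smul_mulVec, Matrix.smul_mulVec, dotProduct_sub,
      dotProduct_smul, dotProduct_smul, smul_eq_mul, smul_eq_mul]
    ring
  rw [e1, e2]
  ring

theorem zero (hSLI : Stmt_SLI) (hAF : Stmt_AF) {ℓ : ℕ} {q Λ : ℝ}
    {u : ι → Fin p → ℝ} (hS : Sy ℓ q Λ u) (A C : Finset ι) (hAC : Disjoint A C)
    (hA : A.card ≤ ℓ) (i : ι) (hi : i ∈ C) (j : ι) : YD (1 - q) u A C i j = 0 := by
  rw [YD_apply]
  let f : (ι → ℝ) → ℝ := fun z => u i ⬝ᵥ (AM u z *ᵥ u j)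
  show (Fintype.card ι : ℝ)⁻¹ * (1 - q) ^ C.card * sl C f (za (1 - q) A) = 0
  have hiE : i ∉ C.erase i := Finset.notMem_erase i C
  have hiA : i ∉ A := Finset.disjoint_right.1 hAC hi
  have hAE : Disjoint A (C.erase i) := hAC.mono_right (Finset.erase_subset i C)
  have e1 : sl C f (za (1 - q) A) = 0 := by
    rw [← Finset.insert_erase hi, (hSLI ι f f (za (1 - q) A)).2.1 (C.erase i) i hiE, sub_eq_zero,
      ← (hSLI ι f f (za (1 - q) A)).2.2.2.2.2 (C.erase i) i 0 hiE,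
      ← (hSLI ι f f (za (1 - q) A)).2.2.2.2.2 (C.erase i) i 1 hiE]
    refine (hSLI ι _ _ _).2.2.1 (C.erase i) fun w h1 h2 => ?_
    have h3 : Rg (1 - q) A w := rg (1 - q) A _ hAE w h1 (zo h2)
    exact (hAF ι p ℓ q Λ u hS A w hA h3).2.2.1 i hiA (u j)
  rw [e1, mul_zero]

theorem entry (hSLI : Stmt_SLI) (t : ℝ) (u : ι → Fin p → ℝ) (i j : ι) :
    YD t u ∅ ∅ i j = (Fintype.card ι : ℝ)⁻¹ * (u i ⬝ᵥ u j) := by
  rw [YD_apply, (hSLI ι _ (fun _ => 0) _).1, za_empty, Finset.card_empty, pow_zero, mul_one]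
  congr 1
  have h1 : AM u (0 : ι → ℝ) = 1 := by
    unfold AM MM
    simp
  show u i ⬝ᵥ (AM u 0 *ᵥ u j) = u i ⬝ᵥ u j
  rw [h1, Matrix.one_mulVec]

theorem sparse (hSLI : Stmt_SLI) (hSL : Stmt_SL) (hAF : Stmt_AF) (hSP : Stmt_SP) {ℓ : ℕ}
    {q Λ : ℝ} {u : ι → Fin p → ℝ} (hS : Sy ℓ q Λ u) (m : ℕ) (hΛ : 1 ≤ Λ)
    (hm : (ℓ : ℝ) * Λ + (Fintype.card ι : ℝ) * q + 2 * Λ / q ≤ m) (A C : Finset ι)
    (hAC : Disjoint A C) (hc : (A ∪ C).card + 1 ≤ ℓ) :
    (((m : ℝ) - (A.card : ℝ)) • YD (1 - q) u A C -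
      ∑ k ∈ (A ∪ C)ᶜ, YD (1 - q) u (insert k A) C).PosSemidef := by
  have hq := hS.q1
  have hcard : A.card + C.card + 1 ≤ ℓ := by
    rwa [Finset.card_union_of_disjoint hAC] at hc
  have hk1 : ∀ k ∈ (A ∪ C)ᶜ, k ∉ A ∧ k ∉ C := by
    intro k hk
    rw [Finset.mem_compl, Finset.mem_union, not_or] at hk
    exact hk
  have hk2 : ∀ k ∈ (A ∪ C)ᶜ, Disjoint (insert k A) C := by
    intro k hk
    rw [Finset.disjoint_insert_left]
    exact ⟨(hk1 k hk).2, hAC⟩
  have hk3 : ∀ k ∈ (A ∪ C)ᶜ, (insert k A).card ≤ ℓ := by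
    intro k hk
    rw [Finset.card_insert_of_notMem (hk1 k hk).1]
    omega
  have hH : (((m : ℝ) - (A.card : ℝ)) • YD (1 - q) u A C -
      ∑ k ∈ (A ∪ C)ᶜ, YD (1 - q) u (insert k A) C).IsHermitian := by
    ext i j
    rw [Matrix.conjTranspose_apply, star_trivial, Matrix.sub_apply, Matrix.sub_apply,
      Matrix.smul_apply, Matrix.smul_apply, Matrix.sum_apply, Matrix.sum_apply,
      symm hSLI hAF hS A C hAC (by omega) j i]
    congr 1
    exact Finset.sum_congr rfl fun k hk =>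
      symm hSLI hAF hS (insert k A) C (hk2 k hk) (hk3 k hk) j i
  refine .of_dotProduct_mulVec_nonneg hH fun x => ?_
  have h2 : star x ⬝ᵥ ((((m : ℝ) - (A.card : ℝ)) • YD (1 - q) u A C -
      ∑ k ∈ (A ∪ C)ᶜ, YD (1 - q) u (insert k A) C) *ᵥ x) =
      ((m : ℝ) - (A.card : ℝ)) * (star x ⬝ᵥ (YD (1 - q) u A C *ᵥ x)) -
      ∑ k ∈ (A ∪ C)ᶜ, star x ⬝ᵥ (YD (1 - q) u (insert k A) C *ᵥ x) := by
    rw [Matrix.sub_mulVec, Matrix.smul_mulVec, dotProduct_sub, dotProduct_smul, smul_eq_mul]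
    congr 1
    rw [Matrix.sum_mulVec, dotProduct_sum]
  rw [h2]
  simp only [qf]
  set y := ∑ i, x i • u i with hy
  have h5 : ∀ k ∈ (A ∪ C)ᶜ, sl C (Q u y) (za (1 - q) (insert k A)) =
      sl C (fun w => Q u y (Function.update w k (-(1 - q)))) (za (1 - q) A) := by
    intro k hk
    rw [za_insert, (hSLI ι (Q u y) (Q u y) (za (1 - q) A)).2.2.2.2.2 C k (-(1 - q)) (hk1 k hk).2]
  have h6 : ((m : ℝ) - (A.card : ℝ)) * sl C (Q u y) (za (1 - q) A) -
      ∑ k ∈ (A ∪ C)ᶜ, sl C (Q u y) (za (1 - q) (insert k A)) =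
      sl C (fun w => ((m : ℝ) - (A.card : ℝ)) * Q u y w +
        (-1) * ∑ k ∈ (A ∪ C)ᶜ, Q u y (Function.update w k (-(1 - q)))) (za (1 - q) A) := by
    rw [(hSLI ι (Q u y) (fun w => ∑ k ∈ (A ∪ C)ᶜ, Q u y (Function.update w k (-(1 - q))))
      (za (1 - q) A)).2.2.2.1 C ((m : ℝ) - (A.card : ℝ)) (-1),
      (hSLI ι (Q u y) (Q u y) (za (1 - q) A)).2.2.2.2.1 C ι ((A ∪ C)ᶜ)
        (fun k w => Q u y (Function.update w k (-(1 - q)))), Finset.sum_congr rfl h5]
    ring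
  have h7 : 0 ≤ sl C (fun w => ((m : ℝ) - (A.card : ℝ)) * Q u y w +
        (-1) * ∑ k ∈ (A ∪ C)ᶜ, Q u y (Function.update w k (-(1 - q)))) (za (1 - q) A) := by
    refine hSL ι C _ _ ?_ ?_
    · intro w h1 h3
      have hw := rg (1 - q) A C hAC w h1 h3
      have h8 := hSP ι p ℓ q Λ u hS m A C w (by omega) hAC hw.1 h3 (by
        intro k hk
        rw [Finset.mem_union, not_or] at hk
        rw [h1 k hk.2]
        simp [za, hk.1]) (by
        have h9 : (A.card : ℝ) + C.card ≤ ℓ := by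
          have : A.card + C.card ≤ ℓ := by omega
          exact_mod_cast this
        have h10 : (0 : ℝ) ≤ A.card := by positivity
        nlinarith) y
      have h11 : ∑ k ∈ (A ∪ C)ᶜ, Q u y (Function.update w k (-(1 - q))) ≤
        ((m : ℝ) - (A.card : ℝ)) * Q u y w := h8
      linarith
    · intro w h1 h3 k' hk' s hs
      have hw := rg (1 - q) A C hAC w h1 h3
      have hk'A : k' ∉ A := Finset.disjoint_right.1 hAC hk'
      have h8 := Q_affine hAF hS A w (by omega) hw y k' hk'A s hs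
      have h9 : ∀ k ∈ (A ∪ C)ᶜ, Q u y (Function.update (Function.update w k' s) k (-(1 - q))) =
          (1 - s) * Q u y (Function.update (Function.update w k' 0) k (-(1 - q))) +
            s * Q u y (Function.update (Function.update w k' 1) k (-(1 - q))) := by
        intro k hk
        have hne : k' ≠ k := fun h => (hk1 k hk).2 (h ▸ hk')
        rw [Function.update_comm hne, Function.update_comm hne, Function.update_comm hne]
        refine Q_affine hAF hS (insert k A) (Function.update w k (-(1 - q))) (hk3 k hk)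
          (rg_insert (1 - q) A w hw k (hk1 k hk).1) y k' ?_ s hs
        rw [Finset.mem_insert, not_or]
        exact ⟨hne, hk'A⟩
      show ((m : ℝ) - (A.card : ℝ)) * Q u y (Function.update w k' s) +
        (-1) * ∑ k ∈ (A ∪ C)ᶜ, Q u y (Function.update (Function.update w k' s) k (-(1 - q))) =
        (1 - s) * (((m : ℝ) - (A.card : ℝ)) * Q u y (Function.update w k' 0) +
        (-1) * ∑ k ∈ (A ∪ C)ᶜ, Q u y (Function.update (Function.update w k' 0) k (-(1 - q)))) +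
        s * (((m : ℝ) - (A.card : ℝ)) * Q u y (Function.update w k' 1) +
        (-1) * ∑ k ∈ (A ∪ C)ᶜ, Q u y (Function.update (Function.update w k' 1) k (-(1 - q))))
      rw [h8, Finset.sum_congr rfl h9, Finset.sum_add_distrib, ← Finset.mul_sum,
        ← Finset.mul_sum]
      ring
  rw [← Finset.mul_sum]
  have h12 : 0 ≤ (Fintype.card ι : ℝ)⁻¹ * (1 - q) ^ C.card := by
    have : (0 : ℝ) ≤ 1 - q := by linarith
    positivity
  rw [← h6] at h7
  have h13 := mul_nonneg h12 h7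
  linarith

end

end LWX

theorem t_LW : Stmt_SLI → Stmt_SL → Stmt_PD → Stmt_AF → Stmt_SP → Stmt_LW := by
  intro hSLI hSL _ hAF hSP ι _ _ _ p ℓ q Λ u hS m hΛ hm
  have hN : (0 : ℝ) < (Fintype.card ι : ℝ) := by
    exact_mod_cast Fintype.card_pos
  refine ⟨?_, LWX.entry hSLI (1 - q) u⟩
  refine
    { psd := LWX.psd hSLI hSL hAF hS
      split := fun A C hAC hA k hk => LWX.split hSLI hAF hS A C hAC hA k hk
      zero := LWX.zero hSLI hAF hS
      trace := ?_
      sparse := LWX.sparse hSLI hSL hAF hSP hS m hΛ hm }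
  unfold Matrix.trace
  have h1 : ∀ i, (YD (1 - q) u ∅ ∅).diag i = (Fintype.card ι : ℝ)⁻¹ := by
    intro i
    rw [Matrix.diag_apply, LWX.entry hSLI, hS.unit i, mul_one]
  rw [Finset.sum_congr rfl fun i _ => h1 i, Finset.sum_const, Finset.card_univ, nsmul_eq_mul,
    mul_inv_cancel₀ hN.ne']

end Pool.SAT
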