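import Pool.Agent.SAT.Stmts

/-!
MP_c21969_lc, project SAT: a maximising pair of sets of columns.
-/

set_option autoImplicit false

namespace Pool.SAT

open Matrix Finset Pool.SAR

namespace MXX

lemma sqrt_diff {b : ℝ} (hb : 1 ≤ b) : 1 ≤ 2 * √b * (√b - √(b - 1)) := by
  have h1 : √b ^ 2 = b := Real.sq_sqrt (by linarith)
  have h2 : √(b - 1) ^ 2 = b - 1 := Real.sq_sqrt (by linarith)
  have h3 : √(b - 1) ≤ √b := Real.sqrt_le_sqrt (by linarith)
  have h4 : 0 ≤ √(b - 1) := Real.sqrt_nonneg _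
  nlinarith [mul_nonneg (sub_nonneg.2 h3) (sub_nonneg.2 h3)]

end MXX

theorem t_MX : Stmt_MX := by
  intro κ _ _ F _ _ ℓ θ w hθ hw hex
  classical
  let W : Finset κ → F := fun I => ∑ i ∈ I, w i
  let r : Finset κ × Finset κ → ℝ := fun P =>
    |inner ℝ (W P.1) (W P.2)| / √((P.1.card : ℝ) * (P.2.card : ℝ))
  let S : Finset (Finset κ × Finset κ) :=
    univ.filter fun P => Disjoint P.1 P.2 ∧ P.1.card ≤ ℓ ∧ P.2.card ≤ ℓ ∧ P.1.Nonempty ∧
      P.2.Nonempty
  obtain ⟨I0, J0, hd0, hI0, hJ0, h0⟩ := hex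
  have hI0' : I0.Nonempty := by
    rw [Finset.nonempty_iff_ne_empty]
    rintro rfl
    simp at h0
  have hJ0' : J0.Nonempty := by
    rw [Finset.nonempty_iff_ne_empty]
    rintro rfl
    simp at h0
  have hpos : ∀ P : Finset κ × Finset κ, P.1.Nonempty → P.2.Nonempty →
      0 < √((P.1.card : ℝ) * (P.2.card : ℝ)) := by
    intro P h1 h2
    have h3 : (0 : ℝ) < P.1.card := by exact_mod_cast h1.card_pos
    have h4 : (0 : ℝ) < P.2.card := by exact_mod_cast h2.card_pos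
    exact Real.sqrt_pos.2 (mul_pos h3 h4)
  have hS0 : (I0, J0) ∈ S := by
    simp only [S, mem_filter, mem_univ, true_and]
    exact ⟨hd0, hI0, hJ0, hI0', hJ0'⟩
  obtain ⟨P, hPS, hPmax⟩ := Finset.exists_max_image S r ⟨_, hS0⟩
  have hPS' := hPS
  simp only [S, mem_filter, mem_univ, true_and] at hPS'
  obtain ⟨hPd, hP1, hP2, hP3, hP4⟩ := hPS'
  set μ : ℝ := r P with hμ
  have hμθ : θ < μ := by
    have h1 : θ < r (I0, J0) := by
      have := hpos (I0, J0) hI0' hJ0'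
      exact (lt_div_iff₀ this).2 h0
    exact h1.trans_le (hPmax _ hS0)
  have hμ0 : 0 < μ := hθ.trans hμθ
  -- the maximum property for all pairs
  have hmax : ∀ I J : Finset κ, Disjoint I J → I.card ≤ ℓ → J.card ≤ ℓ →
      |inner ℝ (W I) (W J)| ≤ μ * √((I.card : ℝ) * (J.card : ℝ)) := by
    intro I J hd hI hJ
    by_cases hI' : I.Nonempty
    · by_cases hJ' : J.Nonempty
      · have h1 : (I, J) ∈ S := by
          simp only [S, mem_filter, mem_univ, true_and]
          exact ⟨hd, hI, hJ, hI', hJ'⟩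
        have h2 : r (I, J) ≤ μ := hPmax _ h1
        exact (div_le_iff₀ (hpos (I, J) hI' hJ')).1 h2
      · rw [Finset.not_nonempty_iff_eq_empty] at hJ'
        subst hJ'
        simp [W]
    · rw [Finset.not_nonempty_iff_eq_empty] at hI'
      subst hI'
      simp [W]
  have heq : |inner ℝ (W P.1) (W P.2)| = μ * √((P.1.card : ℝ) * (P.2.card : ℝ)) := by
    have := hpos P hP3 hP4
    exact ((div_eq_iff this.ne').1 hμ.symm)
  -- the main step
  have key : ∀ I J : Finset κ, Disjoint I J → I.Nonempty → J.Nonempty → I.card ≤ ℓ →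
      J.card ≤ ℓ → |inner ℝ (W I) (W J)| = μ * √((I.card : ℝ) * (J.card : ℝ)) →
      W I ≠ 0 ∧ ∀ j ∈ J,
        θ ^ 2 * ‖W I‖ ^ 2 ≤ 16 * (J.card : ℝ) * (inner ℝ (W I) (w j)) ^ 2 := by
    intro I J hd hIn hJn hI hJ he
    have hIc : (0 : ℝ) < I.card := by exact_mod_cast hIn.card_pos
    have hJc : (1 : ℝ) ≤ J.card := by exact_mod_cast hJn.card_pos
    refine ⟨?_, ?_⟩
    · intro h
      rw [h, inner_zero_left, abs_zero] at he
      have : 0 < μ * √((I.card : ℝ) * (J.card : ℝ)) :=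
        mul_pos hμ0 (Real.sqrt_pos.2 (mul_pos hIc (by linarith)))
      linarith
    · intro j hj
      have h1 : W J = W (J.erase j) + w j := by
        simp only [W]
        rw [Finset.sum_erase_add _ _ hj]
      have h2 : inner ℝ (W I) (w j) = inner ℝ (W I) (W J) - inner ℝ (W I) (W (J.erase j)) := by
        rw [h1, inner_add_right]
        ring
      have hd' : Disjoint I (J.erase j) := hd.mono_right (Finset.erase_subset _ _)
      have hc' : ((J.erase j).card : ℝ) = (J.card : ℝ) - 1 := by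
        rw [Finset.card_erase_of_mem hj, Nat.cast_sub hJn.card_pos]
        simp
      have h3 := hmax I (J.erase j) hd' hI ((Finset.card_le_card (Finset.erase_subset _ _)).trans hJ)
      rw [hc'] at h3
      have h4 : μ * √((I.card : ℝ) * (J.card : ℝ)) - μ * √((I.card : ℝ) * ((J.card : ℝ) - 1)) ≤
          |inner ℝ (W I) (w j)| := by
        rw [h2]
        have := abs_sub_abs_le_abs_sub (inner ℝ (W I) (W J)) (inner ℝ (W I) (W (J.erase j)))
        linarith
      rw [Real.sqrt_mul hIc.le, Real.sqrt_mul hIc.le] at h4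
      have h5 := MXX.sqrt_diff hJc
      have h6 : μ * √(I.card : ℝ) ≤ 2 * √(J.card : ℝ) * |inner ℝ (W I) (w j)| := by
        have h7 : 0 ≤ μ * √(I.card : ℝ) := mul_nonneg hμ0.le (Real.sqrt_nonneg _)
        have h8 : 0 ≤ √(J.card : ℝ) := Real.sqrt_nonneg _
        calc μ * √(I.card : ℝ) = μ * √(I.card : ℝ) * 1 := by ring
          _ ≤ μ * √(I.card : ℝ) *
              (2 * √(J.card : ℝ) * (√(J.card : ℝ) - √((J.card : ℝ) - 1))) :=
            mul_le_mul_of_nonneg_left h5 h7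
          _ = 2 * √(J.card : ℝ) * (μ * (√(I.card : ℝ) * √(J.card : ℝ)) -
              μ * (√(I.card : ℝ) * √((J.card : ℝ) - 1))) := by ring
          _ ≤ 2 * √(J.card : ℝ) * |inner ℝ (W I) (w j)| :=
            mul_le_mul_of_nonneg_left h4 (mul_nonneg zero_le_two h8)
      have h9 : (μ * √(I.card : ℝ)) ^ 2 ≤ (2 * √(J.card : ℝ) * |inner ℝ (W I) (w j)|) ^ 2 :=
        pow_le_pow_left₀ (mul_nonneg hμ0.le (Real.sqrt_nonneg _)) h6 2
      rw [mul_pow, mul_pow, mul_pow, Real.sq_sqrt hIc.le, Real.sq_sqrt (by linarith), sq_abs] at h9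
      have h10 : ‖W I‖ ^ 2 ≤ 4 * (I.card : ℝ) := hw I hI
      have h11 : θ ^ 2 ≤ μ ^ 2 := pow_le_pow_left₀ hθ.le hμθ.le 2
      calc θ ^ 2 * ‖W I‖ ^ 2 ≤ μ ^ 2 * (4 * (I.card : ℝ)) :=
            mul_le_mul h11 h10 (sq_nonneg _) (sq_nonneg _)
        _ = 4 * (μ ^ 2 * (I.card : ℝ)) := by ring
        _ ≤ 4 * (2 ^ 2 * (J.card : ℝ) * (inner ℝ (W I) (w j)) ^ 2) := by linarith
        _ = 16 * (J.card : ℝ) * (inner ℝ (W I) (w j)) ^ 2 := by ring
  rcases le_total P.1.card P.2.card with hle | hle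
  · obtain ⟨k1, k2⟩ := key P.1 P.2 hPd hP3 hP4 hP1 hP2 heq
    exact ⟨P.1, P.2, hPd, hP4, hle, hP2, k1, k2⟩
  · have heq' : |inner ℝ (W P.2) (W P.1)| = μ * √((P.2.card : ℝ) * (P.1.card : ℝ)) := by
      rw [real_inner_comm, mul_comm (P.2.card : ℝ)]
      exact heq
    obtain ⟨k1, k2⟩ := key P.2 P.1 hPd.symm hP4 hP3 hP2 hP1 heq'
    exact ⟨P.2, P.1, hPd.symm, hP3, hle, hP1, k1, k2⟩

end Pool.SAT
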