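import Pool.Agent.SAT.Stmts

/-!
MP_c21969_lc, project SAT, module PD: the matrices `MM u z` are positive definite on the region
`Rg (1 - q) A`.
-/

set_option autoImplicit false

namespace Pool.SAT

open Matrix Finset Pool.SAR

namespace PDX

variable {ι : Type} [Fintype ι] {p : ℕ}

theorem mv (u : ι → Fin p → ℝ) (z : ι → ℝ) (y : Fin p → ℝ) :
    MM u z *ᵥ y = y + ∑ k, (z k * (y ⬝ᵥ u k)) • u k := by
  unfold MM
  rw [add_mulVec, one_mulVec, sum_mulVec]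
  congr 1
  refine Finset.sum_congr rfl fun k _ => ?_
  rw [smul_mulVec, vecMulVec_mulVec]
  ext i
  simp only [Pi.smul_apply, smul_eq_mul, MulOpposite.smul_eq_mul_unop, MulOpposite.unop_op]
  rw [dotProduct_comm y (u k)]
  ring

theorem qf (u : ι → Fin p → ℝ) (z : ι → ℝ) (y : Fin p → ℝ) :
    y ⬝ᵥ (MM u z *ᵥ y) = y ⬝ᵥ y + ∑ k, z k * (y ⬝ᵥ u k) ^ 2 := by
  rw [mv, dotProduct_add, dotProduct_sum]
  congr 1
  refine Finset.sum_congr rfl fun k _ => ?_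
  rw [dotProduct_smul, smul_eq_mul]
  ring

theorem herm (u : ι → Fin p → ℝ) (z : ι → ℝ) : (MM u z).IsHermitian := by
  unfold MM Matrix.IsHermitian
  rw [conjTranspose_eq_transpose_of_trivial, transpose_add, transpose_one, transpose_sum]
  congr 1
  refine Finset.sum_congr rfl fun k _ => ?_
  ext i j
  simp only [transpose_apply, Matrix.smul_apply, vecMulVec_apply, smul_eq_mul]
  ring

theorem low [DecidableEq ι] {ℓ : ℕ} {q Λ : ℝ} {u : ι → Fin p → ℝ} (h : Sy ℓ q Λ u)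
    {A : Finset ι} {z : ι → ℝ} (hA : A.card ≤ ℓ) (hz : Rg (1 - q) A z) (y : Fin p → ℝ) :
    q / 2 * (y ⬝ᵥ y) ≤ y ⬝ᵥ (MM u z *ᵥ y) := by
  have h0 : 0 ≤ y ⬝ᵥ y := by
    unfold dotProduct
    exact Finset.sum_nonneg fun i _ => mul_self_nonneg _
  have h1 := h.loc A hA y
  have h2 : -(1 - q) * ∑ a ∈ A, (y ⬝ᵥ u a) ^ 2 ≤ ∑ k, z k * (y ⬝ᵥ u k) ^ 2 := by
    have e1 : -(1 - q) * ∑ a ∈ A, (y ⬝ᵥ u a) ^ 2 =
        ∑ k, if k ∈ A then -(1 - q) * (y ⬝ᵥ u k) ^ 2 else 0 := by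
      rw [Finset.mul_sum, ← Finset.sum_filter]
      exact Finset.sum_congr (by simp) fun _ _ => rfl
    rw [e1]
    refine Finset.sum_le_sum fun k _ => ?_
    by_cases hk : k ∈ A
    · rw [if_pos hk, hz.1 k hk]
    · rw [if_neg hk]
      exact mul_nonneg (hz.2 k hk) (sq_nonneg _)
  have h3 : (1 - q) * ∑ a ∈ A, (y ⬝ᵥ u a) ^ 2 ≤ (1 - q) * ((1 + q / 2) * (y ⬝ᵥ y)) :=
    mul_le_mul_of_nonneg_left h1 (by linarith [h.q1])
  have h4 : 0 ≤ q ^ 2 * (y ⬝ᵥ y) := mul_nonneg (sq_nonneg _) h0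
  rw [qf]
  nlinarith [h2, h3, h4]

end PDX

theorem t_PD : Stmt_PD := by
  intro ι _ _ p ℓ q Λ u h A z hA hz
  refine ⟨?_, fun y => PDX.qf u z y, fun y => PDX.low h hA hz y⟩
  refine Matrix.PosDef.of_dotProduct_mulVec_pos (PDX.herm u z) fun y hy => ?_
  have h1 := PDX.low h hA hz y
  have h2 : 0 < y ⬝ᵥ y := by
    rcases lt_or_eq_of_le (show 0 ≤ y ⬝ᵥ y from by
      unfold dotProduct
      exact Finset.sum_nonneg fun i _ => mul_self_nonneg _) with h3 | h3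
    · exact h3
    · exact absurd (dotProduct_self_eq_zero.mp h3.symm) hy
  rw [star_trivial]
  have h4 := h.q0
  have : 0 < q / 2 * (y ⬝ᵥ y) := by positivity
  linarith

end Pool.SAT
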