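import Pool.Agent.SAT.Stmts

/-!
MP_c21969_lc, project SAT: module RS (leverage).
-/

set_option autoImplicit false

namespace Pool.SAT

open Matrix Finset Pool.SAR

namespace RSX

variable {p : ℕ}

lemma inner_eq (x y : Fin p → ℝ) :
    inner ℝ (WithLp.toLp 2 x : EuclideanSpace ℝ (Fin p)) (WithLp.toLp 2 y) = x ⬝ᵥ y := by
  rw [EuclideanSpace.inner_toLp_toLp, dotProduct_comm]
  simp

lemma inner_eq' (x y : EuclideanSpace ℝ (Fin p)) :
    inner ℝ x y = WithLp.ofLp x ⬝ᵥ WithLp.ofLp y := by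
  rw [← inner_eq]

/-- an orthonormal basis of the span of the vectors `u c`, and the orthogonal decomposition -/
lemma exists_split {ι : Type} (C : Finset ι) (u : ι → Fin p → ℝ) :
    ∃ (r : ℕ) (b : Fin r → Fin p → ℝ), r ≤ C.card ∧ (∀ i, b i ⬝ᵥ b i = 1) ∧
      ∀ y : Fin p → ℝ, ∃ w : Fin p → ℝ, (∀ c ∈ C, w ⬝ᵥ u c = 0) ∧ w ⬝ᵥ y = w ⬝ᵥ w ∧
        y ⬝ᵥ y = w ⬝ᵥ w + ∑ i, (b i ⬝ᵥ y) ^ 2 := by
  classical
  let v : ι → EuclideanSpace ℝ (Fin p) := fun c => WithLp.toLp 2 (u c)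
  let K : Submodule ℝ (EuclideanSpace ℝ (Fin p)) := Submodule.span ℝ ((C.image v : Finset _) : Set _)
  let b := stdOrthonormalBasis ℝ K
  refine ⟨Module.finrank ℝ K, fun i => WithLp.ofLp ((b i : K) : EuclideanSpace ℝ (Fin p)), ?_, ?_, ?_⟩
  · exact (finrank_span_finset_le_card (R := ℝ) (C.image v)).trans Finset.card_image_le
  · intro i
    rw [← inner_eq', ← Submodule.coe_inner, real_inner_self_eq_norm_sq, b.norm_eq_one]
    norm_num
  · intro y
    let Y : EuclideanSpace ℝ (Fin p) := WithLp.toLp 2 y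
    let W : EuclideanSpace ℝ (Fin p) := Y - K.starProjection Y
    have hW : W ∈ Kᗮ := K.sub_starProjection_mem_orthogonal Y
    have hP : K.starProjection Y ∈ K := K.starProjection_apply_mem Y
    have h0 : inner ℝ W (K.starProjection Y) = 0 := Submodule.inner_left_of_mem_orthogonal hP hW
    have hYe : Y = W + K.starProjection Y := (sub_add_cancel _ _).symm
    refine ⟨WithLp.ofLp W, ?_, ?_, ?_⟩
    · intro c hc
      have h1 : v c ∈ K := Submodule.subset_span (by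
        rw [Finset.mem_coe]
        exact Finset.mem_image_of_mem v hc)
      have h2 : inner ℝ W (v c) = 0 := Submodule.inner_left_of_mem_orthogonal h1 hW
      rw [inner_eq'] at h2
      exact h2
    · have h1 : inner ℝ W Y = inner ℝ W W := by
        conv_lhs => rw [hYe]
        rw [inner_add_right, h0, add_zero]
      rw [inner_eq', inner_eq'] at h1
      exact h1
    · have h1 : inner ℝ Y Y = inner ℝ W W +
          inner ℝ (K.starProjection Y) (K.starProjection Y) := by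
        conv_lhs => rw [hYe]
        rw [inner_add_left, inner_add_right, inner_add_right, h0,
          real_inner_comm W (K.starProjection Y), h0]
        ring
      have h2 : inner ℝ (K.starProjection Y) (K.starProjection Y) =
          ∑ i, (inner ℝ ((b i : K) : EuclideanSpace ℝ (Fin p)) Y) ^ 2 := by
        have h3 := b.sum_sq_norm_inner_right (⟨K.starProjection Y, hP⟩ : K)
        rw [real_inner_self_eq_norm_sq]
        have h4 : ‖(⟨K.starProjection Y, hP⟩ : K)‖ = ‖K.starProjection Y‖ := rfl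
        rw [h4] at h3
        rw [← h3]
        refine Finset.sum_congr rfl fun i _ => ?_
        rw [Real.norm_eq_abs, sq_abs, Submodule.coe_inner]
        congr 1
        have h5 : inner ℝ ((b i : K) : EuclideanSpace ℝ (Fin p)) W = 0 :=
          Submodule.inner_right_of_mem_orthogonal (b i).2 hW
        show inner ℝ ((b i : K) : EuclideanSpace ℝ (Fin p)) (K.starProjection Y) = _
        conv_rhs => rw [hYe]
        rw [inner_add_right, h5, zero_add]
      rw [h2] at h1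
      rw [inner_eq', inner_eq'] at h1
      rw [show y ⬝ᵥ y = WithLp.ofLp Y ⬝ᵥ WithLp.ofLp Y from rfl, h1]
      congr 1
      refine Finset.sum_congr rfl fun i _ => ?_
      rw [inner_eq']

/-- the inequality at one vector -/
lemma one_le {M : Matrix (Fin p) (Fin p) ℝ} (hM : M.PosDef) (x w : Fin p → ℝ)
    (h1 : w ⬝ᵥ x = w ⬝ᵥ w) (h2 : w ⬝ᵥ (M *ᵥ w) ≤ w ⬝ᵥ w) :
    w ⬝ᵥ w ≤ x ⬝ᵥ (M⁻¹ *ᵥ x) := by
  have hu : IsUnit M.det := hM.det_pos.ne'.isUnit
  have h3 : 0 ≤ (M⁻¹ *ᵥ x - w) ⬝ᵥ (M *ᵥ (M⁻¹ *ᵥ x - w)) := by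
    have := hM.posSemidef.dotProduct_mulVec_nonneg (M⁻¹ *ᵥ x - w)
    simpa using this
  have h4 : M *ᵥ (M⁻¹ *ᵥ x) = x := by
    rw [mulVec_mulVec, mul_nonsing_inv _ hu, one_mulVec]
  have hs : M.IsSymm := by
    have := hM.isHermitian
    unfold Matrix.IsHermitian at this
    rw [conjTranspose_eq_transpose_of_trivial] at this
    exact this
  have h5 : (M⁻¹ *ᵥ x) ⬝ᵥ (M *ᵥ w) = w ⬝ᵥ x := by
    rw [dotProduct_mulVec, ← mulVec_transpose, hs.eq, h4, dotProduct_comm]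
  have h6 : (M⁻¹ *ᵥ x - w) ⬝ᵥ (M *ᵥ (M⁻¹ *ᵥ x - w)) =
      x ⬝ᵥ (M⁻¹ *ᵥ x) - 2 * (w ⬝ᵥ x) + w ⬝ᵥ (M *ᵥ w) := by
    rw [mulVec_sub, h4, sub_dotProduct, dotProduct_sub, dotProduct_sub, h5,
      dotProduct_comm (M⁻¹ *ᵥ x) x]
    ring
  rw [h6] at h3
  linarith

end RSX

open RSX in
theorem t_RS : Stmt_PD → Stmt_RS := by
  intro hPD ι _ _ p ℓ q Λ u hS A C z hA hAC hzA hzC hz0
  have hRg : Rg (1 - q) A z := by
    refine ⟨hzA, fun k hk => ?_⟩
    by_cases hkC : k ∈ C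
    · exact hzC k hkC
    · rw [hz0 k (by simp [hk, hkC])]
  obtain ⟨hpd, hquad, -⟩ := hPD ι p ℓ q Λ u hS A z hA hRg
  obtain ⟨r, b, hr, hb, hsplit⟩ := exists_split C u
  have hone : ∀ k, 1 - u k ⬝ᵥ ((MM u z)⁻¹ *ᵥ u k) ≤ ∑ i, (b i ⬝ᵥ u k) ^ 2 := by
    intro k
    obtain ⟨w, hw1, hw2, hw3⟩ := hsplit (u k)
    have h1 : w ⬝ᵥ (MM u z *ᵥ w) ≤ w ⬝ᵥ w := by
      rw [hquad w]
      have h2 : ∑ j, z j * (w ⬝ᵥ u j) ^ 2 ≤ 0 := by
        refine Finset.sum_nonpos fun j _ => ?_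
        by_cases hjA : j ∈ A
        · rw [hzA j hjA]
          have h3 := hS.q1
          have h4 : 0 ≤ (1 - q) * (w ⬝ᵥ u j) ^ 2 := mul_nonneg (by linarith) (sq_nonneg _)
          linarith
        · by_cases hjC : j ∈ C
          · rw [hw1 j hjC]
            simp
          · rw [hz0 j (by simp [hjA, hjC])]
            simp
      linarith
    have h2 := one_le hpd (u k) w hw2 h1
    rw [hS.unit k] at hw3
    linarith
  calc ∑ k ∈ (A ∪ C)ᶜ, (1 - u k ⬝ᵥ ((MM u z)⁻¹ *ᵥ u k))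
      ≤ ∑ k ∈ (A ∪ C)ᶜ, ∑ i, (b i ⬝ᵥ u k) ^ 2 := Finset.sum_le_sum fun k _ => hone k
    _ ≤ ∑ k, ∑ i, (b i ⬝ᵥ u k) ^ 2 :=
        Finset.sum_le_sum_of_subset_of_nonneg (Finset.subset_univ _) fun k _ _ =>
          Finset.sum_nonneg fun i _ => sq_nonneg _
    _ = ∑ i, ∑ k, (b i ⬝ᵥ u k) ^ 2 := Finset.sum_comm
    _ ≤ ∑ i : Fin r, Λ := by
        refine Finset.sum_le_sum fun i _ => ?_
        have h1 := hS.glob (b i)
        rw [hb i, mul_one] at h1
        exact h1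
    _ = (r : ℝ) * Λ := by
        rw [Finset.sum_const, Finset.card_univ, Fintype.card_fin, nsmul_eq_mul]
    _ ≤ (C.card : ℝ) * Λ := mul_le_mul_of_nonneg_right (by exact_mod_cast hr) hS.L0

end Pool.SAT
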