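import Pool.Agent.SAT.Stmts

/-!
MP_c21969_lc, project SAT, module SE (helper69): choice of the columns.
-/

set_option autoImplicit false

namespace Pool.SAT

open Matrix Finset Pool.SAR

namespace SEX

variable {ι : Type} [Fintype ι] [DecidableEq ι] {F : Type} [NormedAddCommGroup F]
  [InnerProductSpace ℝ F]

open Classical in
/-- The columns which have a large inner product with a partial sum. -/
noncomputable def SS {N : ℕ} (v : ι → F) (θ : ℝ) (I : Finset (Fin N)) (b : ℕ)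
    (r : Fin N → ι) : Finset ι :=
  univ.filter fun x => (∑ i ∈ I, v (r i)) ≠ 0 ∧
    θ ^ 2 * ‖∑ i ∈ I, v (r i)‖ ^ 2 ≤ 16 * (b : ℝ) * (inner ℝ (∑ i ∈ I, v (r i)) (v x)) ^ 2

omit [DecidableEq ι] in
lemma mem_SS {N : ℕ} {v : ι → F} {θ : ℝ} {I : Finset (Fin N)} {b : ℕ} {r : Fin N → ι} {x : ι} :
    x ∈ SS v θ I b r ↔ (∑ i ∈ I, v (r i)) ≠ 0 ∧
    θ ^ 2 * ‖∑ i ∈ I, v (r i)‖ ^ 2 ≤ 16 * (b : ℝ) * (inner ℝ (∑ i ∈ I, v (r i)) (v x)) ^ 2 := by
  simp [SS]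

lemma one_pair (hCN : Stmt_CN) (hFN : Stmt_FN) {m ℓ N : ℕ} {θ : ℝ} (v : ι → F) (hθ : 0 < θ)
    (hm : 64 * (ℓ : ℝ) < θ ^ 2 * m)
    (hv : ∀ J : Finset ι, J.card ≤ m → ∀ y : F,
      ∑ j ∈ J, (inner ℝ y (v j)) ^ 2 ≤ 4 * ‖y‖ ^ 2)
    (I J : Finset (Fin N)) (hIJ : Disjoint I J) (h1 : 1 ≤ J.card) (hJ : J.card ≤ ℓ) :
    ((univ.filter fun r : Fin N → ι => ∀ j ∈ J, r j ∈ SS v θ I J.card r).card : ℝ) *
        (Fintype.card ι : ℝ) ^ J.card ≤
      (64 * (J.card : ℝ) / θ ^ 2) ^ J.card * (Fintype.card ι : ℝ) ^ N := by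
  have hb : (0 : ℝ) < (J.card : ℝ) := by exact_mod_cast h1
  have hJl : (J.card : ℝ) ≤ (ℓ : ℝ) := by exact_mod_cast hJ
  have hK : 0 ≤ 64 * (J.card : ℝ) / θ ^ 2 := by positivity
  have key := hFN (Fin N) ι (64 * (J.card : ℝ) / θ ^ 2) J (SS v θ I J.card) hK ?_ ?_
  · rw [Fintype.card_fin] at key
    refine le_trans (le_of_eq ?_) key
    congr!
  · intro r r' h
    have e : ∑ i ∈ I, v (r i) = ∑ i ∈ I, v (r' i) := by
      refine Finset.sum_congr rfl fun i hi => ?_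
      rw [h i (Finset.disjoint_left.1 hIJ hi)]
    ext x
    rw [mem_SS, mem_SS, e]
  · intro r
    by_cases h0 : (∑ i ∈ I, v (r i)) = 0
    · have : SS v θ I J.card r = ∅ := by
        ext x
        rw [mem_SS]
        simp [h0]
      rw [this]
      simpa using hK
    · have h := hCN ι F m v hv (∑ i ∈ I, v (r i)) (J.card : ℝ) θ hb (by linarith) h0
        (SS v θ I J.card r) (fun j hj => (mem_SS.1 hj).2)
      rw [le_div_iff₀ (by positivity)]
      linarith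

lemma geo (ℓ : ℕ) : ∑ b ∈ Finset.Icc 1 ℓ, ((1 : ℝ) / 6) ^ b ≤ 1 / 5 := by
  have h : ∑ b ∈ Finset.Icc 1 ℓ, ((1 : ℝ) / 6) ^ b = (1 - (1 / 6) ^ ℓ) / 5 := by
    induction ℓ with
    | zero => simp
    | succ n ih =>
      rw [Finset.sum_Icc_succ_top (by omega), ih]
      ring
  rw [h]
  have : (0 : ℝ) ≤ (1 / 6) ^ ℓ := by positivity
  linarith

open Classical in
lemma good (hCN : Stmt_CN) (hFN : Stmt_FN) (hAT : Stmt_AT) {m ℓ N : ℕ} {θ : ℝ} (v : ι → F)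
    (hθ : 0 < θ) (hm : 64 * (ℓ : ℝ) < θ ^ 2 * m) (hd : 0 < Fintype.card ι)
    (hN : 1152 * (N : ℝ) * ((N : ℝ) + 1) ≤ θ ^ 2 * (Fintype.card ι : ℝ))
    (hv : ∀ J : Finset ι, J.card ≤ m → ∀ y : F,
      ∑ j ∈ J, (inner ℝ y (v j)) ^ 2 ≤ 4 * ‖y‖ ^ 2) :
    ∃ r : Fin N → ι, ∀ I J : Finset (Fin N), Disjoint I J → 1 ≤ J.card → J.card ≤ ℓ →
      I.card ≤ J.card → ¬ ∀ j ∈ J, r j ∈ SS v θ I J.card r := by
  set d : ℝ := (Fintype.card ι : ℝ) with hdd
  have hd' : 0 < d := by rw [hdd]; exact_mod_cast hd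
  set Pr : ℕ → Finset (Finset (Fin N) × Finset (Fin N)) := fun b =>
    univ.filter fun P => (P.2.card = b ∧ P.1.card ≤ b) with hPr
  set PD : ℕ → Finset (Finset (Fin N) × Finset (Fin N)) := fun b =>
    (Pr b).filter fun P => Disjoint P.1 P.2 with hPD
  set Bd : Finset (Fin N) × Finset (Fin N) → Finset (Fin N → ι) := fun P =>
    univ.filter fun r : Fin N → ι => ∀ j ∈ P.2, r j ∈ SS v θ P.1 P.2.card r with hBd
  set U : Finset (Fin N → ι) := (Finset.Icc 1 ℓ).biUnion fun b => (PD b).biUnion Bd with hU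
  have hb : ∀ b ∈ Finset.Icc 1 ℓ, (((PD b).biUnion Bd).card : ℝ) ≤ d ^ N * (1 / 6) ^ b := by
    intro b hb
    rw [Finset.mem_Icc] at hb
    have hsum : (((PD b).biUnion Bd).card : ℝ) ≤ ∑ P ∈ PD b, ((Bd P).card : ℝ) := by
      exact_mod_cast Finset.card_biUnion_le
    have hdb : 0 < d ^ b := by positivity
    have heach : ∀ P ∈ PD b, ((Bd P).card : ℝ) ≤
        (64 * (b : ℝ) / θ ^ 2) ^ b * d ^ N / d ^ b := by
      intro P hP
      simp only [hPD, hPr, Finset.mem_filter, Finset.mem_univ, true_and] at hP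
      obtain ⟨⟨h1, h2⟩, h3⟩ := hP
      rw [le_div_iff₀ hdb]
      have := one_pair hCN hFN v hθ hm hv P.1 P.2 h3 (by omega) (by omega)
      rw [h1] at this
      simpa [hBd, h1] using this
    have h2 : ∑ P ∈ PD b, ((Bd P).card : ℝ) ≤
        ((PD b).card : ℝ) * ((64 * (b : ℝ) / θ ^ 2) ^ b * d ^ N / d ^ b) := by
      refine (Finset.sum_le_sum heach).trans ?_
      rw [Finset.sum_const, nsmul_eq_mul]
    have h3 : ((PD b).card : ℝ) ≤ ((Pr b).card : ℝ) := by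
      exact_mod_cast Finset.card_filter_le _ _
    have h4 := hAT N b θ d hb.1 hθ hN
    have h5 : ((Pr b).card : ℝ) * (64 * (b : ℝ) / θ ^ 2) ^ b ≤ (d / 6) ^ b := by
      simpa [hPr] using h4
    have hpos : 0 ≤ (64 * (b : ℝ) / θ ^ 2) ^ b * d ^ N / d ^ b := by positivity
    calc (((PD b).biUnion Bd).card : ℝ) ≤ ∑ P ∈ PD b, ((Bd P).card : ℝ) := hsum
      _ ≤ ((PD b).card : ℝ) * ((64 * (b : ℝ) / θ ^ 2) ^ b * d ^ N / d ^ b) := h2
      _ ≤ ((Pr b).card : ℝ) * ((64 * (b : ℝ) / θ ^ 2) ^ b * d ^ N / d ^ b) :=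
          mul_le_mul_of_nonneg_right h3 hpos
      _ = (((Pr b).card : ℝ) * (64 * (b : ℝ) / θ ^ 2) ^ b) * (d ^ N / d ^ b) := by ring
      _ ≤ (d / 6) ^ b * (d ^ N / d ^ b) := mul_le_mul_of_nonneg_right h5 (by positivity)
      _ = d ^ N * (1 / 6) ^ b := by
          rw [div_pow, one_div, inv_pow]
          field_simp
  have hUc : (U.card : ℝ) < d ^ N := by
    have h1 : (U.card : ℝ) ≤ ∑ b ∈ Finset.Icc 1 ℓ, (((PD b).biUnion Bd).card : ℝ) := by
      exact_mod_cast Finset.card_biUnion_le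
    have h2 : ∑ b ∈ Finset.Icc 1 ℓ, (((PD b).biUnion Bd).card : ℝ) ≤
        d ^ N * ∑ b ∈ Finset.Icc 1 ℓ, ((1 : ℝ) / 6) ^ b := by
      rw [Finset.mul_sum]
      exact Finset.sum_le_sum hb
    have h3 : d ^ N * ∑ b ∈ Finset.Icc 1 ℓ, ((1 : ℝ) / 6) ^ b ≤ d ^ N * (1 / 5) :=
      mul_le_mul_of_nonneg_left (geo ℓ) (by positivity)
    have h4 : 0 < d ^ N := by positivity
    linarith
  have hex : ∃ r : Fin N → ι, r ∉ U := by
    by_contra hcon
    push Not at hcon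
    have : U = univ := Finset.eq_univ_iff_forall.2 hcon
    rw [this] at hUc
    rw [Finset.card_univ, Fintype.card_fun, Fintype.card_fin] at hUc
    push_cast at hUc
    exact lt_irrefl _ hUc
  obtain ⟨r, hr⟩ := hex
  refine ⟨r, fun I J hIJ h1 h2 h3 hbad => hr ?_⟩
  rw [hU, Finset.mem_biUnion]
  refine ⟨J.card, Finset.mem_Icc.2 ⟨h1, h2⟩, ?_⟩
  rw [Finset.mem_biUnion]
  refine ⟨(I, J), ?_, ?_⟩
  · simp [hPD, hPr, h3, hIJ]
  · simpa [hBd] using hbad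

end SEX

open SEX in
theorem t_SE : Stmt_MX → Stmt_CN → Stmt_FN → Stmt_AT → Stmt_SE := by
  intro hMX hCN hFN hAT ι _ _ F _ _ m ℓ N θ v hv1 hθ hθ1 hℓ hm hN hv
  rcases Nat.eq_zero_or_pos N with hN0 | hN0
  · subst hN0
    refine ⟨⟨fun i => i.elim0, fun i => i.elim0⟩, fun I J _ _ _ => ?_⟩
    have hI : I = ∅ := by ext x; exact x.elim0
    subst hI
    simp
  · have hNr : (1 : ℝ) ≤ (N : ℝ) := by exact_mod_cast hN0
    have hd : 0 < Fintype.card ι := by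
      rcases Nat.eq_zero_or_pos (Fintype.card ι) with h | h
      · rw [h] at hN
        push_cast at hN
        nlinarith
      · exact h
    obtain ⟨r, hr⟩ := good hCN hFN hAT v hθ hm hd hN hv
    have hlm : ℓ ≤ m := by
      have hm0 : (0 : ℝ) ≤ (m : ℝ) := Nat.cast_nonneg _
      have hℓ0 : (0 : ℝ) ≤ (ℓ : ℝ) := Nat.cast_nonneg _
      have h1 : θ ^ 2 * (m : ℝ) ≤ 1 * (m : ℝ) :=
        mul_le_mul_of_nonneg_right (by nlinarith) hm0
      have h2 : (ℓ : ℝ) ≤ (m : ℝ) := by linarith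
      exact_mod_cast h2
    have hinj : Function.Injective r := by
      intro i j hij
      by_contra hne
      refine hr {i} {j} (by simpa using hne) (by simp) (by simpa using hℓ) (by simp) ?_
      intro k hk
      rw [Finset.mem_singleton] at hk
      subst hk
      rw [mem_SS]
      have hn : ‖v (r k)‖ = 1 := hv1 _
      simp only [Finset.sum_singleton, Finset.card_singleton, Nat.cast_one, mul_one]
      rw [hij]
      refine ⟨fun h0 => ?_, ?_⟩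
      · rw [h0] at hn
        simp at hn
      · rw [real_inner_self_eq_norm_sq, hn]
        nlinarith
    have hnorm : ∀ A : Finset (Fin N), A.card ≤ ℓ →
        ‖∑ i ∈ A, v (r i)‖ ^ 2 ≤ 4 * (A.card : ℝ) := by
      intro A hA
      set z : F := ∑ i ∈ A, v (r i) with hz
      have hc : ∑ i ∈ A, (inner ℝ z (v (r i))) ^ 2 ≤ 4 * ‖z‖ ^ 2 := by
        have := hv (A.map ⟨r, hinj⟩) (by rw [Finset.card_map]; omega) z
        simpa using this
      have hself : ‖z‖ ^ 2 = ∑ i ∈ A, inner ℝ z (v (r i)) := by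
        rw [← real_inner_self_eq_norm_sq]
        conv_lhs => rw [hz, inner_sum]
      have hcs : (∑ i ∈ A, inner ℝ z (v (r i))) ^ 2 ≤
          (A.card : ℝ) * ∑ i ∈ A, (inner ℝ z (v (r i))) ^ 2 := sq_sum_le_card_mul_sum_sq
      rw [← hself] at hcs
      have h7 : (‖z‖ ^ 2) ^ 2 ≤ (A.card : ℝ) * (4 * ‖z‖ ^ 2) :=
        hcs.trans (mul_le_mul_of_nonneg_left hc (Nat.cast_nonneg _))
      rcases (sq_nonneg ‖z‖).eq_or_lt with h0 | h0
      · rw [← h0]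
        positivity
      · have : ‖z‖ ^ 2 * ‖z‖ ^ 2 ≤ (4 * (A.card : ℝ)) * ‖z‖ ^ 2 := by nlinarith
        exact le_of_mul_le_mul_right this h0
    refine ⟨⟨r, hinj⟩, fun I J hIJ hI hJ => ?_⟩
    by_contra hcon
    rw [not_le] at hcon
    simp only [Function.Embedding.coeFn_mk] at hcon
    obtain ⟨I', J', h1, h2, h3, h4, h5, h6⟩ := hMX (Fin N) F ℓ θ (fun i => v (r i)) hθ hnorm
      ⟨I, J, hIJ, hI, hJ, hcon⟩
    refine hr I' J' h1 (Finset.card_pos.2 h2) h4 h3 fun j hj => ?_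
    rw [mem_SS]
    exact ⟨h5, h6 j hj⟩

end Pool.SAT
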