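import Pool.Agent.SAT.Stmts

/-!
MP_c21969_lc, project SAT, module SL: slopes of nonnegative functions are nonnegative.
-/

set_option autoImplicit false

namespace Pool.SAT

open Matrix Finset Pool.SAR

theorem t_SL : Stmt_SLI → Stmt_SL := by
  intro hS ι _ C
  induction C using Finset.induction_on with
  | empty =>
    intro f z h0 _
    rw [(hS ι f f z).1]
    exact h0 z (fun _ _ => rfl) (by simp)
  | insert k C hk ih =>
    intro f z h0 h1
    rw [(hS ι f f z).2.1 C k hk]
    have hoff : ∀ (s : ℝ) (w : ι → ℝ), (∀ j ∉ C, w j = Function.update z k s j) →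
        ∀ j ∉ insert k C, w j = z j := by
      intro s w hw j hj
      have hj' : j ≠ k ∧ j ∉ C := by simpa [Finset.mem_insert, not_or] using hj
      rw [hw j hj'.2, Function.update_of_ne hj'.1]
    have hon : ∀ (s : ℝ), 0 ≤ s → ∀ (w : ι → ℝ), (∀ j ∉ C, w j = Function.update z k s j) →
        (∀ j ∈ C, 0 ≤ w j) → ∀ j ∈ insert k C, 0 ≤ w j := by
      intro s hs w hw hw2 j hj
      rcases Finset.mem_insert.1 hj with rfl | hj
      · rw [hw j hk, Function.update_self]; exact hs
      · exact hw2 j hj
    have hg : ∀ s : ℝ, 0 ≤ s → 0 ≤ sl C f (Function.update z k s) := by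
      intro s hs
      refine ih f (Function.update z k s) ?_ ?_
      · intro w hw1 hw2
        exact h0 w (hoff s w hw1) (hon s hs w hw1 hw2)
      · intro w hw1 hw2 j hj s' hs'
        exact h1 w (hoff s w hw1) (hon s hs w hw1 hw2) j (Finset.mem_insert_of_mem hj) s' hs'
    have haff : ∀ s : ℝ, 0 ≤ s → sl C f (Function.update z k s) =
        (1 - s) * sl C f (Function.update z k 0) + s * sl C f (Function.update z k 1) := by
      intro s hs
      have h6 := (hS ι f f z).2.2.2.2.2 C k
      rw [← h6 s hk, ← h6 0 hk, ← h6 1 hk]
      rw [← (hS ι (fun w => f (Function.update w k 0)) (fun w => f (Function.update w k 1))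
        z).2.2.2.1 C (1 - s) s]
      refine (hS ι _ _ z).2.2.1 C ?_
      intro w hw1 hw2
      have hh := h1 (Function.update w k 0) ?_ ?_ k (Finset.mem_insert_self k C) s hs
      · simpa only [Function.update_idem] using hh
      · intro j hj
        have hj' : j ≠ k ∧ j ∉ C := by simpa [Finset.mem_insert, not_or] using hj
        rw [Function.update_of_ne hj'.1, hw1 j hj'.2]
      · intro j hj
        by_cases hjk : j = k
        · subst hjk; rw [Function.update_self]
        · rw [Function.update_of_ne hjk]
          have hjC : j ∈ C := (Finset.mem_insert.1 hj).resolve_left hjk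
          rcases hw2 j hjC with h | h <;> rw [h]
          exact zero_le_one
    by_contra hneg
    rw [not_le] at hneg
    set a := sl C f (Function.update z k 0) with ha
    set b := sl C f (Function.update z k 1) with hb
    have h0a : 0 ≤ a := hg 0 le_rfl
    have hd : 0 < a - b := by linarith
    have hs : 0 ≤ a / (a - b) + 1 := by positivity
    have h2 := hg _ hs
    rw [haff _ hs] at h2
    have h3 : (a / (a - b)) * (a - b) = a := div_mul_cancel₀ a hd.ne'
    nlinarith

end Pool.SAT
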