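import Pool.Agent.SAT.Stmts

/-!
Elementary properties of the iterated differences.
-/

set_option autoImplicit false

namespace Pool.SAT

open Matrix Finset Pool.SAR

namespace SLIX

variable {ι : Type} [DecidableEq ι]

/-- the point -/
def pt (C B : Finset ι) (z : ι → ℝ) : ι → ℝ :=
  fun k => if k ∈ C then (if k ∈ B then 1 else 0) else z k

theorem sl_def (C : Finset ι) (f : (ι → ℝ) → ℝ) (z : ι → ℝ) :
    sl C f z = ∑ B ∈ C.powerset, (-1) ^ (C.card + B.card) * f (pt C B z) := rfl

theorem pt_zero (C B : Finset ι) (z : ι → ℝ) (k : ι) (hk : k ∉ C) (hB : B ⊆ C) :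
    pt (insert k C) B z = pt C B (Function.update z k 0) := by
  funext i
  unfold pt
  by_cases hi : i = k
  · subst hi
    have h1 : i ∉ B := fun h => hk (hB h)
    simp [hk, h1]
  · simp [Finset.mem_insert, hi]

theorem pt_one (C B : Finset ι) (z : ι → ℝ) (k : ι) (hk : k ∉ C) :
    pt (insert k C) (insert k B) z = pt C B (Function.update z k 1) := by
  funext i
  unfold pt
  by_cases hi : i = k
  · subst hi
    simp [hk]
  · simp [Finset.mem_insert, hi]

theorem pt_update (C B : Finset ι) (z : ι → ℝ) (k : ι) (a : ℝ) (hk : k ∉ C) :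
    Function.update (pt C B z) k a = pt C B (Function.update z k a) := by
  funext i
  unfold pt
  by_cases hi : i = k
  · subst hi
    simp [hk]
  · simp [hi]

end SLIX

open SLIX in
theorem t_SLI : Stmt_SLI := by
  intro ι _ f g z
  refine ⟨?_, ?_, ?_, ?_, ?_, ?_⟩
  · have e : pt (∅ : Finset ι) ∅ z = z := by
      funext i
      simp [pt]
    rw [sl_def]
    simp [e]
  · intro C k hk
    simp only [sl_def]
    rw [Finset.sum_powerset_insert hk, Finset.card_insert_of_notMem hk, add_comm,
      sub_eq_add_neg, ← Finset.sum_neg_distrib]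
    congr 1
    · refine Finset.sum_congr rfl fun B hB => ?_
      have h1 : k ∉ B := fun h => hk (Finset.mem_powerset.1 hB h)
      rw [pt_one C B z k hk, Finset.card_insert_of_notMem h1]
      have e : (-1 : ℝ) ^ (C.card + 1 + (B.card + 1)) = (-1) ^ (C.card + B.card) := by
        rw [show C.card + 1 + (B.card + 1) = C.card + B.card + 2 by ring, pow_add]
        norm_num
      rw [e]
    · refine Finset.sum_congr rfl fun B hB => ?_
      rw [pt_zero C B z k hk (Finset.mem_powerset.1 hB)]
      have e : (-1 : ℝ) ^ (C.card + 1 + B.card) = - (-1) ^ (C.card + B.card) := by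
        rw [show C.card + 1 + B.card = C.card + B.card + 1 by ring, pow_succ]
        ring
      rw [e]
      ring
  · intro C h
    simp only [sl_def]
    refine Finset.sum_congr rfl fun B hB => ?_
    rw [h (pt C B z)]
    · intro k hk
      simp [pt, hk]
    · intro k hk
      by_cases hkB : k ∈ B
      · right; simp [pt, hk, hkB]
      · left; simp [pt, hk, hkB]
  · intro C a b
    simp only [sl_def]
    rw [Finset.mul_sum, Finset.mul_sum, ← Finset.sum_add_distrib]
    refine Finset.sum_congr rfl fun B _ => ?_
    ring
  · intro C κ s h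
    simp only [sl_def]
    rw [Finset.sum_comm]
    refine Finset.sum_congr rfl fun B _ => ?_
    rw [Finset.mul_sum]
  · intro C k a hk
    simp only [sl_def]
    refine Finset.sum_congr rfl fun B _ => ?_
    rw [pt_update C B z k a hk]

end Pool.SAT
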