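import Pool.Agent.SAT.Stmts

/-!
MP_c21969_lc, project SAT, module SP: sparsity at a point.
-/

set_option autoImplicit false

namespace Pool.SAT

open Matrix Finset Pool.SAR

namespace SPX

lemma AM_mulVec {ι : Type} [Fintype ι] {p : ℕ} (u : ι → Fin p → ℝ) (z : ι → ℝ)
    (h : (MM u z).PosDef) (y : Fin p → ℝ) :
    AM u z *ᵥ y = (MM u z).det • ((MM u z)⁻¹ *ᵥ y) := by
  have hd : (MM u z).det ≠ 0 := h.det_pos.ne'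
  rw [AM, Matrix.inv_def, Ring.inverse_eq_inv', Matrix.smul_mulVec, smul_smul,
    mul_inv_cancel₀ hd, one_smul]

end SPX

open SPX

theorem t_SP : Stmt_PD → Stmt_AF → Stmt_RS → Stmt_SP := by
  intro hPD hAF hRS ι _ _ p ℓ q Λ u hS m A C z hA hAC hzA hzC hz0 hm y
  have hAℓ : A.card ≤ ℓ := by omega
  have hRg : Rg (1 - q) A z := by
    refine ⟨hzA, fun k hk => ?_⟩
    by_cases hkC : k ∈ C
    · exact hzC k hkC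
    · exact (hz0 k (by simp [hk, hkC])).ge
  obtain ⟨hM, -, hlow⟩ := hPD ι p ℓ q Λ u hS A z hAℓ hRg
  obtain ⟨-, -, -, hnn, -, hSM⟩ := hAF ι p ℓ q Λ u hS A z hAℓ hRg
  have hrs := hRS ι p ℓ q Λ u hS A C z hAℓ hAC hzA hzC hz0
  have hq0 := hS.q0
  have hq1 := hS.q1
  have hL0 := hS.L0
  obtain ⟨Q, hQ⟩ : ∃ Q, Q = y ⬝ᵥ (AM u z *ᵥ y) := ⟨_, rfl⟩
  obtain ⟨D, hD⟩ : ∃ D, D = (MM u z).det := ⟨_, rfl⟩
  obtain ⟨v, hv⟩ : ∃ v, v = (MM u z)⁻¹ *ᵥ y := ⟨_, rfl⟩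
  have hQ0 : 0 ≤ Q := hQ ▸ hnn y
  have hD0 : 0 < D := hD ▸ hM.det_pos
  have hunit : IsUnit (MM u z).det := hM.det_pos.ne'.isUnit
  have hMv : MM u z *ᵥ v = y := by
    rw [hv, Matrix.mulVec_mulVec, Matrix.mul_nonsing_inv _ hunit, Matrix.one_mulVec]
  have hQD : Q = D * (v ⬝ᵥ y) := by
    rw [hQ, AM_mulVec u z hM y, ← hv, ← hD, dotProduct_smul, smul_eq_mul, dotProduct_comm y v]
  -- the second sum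
  have h1 : ∑ k ∈ (A ∪ C)ᶜ, (u k ⬝ᵥ v) ^ 2 ≤ Λ * (v ⬝ᵥ v) := by
    calc ∑ k ∈ (A ∪ C)ᶜ, (u k ⬝ᵥ v) ^ 2 ≤ ∑ k, (u k ⬝ᵥ v) ^ 2 :=
          Finset.sum_le_sum_of_subset_of_nonneg (Finset.subset_univ _) fun _ _ _ => sq_nonneg _
      _ = ∑ k, (v ⬝ᵥ u k) ^ 2 := Finset.sum_congr rfl fun k _ => by rw [dotProduct_comm]
      _ ≤ _ := hS.glob v
  have h2 : q / 2 * (v ⬝ᵥ v) ≤ v ⬝ᵥ y := by
    have := hlow v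
    rwa [hMv] at this
  have h3 : v ⬝ᵥ v ≤ 2 / q * (v ⬝ᵥ y) := by
    have h4 := mul_le_mul_of_nonneg_left h2 (show 0 ≤ 2 / q by positivity)
    have h5 : 2 / q * (q / 2 * (v ⬝ᵥ v)) = v ⬝ᵥ v := by field_simp
    linarith
  have h6 : D * ∑ k ∈ (A ∪ C)ᶜ, (u k ⬝ᵥ v) ^ 2 ≤ 2 * Λ / q * Q := by
    have h7 := h1.trans (mul_le_mul_of_nonneg_left h3 hL0)
    have h8 := mul_le_mul_of_nonneg_left h7 hD0.le
    calc D * ∑ k ∈ (A ∪ C)ᶜ, (u k ⬝ᵥ v) ^ 2 ≤ D * (Λ * (2 / q * (v ⬝ᵥ y))) := h8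
      _ = 2 * Λ / q * Q := by rw [hQD]; ring
  have h6' : 0 ≤ D * ∑ k ∈ (A ∪ C)ᶜ, (u k ⬝ᵥ v) ^ 2 :=
    mul_nonneg hD0.le (Finset.sum_nonneg fun _ _ => sq_nonneg _)
  -- the sum
  have hsum : ∑ k ∈ (A ∪ C)ᶜ, y ⬝ᵥ (AM u (Function.update z k (-(1 - q))) *ᵥ y) =
      (((A ∪ C)ᶜ.card : ℝ) * q + (1 - q) * ∑ k ∈ (A ∪ C)ᶜ,
        (1 - u k ⬝ᵥ ((MM u z)⁻¹ *ᵥ u k))) * Q +
      (1 - q) * (D * ∑ k ∈ (A ∪ C)ᶜ, (u k ⬝ᵥ v) ^ 2) := by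
    have h9 : ∀ k ∈ (A ∪ C)ᶜ, y ⬝ᵥ (AM u (Function.update z k (-(1 - q))) *ᵥ y) =
        q * Q + (1 - q) * (1 - u k ⬝ᵥ ((MM u z)⁻¹ *ᵥ u k)) * Q +
          (1 - q) * D * (u k ⬝ᵥ v) ^ 2 := by
      intro k hk
      rw [Finset.mem_compl, Finset.mem_union, not_or] at hk
      rw [hSM hA k hk.1 (hz0 k (by simp [hk.1, hk.2])) y, ← hQ, ← hD, ← hv]
      ring
    rw [Finset.sum_congr rfl h9, Finset.sum_add_distrib, Finset.sum_add_distrib,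
      Finset.sum_const, nsmul_eq_mul, ← Finset.sum_mul, ← Finset.mul_sum, ← Finset.mul_sum]
    ring
  rw [hsum, ← hQ]
  have hc : ((A ∪ C)ᶜ.card : ℝ) ≤ (Fintype.card ι : ℝ) := by
    exact_mod_cast Finset.card_le_univ _
  have hcq := mul_le_mul_of_nonneg_right hc hq0.le
  have hCL : 0 ≤ (C.card : ℝ) * Λ := by positivity
  have h10 : (1 - q) * ∑ k ∈ (A ∪ C)ᶜ, (1 - u k ⬝ᵥ ((MM u z)⁻¹ *ᵥ u k)) ≤
      (C.card : ℝ) * Λ := by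
    have h11 := mul_le_mul_of_nonneg_left hrs (show 0 ≤ 1 - q by linarith)
    have h12 : (1 - q) * ((C.card : ℝ) * Λ) ≤ (C.card : ℝ) * Λ := by nlinarith
    linarith
  have h13 : (1 - q) * (D * ∑ k ∈ (A ∪ C)ᶜ, (u k ⬝ᵥ v) ^ 2) ≤ 2 * Λ / q * Q := by
    have h14 : (1 - q) * (D * ∑ k ∈ (A ∪ C)ᶜ, (u k ⬝ᵥ v) ^ 2) ≤
        D * ∑ k ∈ (A ∪ C)ᶜ, (u k ⬝ᵥ v) ^ 2 := by nlinarith
    exact h14.trans h6
  have h15 : (((A ∪ C)ᶜ.card : ℝ) * q + (1 - q) * ∑ k ∈ (A ∪ C)ᶜ,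
        (1 - u k ⬝ᵥ ((MM u z)⁻¹ *ᵥ u k))) * Q ≤
      ((Fintype.card ι : ℝ) * q + (C.card : ℝ) * Λ) * Q :=
    mul_le_mul_of_nonneg_right (by linarith) hQ0
  have h16 : ((Fintype.card ι : ℝ) * q + (C.card : ℝ) * Λ + 2 * Λ / q) * Q ≤
      ((m : ℝ) - (A.card : ℝ)) * Q :=
    mul_le_mul_of_nonneg_right (by linarith) hQ0
  linarith

end Pool.SAT
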