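import Pool.Agent.SAT.Stmts

/-!
MP_c21969_lc, project SAT, module TR: coordinates in an orthonormal basis.
-/

set_option autoImplicit false

namespace Pool.SAT

open Matrix Finset Pool.SAR

namespace TRX

/-- The inner product of Euclidean space is the dot product. -/
lemma inner_eq {p : ℕ} (x y : EuclideanSpace ℝ (Fin p)) :
    inner ℝ x y = (fun a => x a) ⬝ᵥ (fun a => y a) := by
  rw [PiLp.inner_apply]
  unfold dotProduct
  apply Finset.sum_congr rfl
  intro a _
  rw [RCLike.inner_apply, conj_trivial, mul_comm]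

end TRX

theorem t_TR : Stmt_TR := by
  intro ι _ E _ _ _ u
  let b := stdOrthonormalBasis ℝ E
  refine ⟨Module.finrank ℝ E, fun i a => b.repr (u i) a, ?_, ?_⟩
  · intro i j
    rw [← b.repr.inner_map_map (u i) (u j), TRX.inner_eq]
  · intro y'
    refine ⟨b.repr.symm (WithLp.toLp 2 y'), ?_, ?_⟩
    · rw [← real_inner_self_eq_norm_sq, b.repr.symm.inner_map_map, TRX.inner_eq]
    · intro k
      rw [← b.repr.inner_map_map, b.repr.apply_symm_apply, TRX.inner_eq]

end Pool.SAT
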