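import Pool.Agent.SAT.Stmts

/-!
MP_c21969_lc, project SAT: level m + 2 of the wide tests is exact.
-/

set_option autoImplicit false

namespace Pool.SAT

open Matrix Finset Pool.SAR
open scoped ComplexOrder

theorem t_XEW : Stmt_XSW → Stmt_XV → Stmt_XEW := by
  intro hXS hXV 𝕜 _ ι ρ _ _ _ m Φ hm hR
  obtain ⟨c, hc, hR⟩ := hR
  refine ⟨c, hc, fun Y hY => ?_⟩
  have hsum := hXS 𝕜 ι m Y hY
  set U : Finset (Finset ι) := univ.filter (fun A : Finset ι => A.card ≤ m) with hU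
  have hA : ∀ A ∈ U, c ^ 2 * RCLike.re (Y A Aᶜ).trace ≤ val Φ (Y A Aᶜ) ∧
      val Φ (Y A Aᶜ) ≤ 4 * c ^ 2 * RCLike.re (Y A Aᶜ).trace := by
    intro A hA
    have hAm : A.card ≤ m := (mem_filter.1 hA).2
    obtain ⟨S, hAS, hS⟩ := Finset.exists_superset_card_eq hAm hm
    have hd : Disjoint A Aᶜ := disjoint_compl_right
    have hcard : A.card ≤ m + 2 := by omega
    refine hXV 𝕜 ι ρ Φ A (c ^ 2) (4 * c ^ 2) (fun x hx => ?_) (Y A Aᶜ)
      (hY.psd A Aᶜ hd hcard) fun i hi j => hY.zero A Aᶜ hd hcard i (Finset.mem_compl.mpr hi) j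
    exact hR S hS x fun i hi => hx i fun h => hi (hAS h)
  have hv : val Φ (Y ∅ ∅) = ∑ A ∈ U, val Φ (Y A Aᶜ) := by
    rw [hsum]
    unfold SAR.val
    rw [Matrix.mul_sum, Matrix.trace_sum, map_sum]
  have ht : ∑ A ∈ U, RCLike.re (Y A Aᶜ).trace = 1 := by
    have h := hY.trace
    rw [hsum, Matrix.trace_sum] at h
    rw [← map_sum, h, RCLike.one_re]
  rw [hv]
  constructor
  · calc c ^ 2 = c ^ 2 * ∑ A ∈ U, RCLike.re (Y A Aᶜ).trace := by rw [ht, mul_one]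
      _ = ∑ A ∈ U, c ^ 2 * RCLike.re (Y A Aᶜ).trace := Finset.mul_sum _ _ _
      _ ≤ _ := Finset.sum_le_sum fun A h => (hA A h).1
  · calc _ ≤ ∑ A ∈ U, 4 * c ^ 2 * RCLike.re (Y A Aᶜ).trace :=
        Finset.sum_le_sum fun A h => (hA A h).2
      _ = 4 * c ^ 2 * ∑ A ∈ U, RCLike.re (Y A Aᶜ).trace := (Finset.mul_sum _ _ _).symm
      _ = 4 * c ^ 2 := by rw [ht, mul_one]

end Pool.SAT
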