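import Pool.Agent.SAT.Stmts

set_option autoImplicit false

namespace Pool.SAT

open Matrix Finset Pool.SAR
open scoped ComplexOrder

namespace XSWX

lemma split_all {𝕜 : Type} [RCLike 𝕜] {ι : Type} [Fintype ι] [DecidableEq ι] {m : ℕ}
    {Y : Finset ι → Finset ι → Matrix ι ι 𝕜} (hY : Wide m (m + 2) Y)
    (hZ : ∀ A C : Finset ι, Disjoint A C → A.card = m + 1 → Y A C = 0) (K : Finset ι) :
    Y ∅ ∅ = ∑ A ∈ K.powerset, if A.card ≤ m then Y A (K \ A) else 0 := by
  induction K using Finset.induction_on with
  | empty => simp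
  | insert k K hk ih =>
    rw [Finset.sum_powerset_insert hk, ih, ← Finset.sum_add_distrib]
    refine Finset.sum_congr rfl fun A hA => ?_
    have hAK : A ⊆ K := Finset.mem_powerset.1 hA
    have hkA : k ∉ A := fun h => hk (hAK h)
    have h1 : insert k K \ A = insert k (K \ A) := Finset.insert_sdiff_of_notMem _ hkA
    have h2 : insert k K \ insert k A = K \ A := by
      rw [Finset.insert_sdiff_insert, Finset.sdiff_insert_of_notMem hk]
    have h3 : (insert k A).card = A.card + 1 := Finset.card_insert_of_notMem hkA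
    have hd : Disjoint A (K \ A) := Finset.disjoint_sdiff
    have hk2 : k ∉ A ∪ K \ A := by
      rw [Finset.union_sdiff_of_subset hAK]
      exact hk
    rw [h1, h2, h3]
    by_cases hm : A.card ≤ m
    · rw [if_pos hm, if_pos hm, hY.split A (K \ A) hd (by omega) k hk2, add_comm]
      by_cases hm1 : A.card + 1 ≤ m
      · rw [if_pos hm1]
      · rw [if_neg hm1]
        have hd2 : Disjoint (insert k A) (K \ A) := by
          rw [Finset.disjoint_insert_left]
          refine ⟨fun h => hk (Finset.mem_sdiff.1 h).1, hd⟩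
        rw [hZ (insert k A) (K \ A) hd2 (by omega)]
    · have hm1 : ¬ A.card + 1 ≤ m := by omega
      rw [if_neg hm, if_neg hm, if_neg hm1, add_zero]

end XSWX

theorem t_XSW : Stmt_XZW → Stmt_XSW := by
  intro hXZ 𝕜 _ ι _ _ m Y hY
  have h := XSWX.split_all hY (hXZ 𝕜 ι m Y hY) Finset.univ
  rw [h, ← Finset.sum_filter, Finset.powerset_univ]
  refine Finset.sum_congr rfl fun A _ => ?_
  rw [Finset.compl_eq_univ_sdiff]

end Pool.SAT
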