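import Pool.Agent.SAT.Stmts

set_option autoImplicit false

/-!
# Module XZW: sets with more than `m` elements, wide lifts
-/

namespace Pool.SAT

open Matrix Finset Pool.SAR
open scoped ComplexOrder

namespace XZWX

lemma zero_of_add {𝕜 : Type} [RCLike 𝕜] {ι : Type} [Fintype ι] {M N : Matrix ι ι 𝕜}
    (hM : M.PosSemidef) (hN : N.PosSemidef) (h : 0 = M + N) : N = 0 := by
  rw [← hN.trace_eq_zero_iff]
  have h1 := hM.trace_nonneg
  have h2 := hN.trace_nonneg
  have h3 : M.trace + N.trace = 0 := by
    rw [← Matrix.trace_add, ← h, Matrix.trace_zero]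
  have h4 : N.trace = -M.trace := eq_neg_of_add_eq_zero_right h3
  refine le_antisymm ?_ h2
  rw [h4]
  exact neg_nonpos.2 h1

lemma base {𝕜 : Type} [RCLike 𝕜] {ι : Type} [Fintype ι] [DecidableEq ι] {m : ℕ}
    {Y : Finset ι → Finset ι → Matrix ι ι 𝕜} (L : Wide m (m + 2) Y) (A : Finset ι)
    (hA : A.card = m + 1) : Y A ∅ = 0 := by
  obtain ⟨k, hk⟩ : A.Nonempty := Finset.card_pos.1 (by omega)
  have hcard : (A.erase k).card + 1 = A.card := Finset.card_erase_add_one hk
  have hm : (A.erase k).card = m := by omega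
  have h1 := L.sparse (A.erase k) ∅ (Finset.disjoint_empty_right _) (by
    rw [Finset.union_empty]
    omega)
  rw [hm, sub_self, zero_smul, Finset.union_empty, zero_sub] at h1
  have hpsd : ∀ j ∈ (A.erase k)ᶜ, (Y (insert j (A.erase k)) ∅).PosSemidef := by
    intro j hj
    refine L.psd _ _ (Finset.disjoint_empty_right _) ?_
    rw [Finset.card_insert_of_notMem (Finset.mem_compl.1 hj)]
    omega
  have hkc : k ∈ (A.erase k)ᶜ := Finset.mem_compl.2 (Finset.notMem_erase k A)
  have h2 : (∑ j ∈ ((A.erase k)ᶜ).erase k, Y (insert j (A.erase k)) ∅).PosSemidef :=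
    Matrix.posSemidef_sum _ fun j hj => hpsd j (Finset.mem_of_mem_erase hj)
  have h3 : (Y A ∅).PosSemidef := by
    have := hpsd k hkc
    rwa [Finset.insert_erase hk] at this
  have h4 : ∑ j ∈ (A.erase k)ᶜ, Y (insert j (A.erase k)) ∅ =
      (∑ j ∈ ((A.erase k)ᶜ).erase k, Y (insert j (A.erase k)) ∅) + Y A ∅ := by
    rw [← Finset.sum_erase_add _ _ hkc, Finset.insert_erase hk]
  refine zero_of_add (h1.add h2) h3 ?_
  rw [add_assoc, ← h4, neg_add_cancel]

end XZWX

open XZWX in
theorem t_XZW : Stmt_XZW := by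
  intro 𝕜 _ ι _ _ m Y L A C
  induction C using Finset.induction_on with
  | empty => intro _ hA; exact base L A hA
  | insert k C hk ih =>
    intro hd hA
    rw [Finset.disjoint_insert_right] at hd
    have h1 := ih hd.2 hA
    have hku : k ∉ A ∪ C := by
      rw [Finset.mem_union]
      rintro (h | h)
      · exact hd.1 h
      · exact hk h
    have h2 := L.split A C hd.2 (by omega) k hku
    rw [h1] at h2
    have h3 : (Y (insert k A) C).PosSemidef := by
      refine L.psd _ _ ?_ ?_
      · rw [Finset.disjoint_insert_left]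
        exact ⟨hk, hd.2⟩
      · rw [Finset.card_insert_of_notMem hd.1]
        omega
    have h4 : (Y A (insert k C)).PosSemidef := by
      refine L.psd _ _ ?_ (by omega)
      rw [Finset.disjoint_insert_right]
      exact hd
    exact zero_of_add h3 h4 h2

end Pool.SAT
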