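import Pool.Agent.SAR.HR
import Pool.Agent.SAR.HS
import Pool.Agent.SAR.HV
import Pool.Agent.SAR.GD
import Pool.Agent.SAR.GA
import Pool.Agent.SAR.GB
import Pool.Agent.SAR.GU
import Pool.Agent.SAR.GF
import Pool.Agent.SAR.AV
import Pool.Agent.SAR.CA
import Pool.Agent.SAR.XS
import Pool.Agent.SAR.XZ
import Pool.Agent.SAR.XV
import Pool.Agent.SAR.XE
import Pool.Agent.SAT.SLI
import Pool.Agent.SAT.SL
import Pool.Agent.SAT.SM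
import Pool.Agent.SAT.PD
import Pool.Agent.SAT.AF
import Pool.Agent.SAT.RS
import Pool.Agent.SAT.SP
import Pool.Agent.SAT.LW
import Pool.Agent.SAT.MX
import Pool.Agent.SAT.CN
import Pool.Agent.SAT.FN
import Pool.Agent.SAT.AT
import Pool.Agent.SAT.SE
import Pool.Agent.SAT.LO
import Pool.Agent.SAT.BL
import Pool.Agent.SAT.FL
import Pool.Agent.SAT.TR
import Pool.Agent.SAT.LN
import Pool.Agent.SAT.ACW
import Pool.Agent.SAT.ARW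
import Pool.Agent.SAT.HSW
import Pool.Agent.SAT.HRW
import Pool.Agent.SAT.HEW
import Pool.Agent.SAT.XZW
import Pool.Agent.SAT.XSW
import Pool.Agent.SAT.XEW
import Pool.Agent.SAT.MBW

/-!
MP_c21969_lc, project SAT: assembly.
-/

set_option autoImplicit false

namespace Pool.SAT.Final

open Matrix Finset Pool.SAR Pool.SAT
open scoped ComplexOrder

theorem pd : Stmt_PD := t_PD

theorem af : Stmt_AF := t_AF t_SM pd

theorem rs : Stmt_RS := t_RS pd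

theorem sp : Stmt_SP := t_SP pd af rs

theorem lw : Stmt_LW := t_LW t_SLI (t_SL t_SLI) pd af sp

theorem se : Stmt_SE := t_SE t_MX t_CN t_FN t_AT

theorem fl : Stmt_FL := t_FL (t_BL t_LO)

theorem arw : Stmt_ARW :=
  t_ARW t_GD t_GA t_GB t_GU (t_AV t_GF) t_ACW se fl t_LN t_TR lw

theorem hrw : Stmt_HRW := t_HRW t_HSW

theorem mbw : Stmt_MBW := t_MBW hrw t_HV arw t_HEW

/-- Every wide lift is a lift. -/
theorem toLift {𝕜 : Type} [RCLike 𝕜] {ι : Type} [Fintype ι] [DecidableEq ι] {m ℓ : ℕ}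
    {Y : Finset ι → Finset ι → Matrix ι ι 𝕜} (h : Wide m ℓ Y) : Lift m ℓ Y := by
  have hle : ∀ A C : Finset ι, A.card ≤ (A ∪ C).card := fun A C =>
    card_le_card subset_union_left
  exact ⟨fun A C hd hc => h.psd A C hd ((hle A C).trans hc),
    fun A C hd hc => h.split A C hd ((Nat.add_le_add_right (hle A C) 1).trans hc),
    fun A C hd hc => h.zero A C hd ((hle A C).trans hc), h.trace, h.sparse⟩

/-- For every sparsity `m`: the tests `Cert m ℓ` and `WCert m ℓ` are sound, `WCert m (m + 2)` and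
`Cert m d` are exact, `Cert m 2` accepts small coherence, and no `n × d` matrix is accepted by
`WCert m ℓ` if `m ≤ d`, `2 ^ 22 ℓ n² (1 + log ℓ)² < m³` and `2 ^ 35 n⁴ (1 + log ℓ)² ≤ d m²`. -/
theorem main :
    (∀ (m ℓ n d : ℕ) (Φ : Matrix (Fin n) (Fin d) ℂ), Cert m ℓ Φ → WCert m ℓ Φ) ∧
    (∀ (m ℓ n d : ℕ) (Φ : Matrix (Fin n) (Fin d) ℂ), WCert m ℓ Φ → RIP m Φ) ∧
    (∀ (m n d : ℕ) (Φ : Matrix (Fin n) (Fin d) ℂ), m ≤ d → RIP m Φ →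
      WCert m (m + 2) Φ ∧ Cert m d Φ) ∧
    (∀ (m n d : ℕ) (μ : ℝ), 1 ≤ m → 0 ≤ μ → 5 * (((m : ℝ) - 1) * μ) ≤ 3 →
      ∀ Φ : Matrix (Fin n) (Fin d) ℂ, (∀ i, (Φᴴ * Φ) i i = 1) →
        (∀ i j, i ≠ j → ‖(Φᴴ * Φ) i j‖ ≤ μ) → Cert m 2 Φ) ∧
    (∀ m ℓ n d : ℕ, 1 ≤ n → 1 ≤ ℓ → m ≤ d →
      2 ^ 22 * (ℓ : ℝ) * (n : ℝ) ^ 2 * (1 + Real.log ℓ) ^ 2 < (m : ℝ) ^ 3 →
      2 ^ 35 * (n : ℝ) ^ 4 * (1 + Real.log ℓ) ^ 2 ≤ (d : ℝ) * (m : ℝ) ^ 2 →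
      ∀ Φ : Matrix (Fin n) (Fin d) ℂ, ¬ WCert m ℓ Φ) := by
  refine ⟨?_, ?_, ?_, ?_, ?_⟩
  · rintro m ℓ n d Φ ⟨c, hc, hY⟩
    exact ⟨c, hc, fun Y h => hY Y (toLift h)⟩
  · rintro m ℓ n d Φ ⟨c, hc, hY⟩
    exact ⟨c, hc, fun S hS x hx => hrw ℂ (Fin d) (Fin n) m ℓ Φ c hc hY S hS.le x hx⟩
  · intro m n d Φ hmd hR
    have hmd' : m ≤ Fintype.card (Fin d) := by rwa [Fintype.card_fin]
    refine ⟨t_XEW (t_XSW t_XZW) t_XV ℂ (Fin d) (Fin n) m Φ hmd' hR, ?_⟩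
    have h := t_XE t_XS t_XZ t_XV ℂ (Fin d) (Fin n) m Φ hmd' hR
    rwa [Fintype.card_fin] at h
  · intro m n d μ hm hμ h5 Φ h1 h2
    exact t_CA ℂ n d m μ hm hμ h5 Φ h1 h2
  · intro m ℓ n d hn hℓ hmd hm hd Φ
    exact mbw ℂ n d m ℓ hn hℓ hmd hm hd Φ

end Pool.SAT.Final
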