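import Pool.Agent.SAT.Stmts

/-!
MP_c21969_lc, project SAT: the Sherman-Morrison formula for the adjugate.
-/

set_option autoImplicit false

namespace Pool.SAT

open Matrix Finset Pool.SAR

namespace SMX

variable {p : ℕ}

/-- The determinant of a rank one perturbation. -/
theorem det_eq (M : Matrix (Fin p) (Fin p) ℝ) (hM : IsUnit M.det) (u : Fin p → ℝ) (s : ℝ) :
    (M + s • vecMulVec u u).det = M.det * (1 + s * (u ⬝ᵥ (M⁻¹ *ᵥ u))) := by
  have e : s • vecMulVec u u = replicateCol Unit (s • u) * replicateRow Unit u := by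
    rw [← vecMulVec_eq, smul_vecMulVec]
  rw [e, det_add_replicateCol_mul_replicateRow hM]
  congr 1
  rw [det_unique]
  rw [Matrix.add_apply, one_apply_eq]
  congr 1
  rw [Matrix.mul_apply]
  simp only [Matrix.mul_apply, replicateRow_apply, replicateCol_apply,
    Pi.smul_apply, smul_eq_mul, dotProduct, mulVec, mul_sum, sum_mul]
  rw [sum_comm]
  refine sum_congr rfl fun i _ => sum_congr rfl fun j _ => ?_
  ring

end SMX

open SMX in
theorem t_SM : Stmt_SM := by
  intro p M u s hM hB
  have hd : IsUnit M.det := isUnit_iff_ne_zero.2 hM.det_pos.ne'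
  have hdB : IsUnit (M + s • vecMulVec u u).det := isUnit_iff_ne_zero.2 hB.det_pos.ne'
  have hsym : M⁻¹ᵀ = M⁻¹ := by
    have h1 : Mᵀ = M := by
      have := hM.1
      rwa [IsHermitian, conjTranspose_eq_transpose_of_trivial] at this
    rw [transpose_nonsing_inv, h1]
  set v := M⁻¹ *ᵥ u with hv
  have hMv : M *ᵥ v = u := by
    rw [hv, mulVec_mulVec, mul_nonsing_inv _ hd, one_mulVec]
  have huM : u ᵥ* M⁻¹ = v := by
    rw [hv, ← vecMul_transpose, hsym]
  set r := u ⬝ᵥ v with hr
  have hdet := det_eq M hd u s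
  rw [← hv, ← hr] at hdet
  have key : (M + s • vecMulVec u u) * (M.det • ((1 + s * r) • M⁻¹ - s • vecMulVec v v)) =
      (M + s • vecMulVec u u).det • (1 : Matrix (Fin p) (Fin p) ℝ) := by
    have e1 : M * vecMulVec v v = vecMulVec u v := by rw [mul_vecMulVec, hMv]
    have e2 : vecMulVec u u * M⁻¹ = vecMulVec u v := by rw [vecMulVec_mul, huM]
    have e3 : vecMulVec u u * vecMulVec v v = r • vecMulVec u v := by
      rw [vecMulVec_mul_vecMulVec, ← hr, vecMulVec_smul]
    have e4 : M * M⁻¹ = 1 := mul_nonsing_inv _ hd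
    rw [hdet, mul_smul_comm, add_mul, mul_sub, mul_sub, mul_smul_comm, mul_smul_comm, e1, e4,
      smul_mul_assoc, smul_mul_assoc, mul_smul_comm, mul_smul_comm, e2, e3, mul_smul]
    congr 1
    ext i j
    simp only [Matrix.add_apply, Matrix.sub_apply, Matrix.smul_apply, smul_eq_mul]
    ring
  have h2 : M.det • ((1 + s * r) • M⁻¹ - s • vecMulVec v v) = (M + s • vecMulVec u u)⁻¹ *
      ((M + s • vecMulVec u u).det • (1 : Matrix (Fin p) (Fin p) ℝ)) := by
    rw [← key, nonsing_inv_mul_cancel_left _ _ hdB]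
  rw [h2, Matrix.inv_def, mul_smul_comm, mul_one, smul_smul]
  have h3 : (M + s • vecMulVec u u).det * Ring.inverse (M + s • vecMulVec u u).det = 1 :=
    Ring.mul_inverse_cancel _ hdB
  rw [h3, one_smul]

end Pool.SAT
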