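import Pool.Agent.SAT.Defs

/-!
MP_c21969_lc, project SAT: statements of the modules, with proofs in the comments.

Main theorem (helper83).  Let `Φ` be an `n × d` matrix accepted by the wide test of level `ℓ`.  Then `Φ`
has the `m`-RIP.  A random choice gives `N = 8 D` columns (`D = n` or `2 n` is the real dimension) such
that for all sets `I`, `J` of at most `ℓ` of them `|⟪∑_I v, ∑_J v⟫| ≤ θ √(|I| |J|)` (`SE`), hence any `ℓ` of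
them are nearly orthonormal (`FL`).  With `u_k = (√½ e_k, √½ v_k)`, `t = 1 - q`, `q = m / (32 D)`, the
multi-affine function `AM u z = det (M) M⁻¹`, `M = 1 + ∑ z_k u_k u_kᵀ`, defines a wide lift `YD`: the
coordinates in `A` are put equal to `-t`, those in `C` are differentiated (times `t`), the others are
`0`.  (The complement of the support is locally a determinantal process.)  Its value is
`4.5 c² > 4 c²`.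
-/

set_option autoImplicit false

namespace Pool.SAT

open Matrix Finset Pool.SAR
open scoped ComplexOrder

/-! ### Block S: iterated differences -/

/-- SLI.  Elementary properties of `sl`.  (1) immediate.  (2) `Finset.sum_powerset_insert`; for `B ⊆ C`
the point for `(insert k C, B)` is the point for `(C, B)` with `z` replaced by `update z k 0`, and the
point for `(insert k C, insert k B)` is the point for `(C, B)` with `update z k 1`; the signs are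
`(-1)^(|C|+1+|B|)` and `(-1)^(|C|+|B|)` (mod 2).  (3) every point occurring in `sl C f z` is `z` off `C`
and `0` or `1` on `C`.  (4), (5) linearity.  (6) for `k ∉ C` updating the point at `k` is the same as
updating `z`. -/
def Stmt_SLI : Prop :=
  ∀ (ι : Type) [DecidableEq ι] (f g : (ι → ℝ) → ℝ) (z : ι → ℝ),
    sl ∅ f z = f z ∧
    (∀ (C : Finset ι) (k : ι), k ∉ C → sl (insert k C) f z =
      sl C f (Function.update z k 1) - sl C f (Function.update z k 0)) ∧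
    (∀ C : Finset ι, (∀ w : ι → ℝ, (∀ k ∉ C, w k = z k) → (∀ k ∈ C, w k = 0 ∨ w k = 1) →
      f w = g w) → sl C f z = sl C g z) ∧
    (∀ (C : Finset ι) (a b : ℝ),
      sl C (fun w => a * f w + b * g w) z = a * sl C f z + b * sl C g z) ∧
    (∀ (C : Finset ι) (κ : Type) (s : Finset κ) (h : κ → (ι → ℝ) → ℝ),
      sl C (fun w => ∑ k ∈ s, h k w) z = ∑ k ∈ s, sl C (h k) z) ∧
    (∀ (C : Finset ι) (k : ι) (a : ℝ), k ∉ C →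
      sl C (fun w => f (Function.update w k a)) z = sl C f (Function.update z k a))

/-- SL.  Slopes of nonnegative functions are nonnegative.  Let `f` be nonnegative at the points which
agree with `z` off `C` and are nonnegative on `C`, and affine there in every coordinate in `C`.  Then
`0 ≤ sl C f z`.  Induction on `C` (for all `z`): for `insert k C` let `g s = sl C f (update z k s)`,
`s ≥ 0`; `g s ≥ 0` by induction (the conditions for `(C, update z k s)` follow from those for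
`(insert k C, z)`), and `g s = (1 - s) g 0 + s g 1` by affinity at every point (`SLI`, (3), (4), (6):
`sl C f (update z k s) = sl C (fun w => f (update w k s)) z` or directly from the definition).  If
`g 1 < g 0`, take `s = g 0 / (g 0 - g 1) + 1`: `g s < 0`, contradiction.  So
`sl (insert k C) f z = g 1 - g 0 ≥ 0`. -/
def Stmt_SL : Prop :=
  ∀ (ι : Type) [DecidableEq ι] (C : Finset ι) (f : (ι → ℝ) → ℝ) (z : ι → ℝ),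
    (∀ w : ι → ℝ, (∀ k ∉ C, w k = z k) → (∀ k ∈ C, 0 ≤ w k) → 0 ≤ f w) →
    (∀ w : ι → ℝ, (∀ k ∉ C, w k = z k) → (∀ k ∈ C, 0 ≤ w k) → ∀ k ∈ C, ∀ s : ℝ, 0 ≤ s →
      f (Function.update w k s) =
        (1 - s) * f (Function.update w k 0) + s * f (Function.update w k 1)) →
      0 ≤ sl C f z

/-! ### Block D: the determinantal lift -/

/-- SM.  Sherman-Morrison for the adjugate.  `M⁻¹` is symmetric.  Let `ρ = u ⬝ᵥ M⁻¹ u`,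
`B = M + s u uᵀ`.  `B * ((1 + s ρ) M⁻¹ - s (M⁻¹ u) (M⁻¹ u)ᵀ) = (1 + s ρ) • 1` (use
`(M⁻¹ u)(M⁻¹ u)ᵀ = M⁻¹ u uᵀ M⁻¹`), and `det B = det M * (1 + s ρ)` (Mathlib
`Matrix.det_add_replicateCol_mul_replicateRow` or the like, after
`s • vecMulVec u u = replicateCol (s • u) * replicateRow u`).  So `B * RHS = det B • 1`, and since
`det B ≠ 0`, `RHS = B.adjugate` (`Matrix.mul_adjugate`, multiply by `B⁻¹`). -/
def Stmt_SM : Prop :=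
  ∀ (p : ℕ) (M : Matrix (Fin p) (Fin p) ℝ) (u : Fin p → ℝ) (s : ℝ), M.PosDef →
    (M + s • vecMulVec u u).PosDef →
    (M + s • vecMulVec u u).adjugate =
      M.det • ((1 + s * (u ⬝ᵥ (M⁻¹ *ᵥ u))) • M⁻¹ - s • vecMulVec (M⁻¹ *ᵥ u) (M⁻¹ *ᵥ u))

/-- PD.  `y ⬝ᵥ (MM u z *ᵥ y) = y ⬝ᵥ y + ∑ k, z k * (y ⬝ᵥ u k) ^ 2
≥ y ⬝ᵥ y - (1 - q) ∑_{a ∈ A} (y ⬝ᵥ u a) ^ 2 ≥ (1 - (1 - q) (1 + q / 2)) y ⬝ᵥ y ≥ (q / 2) y ⬝ᵥ y`; symmetry is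
clear. -/
def Stmt_PD : Prop :=
  ∀ (ι : Type) [Fintype ι] [DecidableEq ι] (p ℓ : ℕ) (q Λ : ℝ) (u : ι → Fin p → ℝ),
    Sy ℓ q Λ u → ∀ (A : Finset ι) (z : ι → ℝ), A.card ≤ ℓ → Rg (1 - q) A z →
      (MM u z).PosDef ∧
      (∀ y : Fin p → ℝ, y ⬝ᵥ (MM u z *ᵥ y) = y ⬝ᵥ y + ∑ k, z k * (y ⬝ᵥ u k) ^ 2) ∧
      ∀ y : Fin p → ℝ, q / 2 * (y ⬝ᵥ y) ≤ y ⬝ᵥ (MM u z *ᵥ y)

/-- AF.  Properties of the adjugate.  `MM u (update z k s) = MM u (update z k 0) + s • vecMulVec (u k) (u k)`.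
All points used are in `Rg (1 - q) A` or, for `s = -(1 - q)`, in `Rg (1 - q) (insert k A)`, so the
matrices are positive definite (PD), and SM for `M = MM u (update z k 0)` gives the formula
`AM u (update z k s) = M.det • ((1 + s ρ) • M⁻¹ - s • ...)`, which is affine in `s`: items (1), (2).
(3): `u k ⬝ᵥ` of it is `M.det * (u k ⬝ᵥ M⁻¹ x)` for every `s`.  (4), (5): `AM u z = det • M⁻¹` for `M = MM u z`
positive definite; `Matrix.adjugate_transpose` for symmetry.  (6) is SM at `z` itself (`z k = 0`) with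
`s = -(1 - q)`. -/
def Stmt_AF : Prop :=
  ∀ (ι : Type) [Fintype ι] [DecidableEq ι] (p ℓ : ℕ) (q Λ : ℝ) (u : ι → Fin p → ℝ),
    Sy ℓ q Λ u → ∀ (A : Finset ι) (z : ι → ℝ), A.card ≤ ℓ → Rg (1 - q) A z →
      (∀ k ∉ A, ∀ s : ℝ, 0 ≤ s → AM u (Function.update z k s) =
        (1 - s) • AM u (Function.update z k 0) + s • AM u (Function.update z k 1)) ∧
      (A.card + 1 ≤ ℓ → ∀ k ∉ A, AM u (Function.update z k (-(1 - q))) =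
        (1 + (1 - q)) • AM u (Function.update z k 0) -
          (1 - q) • AM u (Function.update z k 1)) ∧
      (∀ k ∉ A, ∀ x : Fin p → ℝ, u k ⬝ᵥ (AM u (Function.update z k 1) *ᵥ x) =
        u k ⬝ᵥ (AM u (Function.update z k 0) *ᵥ x)) ∧
      (∀ y : Fin p → ℝ, 0 ≤ y ⬝ᵥ (AM u z *ᵥ y)) ∧
      (AM u z).IsSymm ∧
      (A.card + 1 ≤ ℓ → ∀ k ∉ A, z k = 0 → ∀ y : Fin p → ℝ,
        y ⬝ᵥ (AM u (Function.update z k (-(1 - q))) *ᵥ y) =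
          (1 - (1 - q) * (u k ⬝ᵥ ((MM u z)⁻¹ *ᵥ u k))) * (y ⬝ᵥ (AM u z *ᵥ y)) +
            (1 - q) * (MM u z).det * (u k ⬝ᵥ ((MM u z)⁻¹ *ᵥ y)) ^ 2)

/-- RS.  Leverage.  `M = MM u z` is positive definite (PD), `R = M⁻¹`.  Let `K` be the span of the `u c`,
`c ∈ C`, in `EuclideanSpace ℝ (Fin p)`, `w k` the projection of `u k` onto its orthogonal complement.
`0 ≤ (R u_k - w_k) ⬝ᵥ M (R u_k - w_k) = u_k ⬝ᵥ R u_k - 2 u_k ⬝ᵥ w_k + w_k ⬝ᵥ M w_k`, `u_k ⬝ᵥ w_k = |w_k|²`, and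
`w_k ⬝ᵥ M w_k = |w_k|² + ∑_j z_j (w_k ⬝ᵥ u_j)² ≤ |w_k|²` (the terms of `A` are `≤ 0`, those of `C` vanish as
`w_k ⟂ u_j`, the others have `z_j = 0`).  So `1 - u_k ⬝ᵥ R u_k ≤ 1 - |w_k|² = |P_K u_k|²`, which is `≥ 0`; sum
over all `k`: with an orthonormal basis `b_i` of `K` (at most `C.card` vectors),
`∑_k |P_K u_k|² = ∑_i ∑_k ⟪b_i, u_k⟫² ≤ ∑_i Λ ≤ C.card * Λ` (`glob`). -/
def Stmt_RS : Prop :=
  ∀ (ι : Type) [Fintype ι] [DecidableEq ι] (p ℓ : ℕ) (q Λ : ℝ) (u : ι → Fin p → ℝ),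
    Sy ℓ q Λ u → ∀ (A C : Finset ι) (z : ι → ℝ), A.card ≤ ℓ → Disjoint A C →
    (∀ k ∈ A, z k = -(1 - q)) → (∀ k ∈ C, 0 ≤ z k) → (∀ k ∉ A ∪ C, z k = 0) →
      ∑ k ∈ (A ∪ C)ᶜ, (1 - u k ⬝ᵥ ((MM u z)⁻¹ *ᵥ u k)) ≤ (C.card : ℝ) * Λ

/-- SP.  Sparsity at a point.  `Q = y ⬝ᵥ AM u z y = D (y ⬝ᵥ R y) ≥ 0`, `D = det M > 0`, `R = M⁻¹`, `M = MM u z`.
By AF (6) the left side is `∑_k (1 - (1-q) ρ_k) Q + (1-q) D ∑_k (u_k ⬝ᵥ R y)²`.  First sum: `1 - (1-q) ρ_k =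
q + (1-q)(1 - ρ_k)` and RS: at most `(N q + C.card * Λ) Q` (`N = card ι`; `0 ≤ 1 - q ≤ 1`, `C.card * Λ ≥ 0`).
Second: `∑_k (u_k ⬝ᵥ R y)² ≤ Λ |R y|²` (`glob`), `|R y|² ≤ (2/q) (R y) ⬝ᵥ M (R y) = (2/q) y ⬝ᵥ R y` (PD), so the term is
at most `(2 Λ / q) Q`.  The sum is at most `(m - A.card) Q`. -/
def Stmt_SP : Prop :=
  ∀ (ι : Type) [Fintype ι] [DecidableEq ι] (p ℓ : ℕ) (q Λ : ℝ) (u : ι → Fin p → ℝ),
    Sy ℓ q Λ u → ∀ (m : ℕ) (A C : Finset ι) (z : ι → ℝ), A.card + 1 ≤ ℓ → Disjoint A C →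
    (∀ k ∈ A, z k = -(1 - q)) → (∀ k ∈ C, 0 ≤ z k) → (∀ k ∉ A ∪ C, z k = 0) →
    (A.card : ℝ) + (C.card : ℝ) * Λ + (Fintype.card ι : ℝ) * q + 2 * Λ / q ≤ m →
    ∀ y : Fin p → ℝ,
      ∑ k ∈ (A ∪ C)ᶜ, y ⬝ᵥ (AM u (Function.update z k (-(1 - q))) *ᵥ y) ≤
        ((m : ℝ) - (A.card : ℝ)) * (y ⬝ᵥ (AM u z *ᵥ y))

/-- LW.  The matrices `YD (1 - q) u A C` form a wide lift.  Quadratic form: for `x : ι → ℝ`,
`y = ∑ i, x i • u i`, `∑ i j, x i * x j * YD A C i j = N⁻¹ (1-q)^|C| sl C (fun z => y ⬝ᵥ (AM u z *ᵥ y)) (za (1-q) A)`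
(linearity of `sl`; `AM` is symmetric at the points used, so `YD A C` is symmetric by congruence).
psd: SL; the points `w` with `w = za (1-q) A` off `C` and `≥ 0` on `C` are in `Rg (1-q) A`, AF (1), (4).
split: for `k ∉ A ∪ C` and `g s = sl C f (update (za (1-q) A) k s)`, `f z = u i ⬝ᵥ (AM u z *ᵥ u j)`:
`update (za (1-q) A) k 0 = za (1-q) A`, `update (za (1-q) A) k (-(1-q)) = za (1-q) (insert k A)`,
`sl (insert k C) f (za (1-q) A) = g 1 - g 0` (SLI), and `g (-(1-q)) = g 0 - (1-q) (g 1 - g 0)` by AF (2) at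
every point (SLI (3), (4), (6)).  zero: for `i ∈ C`, `C = insert i C'`: `sl (insert i C') f z = sl C' f (update z i 1) -
sl C' f (update z i 0) = 0` by AF (3) at every point.  trace: `AM u 0 = 1` and `unit`.  sparse: as psd for the
function `H z = (m - |A|) y ⬝ᵥ AM u z y - ∑_{k ∉ A ∪ C} y ⬝ᵥ AM u (update z k (-(1-q))) y`, nonnegative by SP
(`|A| + |C| Λ ≤ (|A| + |C|) Λ ≤ ℓ Λ` as `1 ≤ Λ`) and affine in the coordinates of `C` by AF (1) (for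
`update z k (-(1-q))` use `A' = insert k A`, `|A'| ≤ ℓ`, and commute the updates: `Function.update_comm`); SLI (5),
(6) identify the terms with the quadratic forms of `YD (insert k A) C`. -/
def Stmt_LW : Prop :=
  ∀ (ι : Type) [Fintype ι] [DecidableEq ι] [Nonempty ι] (p ℓ : ℕ) (q Λ : ℝ)
    (u : ι → Fin p → ℝ), Sy ℓ q Λ u → ∀ m : ℕ, 1 ≤ Λ →
    (ℓ : ℝ) * Λ + (Fintype.card ι : ℝ) * q + 2 * Λ / q ≤ m →
      Wide m ℓ (YD (1 - q) u) ∧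
      ∀ i j, YD (1 - q) u ∅ ∅ i j = (Fintype.card ι : ℝ)⁻¹ * (u i ⬝ᵥ u j)

/-! ### Block C: choice of the columns -/

/-- MX.  A maximising pair.  Among all disjoint nonempty `I`, `J` with at most `ℓ` elements choose a pair
for which `μ = |⟪w_I, w_J⟫| / √(|I| |J|)` is maximal (`w_I = ∑_I w`); `μ > θ` (in the hypothesis `I`, `J` are
nonempty, since otherwise the inner product is `0`).  By symmetry `|I| ≤ |J|`.  For `j ∈ J`,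
`J' = J.erase j`: `|⟪w_I, w_{J'}⟫| ≤ μ √(|I| (|J| - 1))` (also if `J'` is empty), so
`|⟪w_I, w_j⟫| ≥ μ √|I| (√|J| - √(|J| - 1)) ≥ μ √|I| / (2 √|J|)`, and
`16 |J| ⟪w_I, w_j⟫² ≥ 4 μ² |I| ≥ μ² ‖w_I‖² ≥ θ² ‖w_I‖²`.  `w_I ≠ 0` as `⟪w_I, w_J⟫ ≠ 0`. -/
def Stmt_MX : Prop :=
  ∀ (κ : Type) [Fintype κ] [DecidableEq κ] (F : Type) [NormedAddCommGroup F]
    [InnerProductSpace ℝ F] (ℓ : ℕ) (θ : ℝ) (w : κ → F), 0 < θ →
    (∀ I : Finset κ, I.card ≤ ℓ → ‖∑ i ∈ I, w i‖ ^ 2 ≤ 4 * (I.card : ℝ)) →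
    (∃ I J : Finset κ, Disjoint I J ∧ I.card ≤ ℓ ∧ J.card ≤ ℓ ∧
      θ * √((I.card : ℝ) * (J.card : ℝ)) < |inner ℝ (∑ i ∈ I, w i) (∑ j ∈ J, w j)|) →
    ∃ I J : Finset κ, Disjoint I J ∧ J.Nonempty ∧ I.card ≤ J.card ∧ J.card ≤ ℓ ∧
      (∑ i ∈ I, w i) ≠ 0 ∧ ∀ j ∈ J,
        θ ^ 2 * ‖∑ i ∈ I, w i‖ ^ 2 ≤ 16 * (J.card : ℝ) * (inner ℝ (∑ i ∈ I, w i) (w j)) ^ 2

/-- CN.  Few columns have a large inner product with `y`.  For `J ⊆ S`, `|J| ≤ m`: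
`|J| θ² ‖y‖² ≤ 16 b ∑_J ⟪y, v j⟫² ≤ 64 b ‖y‖²`, so `θ² |J| ≤ 64 b`.  If `|S| ≤ m` take `J = S`, otherwise a
subset with `m` elements gives `θ² m ≤ 64 b`, a contradiction. -/
def Stmt_CN : Prop :=
  ∀ (ι : Type) [Fintype ι] [DecidableEq ι] (F : Type) [NormedAddCommGroup F]
    [InnerProductSpace ℝ F] (m : ℕ) (v : ι → F),
    (∀ J : Finset ι, J.card ≤ m → ∀ y : F, ∑ j ∈ J, (inner ℝ y (v j)) ^ 2 ≤ 4 * ‖y‖ ^ 2) →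
    ∀ (y : F) (b θ : ℝ), 0 < b → 64 * b < θ ^ 2 * m → y ≠ 0 → ∀ S : Finset ι,
      (∀ j ∈ S, θ ^ 2 * ‖y‖ ^ 2 ≤ 16 * b * (inner ℝ y (v j)) ^ 2) →
        θ ^ 2 * (S.card : ℝ) ≤ 64 * b

/-- FN.  Counting functions.  The set `S r` depends only on the values of `r` off `J`.  The functions `r`
with `r j ∈ S r` for all `j ∈ J` are at most `(card ι)^(N - |J|) K^|J|` in number.  Induction on `J`, or: `r` is
determined by its restriction to the complement of `J` and, given it, there are at most `|S|^|J|` choices on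
`J`.  For the induction prove, for `j ∉ J'`, `J' ∪ {j} ⊆ J`: `#{r | ∀ i ∈ insert j J', r i ∈ S r} * card ι =
∑_{r, ∀ i ∈ J', r i ∈ S r} |S r| ≤ K #{r | ∀ i ∈ J', r i ∈ S r}`, using the bijection
`(r, x) ↦ (update r j x, r j)` of `(ν → ι) × ι`. -/
def Stmt_FN : Prop :=
  ∀ (ν ι : Type) [Fintype ν] [DecidableEq ν] [Fintype ι] [DecidableEq ι] (K : ℝ) (J : Finset ν)
    (S : (ν → ι) → Finset ι), 0 ≤ K → (∀ r r' : ν → ι, (∀ i ∉ J, r i = r' i) → S r = S r') →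
    (∀ r, ((S r).card : ℝ) ≤ K) →
      ((univ.filter fun r : ν → ι => ∀ j ∈ J, r j ∈ S r).card : ℝ) *
          (Fintype.card ι : ℝ) ^ J.card ≤
        K ^ J.card * (Fintype.card ι : ℝ) ^ Fintype.card ν

/-- AT.  Arithmetic.  The number of pairs is `C(N,b) * ∑_{a ≤ b} C(N,a)`; `C(N,b) ≤ N^b / b!`
(`Nat.choose_le_pow_div` or the like), `∑_{a ≤ b} C(N,a) ≤ ∑_{a ≤ b} C(b,a) N^a = (N+1)^b` (`C(N,a) ≤ N^a`,
`C(b,a) ≥ 1`), and `b^b / b! ≤ exp b ≤ 3^b` (`Real.pow_div_factorial_le_exp`, `Real.exp_one_lt_d9`).  So the left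
side is at most `(192 N (N+1) / θ²)^b ≤ (d / 6)^b`. -/
def Stmt_AT : Prop :=
  ∀ (N b : ℕ) (θ d : ℝ), 1 ≤ b → 0 < θ → 1152 * (N : ℝ) * ((N : ℝ) + 1) ≤ θ ^ 2 * d →
    ((univ.filter fun P : Finset (Fin N) × Finset (Fin N) =>
        P.2.card = b ∧ P.1.card ≤ b).card : ℝ) * (64 * (b : ℝ) / θ ^ 2) ^ b ≤ (d / 6) ^ b

/-- SE.  Choice of the columns.  `N ≥ 1` (else trivial), so `ι` is nonempty.  For `r : Fin N → ι` let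
`w_I(r) = ∑_{i ∈ I} v (r i)` and `S(I, b, r) = {x | w_I(r) ≠ 0 ∧ θ² ‖w_I(r)‖² ≤ 16 b ⟪w_I(r), v x⟫²}`, at most
`64 b / θ²` elements if `1 ≤ b ≤ ℓ` (CN; `64 b ≤ 64 ℓ < θ² m`).  Call `r` bad for `(I, J)` (disjoint,
`1 ≤ |J| = b ≤ ℓ`, `|I| ≤ b`) if `r j ∈ S(I, b, r)` for all `j ∈ J`; by FN the number of these `r` is at most
`(64 b / θ²)^b d^N / d^b` (`d = card ι`).  By AT the number of `r` which are bad for some `(I, J)` with `|J| = b`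
is at most `6^(-b) d^N`, and `∑_{b ≥ 1} 6^(-b) = 1/5 < 1`, so some `r` is not bad for any pair.  It is injective:
`r i = r j`, `i ≠ j`, would be bad for `({i}, {j})` (`θ² ≤ 16`).  `‖∑_{i ∈ I} v (r i)‖² ≤ 4 |I|` for `|I| ≤ ℓ ≤ m`:
`z = ∑_I v (r i)`, `‖z‖⁴ = (∑_I ⟪z, v (r i)⟫)² ≤ |I| ∑_I ⟪z, v (r i)⟫² ≤ 4 |I| ‖z‖²` (the `r i` are distinct).  If the
conclusion fails, MX for `w = v ∘ r` gives a pair `(I, J)` for which `r` is bad. -/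
def Stmt_SE : Prop :=
  ∀ (ι : Type) [Fintype ι] [DecidableEq ι] (F : Type) [NormedAddCommGroup F]
    [InnerProductSpace ℝ F] (m ℓ N : ℕ) (θ : ℝ) (v : ι → F), (∀ i, ‖v i‖ = 1) → 0 < θ → θ ≤ 1 →
    1 ≤ ℓ → 64 * (ℓ : ℝ) < θ ^ 2 * m →
    1152 * (N : ℝ) * ((N : ℝ) + 1) ≤ θ ^ 2 * (Fintype.card ι : ℝ) →
    (∀ J : Finset ι, J.card ≤ m → ∀ y : F, ∑ j ∈ J, (inner ℝ y (v j)) ^ 2 ≤ 4 * ‖y‖ ^ 2) →
    ∃ r : Fin N ↪ ι, ∀ I J : Finset (Fin N), Disjoint I J → I.card ≤ ℓ → J.card ≤ ℓ →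
      |inner ℝ (∑ i ∈ I, v (r i)) (∑ j ∈ J, v (r j))| ≤ θ * √((I.card : ℝ) * (J.card : ℝ))

/-! ### Block F: from sets to vectors -/

/-- LO.  One variable.  Prove by induction on `|A|`: there is `c : κ → ℝ` with `0 ≤ c`, `∑_A c i = √|A|`,
`∑_A c i ^ 2 ≤ harmonic |A|` and `|∑_A a i * g i| ≤ C * ∑_A a i * c i`.  Step: let `i₀` be a minimum of `a` on `A`,
`α = a i₀`, `A' = A.erase i₀`; induction for `a' = a - α` on `A'` (nonnegative there; state the induction for `a`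
nonnegative on `A`), with `c'`; put `c i₀ = √|A| - √(|A| - 1)` and `c = c'` on `A'`.
`|∑_A a g| ≤ α |∑_A g| + |∑_{A'} (a - α) g| ≤ C α √|A| + C ∑_{A'} (a - α) c'
= C α √|A| + C ∑_{A'} a c' - C α √(|A| - 1) = C ∑_A a c`.  `c i₀ ^ 2 ≤ 1 / |A|`.  Then Cauchy-Schwarz and
`harmonic_le_one_add_log`, `|A| ≤ ℓ`. -/
def Stmt_LO : Prop :=
  ∀ (κ : Type) [DecidableEq κ] (A : Finset κ) (ℓ : ℕ) (C : ℝ) (g a : κ → ℝ), 1 ≤ ℓ → 0 ≤ C →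
    A.card ≤ ℓ → (∀ i ∈ A, 0 ≤ a i) → (∀ I ⊆ A, |∑ i ∈ I, g i| ≤ C * √(I.card : ℝ)) →
      |∑ i ∈ A, a i * g i| ≤ C * √(1 + Real.log ℓ) * √(∑ i ∈ A, a i ^ 2)

/-- BL.  Two variables.  For nonnegative `x`, `y`: apply LO to `g i = ∑_{j ∈ J'} Δ i j` (`J' ⊆ J` fixed) and `x`,
with `C = θ √|J'|`, then to `g j = ∑_{i ∈ I} x i * Δ i j` and `y` with `C = θ √(1 + log ℓ) √(∑_I x²)`:
`|∑ x y Δ| ≤ θ (1 + log ℓ) √(∑_I x²) √(∑_J y²)`.  In general split `x = x⁺ - x⁻`, `y = y⁺ - y⁻` and use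
`(√a + √b)² ≤ 2 (a + b)`. -/
def Stmt_BL : Prop :=
  ∀ (κ : Type) [DecidableEq κ] (ℓ : ℕ) (θ : ℝ) (Δ : κ → κ → ℝ) (I J : Finset κ), 1 ≤ ℓ →
    0 ≤ θ → I.card ≤ ℓ → J.card ≤ ℓ →
    (∀ I' ⊆ I, ∀ J' ⊆ J,
      |∑ i ∈ I', ∑ j ∈ J', Δ i j| ≤ θ * √((I'.card : ℝ) * (J'.card : ℝ))) →
    ∀ x y : κ → ℝ, |∑ i ∈ I, ∑ j ∈ J, x i * y j * Δ i j| ≤
      2 * θ * (1 + Real.log ℓ) * (√(∑ i ∈ I, x i ^ 2) * √(∑ j ∈ J, y j ^ 2))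

/-- FL.  Off-diagonal quadratic forms.  For `S ⊆ A`, BL with `I = S`, `J = A \ S`, `y = x` gives
`|∑_{i ∈ S} ∑_{j ∈ A \ S} x i x j Δ i j| ≤ 2 θ L √(∑_S x²) √(∑_{A \ S} x²) ≤ θ L ∑_A x²`, `L = 1 + log ℓ`.  Sum over
the `2^|A|` subsets `S` of `A`: a pair `i ≠ j` in `A` is separated (`i ∈ S`, `j ∉ S`) by `2^(|A|-2)` of them
(`Finset.sum_powerset_insert` twice), so `2^(|A|-2) |∑_{i ≠ j} x i x j Δ i j| ≤ 2^|A| θ L ∑_A x²`. -/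
def Stmt_FL : Prop :=
  ∀ (κ : Type) [Fintype κ] [DecidableEq κ] (ℓ : ℕ) (θ : ℝ) (Δ : κ → κ → ℝ), 1 ≤ ℓ → 0 ≤ θ →
    (∀ I J : Finset κ, Disjoint I J → I.card ≤ ℓ → J.card ≤ ℓ →
      |∑ i ∈ I, ∑ j ∈ J, Δ i j| ≤ θ * √((I.card : ℝ) * (J.card : ℝ))) →
    ∀ A : Finset κ, A.card ≤ ℓ → ∀ x : κ → ℝ,
      |∑ i ∈ A, ∑ j ∈ A.erase i, x i * x j * Δ i j| ≤
        4 * θ * (1 + Real.log ℓ) * ∑ i ∈ A, x i ^ 2

/-! ### Assembly -/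

/-- TR.  Coordinates in an orthonormal basis (`stdOrthonormalBasis ℝ E`), `p = finrank`. -/
def Stmt_TR : Prop :=
  ∀ (ι : Type) [Fintype ι] (E : Type) [NormedAddCommGroup E] [InnerProductSpace ℝ E]
    [FiniteDimensional ℝ E] (u : ι → E), ∃ (p : ℕ) (u' : ι → Fin p → ℝ),
      (∀ i j, u' i ⬝ᵥ u' j = inner ℝ (u i) (u j)) ∧
      ∀ y' : Fin p → ℝ, ∃ y : E, ‖y‖ ^ 2 = y' ⬝ᵥ y' ∧ ∀ k, inner ℝ y (u k) = y' ⬝ᵥ u' k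

/-- LN.  From Gram matrices to `loc`.  Let `∑_{i ∈ A} ∑_{j ∈ A} x i x j ⟪u i, u j⟫ ≤ K ∑_A x²` for all `x`.  For `y` put
`x a = ⟪y, u a⟫`: `(∑_A x²)² = ⟪y, ∑_A x a • u a⟫² ≤ ‖y‖² K ∑_A x²`. -/
def Stmt_LN : Prop :=
  ∀ (ι : Type) [DecidableEq ι] (E : Type) [NormedAddCommGroup E] [InnerProductSpace ℝ E]
    (u : ι → E) (A : Finset ι) (K : ℝ), 0 ≤ K →
    (∀ x : ι → ℝ, ∑ i ∈ A, ∑ j ∈ A, x i * x j * inner ℝ (u i) (u j) ≤ K * ∑ i ∈ A, x i ^ 2) →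
    ∀ y : E, ∑ a ∈ A, (inner ℝ y (u a)) ^ 2 ≤ K * ‖y‖ ^ 2

/-- ACW.  Arithmetic of the parameters: `L = 1 + log ℓ ≥ 1`, `q = m / (32 D)`, `θ = q / (4 L)`, `Λ = 36 D / m`,
`m ≤ D`, `2^20 ℓ D² L² < m³`, `2^31 D⁴ L² ≤ d m²`. -/
def Stmt_ACW : Prop :=
  ∀ (m ℓ D d : ℕ), 1 ≤ D → 1 ≤ ℓ → m ≤ D →
    2 ^ 20 * (ℓ : ℝ) * (D : ℝ) ^ 2 * (1 + Real.log ℓ) ^ 2 < (m : ℝ) ^ 3 →
    2 ^ 31 * (D : ℝ) ^ 4 * (1 + Real.log ℓ) ^ 2 ≤ (d : ℝ) * (m : ℝ) ^ 2 →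
    1 ≤ m ∧ 1 ≤ 1 + Real.log ℓ ∧ 0 < (m : ℝ) / (32 * D) ∧ (m : ℝ) / (32 * D) ≤ 1 ∧
    (m : ℝ) / (32 * D) / (4 * (1 + Real.log ℓ)) ≤ 1 ∧
    64 * (ℓ : ℝ) < ((m : ℝ) / (32 * D) / (4 * (1 + Real.log ℓ))) ^ 2 * m ∧
    1152 * ((8 * D : ℕ) : ℝ) * (((8 * D : ℕ) : ℝ) + 1) ≤
      ((m : ℝ) / (32 * D) / (4 * (1 + Real.log ℓ))) ^ 2 * d ∧
    1 ≤ 36 * (D : ℝ) / m ∧ 4 * ((8 * D : ℕ) / (m : ℝ) + 1) ≤ 36 * (D : ℝ) / m ∧
    (ℓ : ℝ) * (36 * (D : ℝ) / m) + ((8 * D : ℕ) : ℝ) * ((m : ℝ) / (32 * D)) +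
      2 * (36 * (D : ℝ) / m) / ((m : ℝ) / (32 * D)) ≤ m

/-- ARW.  The barrier for vectors.  As `Pool.SAR.t_AR` (file `Pool/Agent/SAR/AR.lean`), with the columns given by SE
(`N = 8 D`, `θ = q / (4 L)`), FL (`Δ i j = ⟪v i, v j⟫`), GU, LN (`K = 1 + q / 2`: the Gram form of the `u i` is
`∑_A x² + ½ ∑_{i ≠ j} x i x j ⟪v i, v j⟫ ≤ (1 + 2 θ L) ∑_A x²`), TR, LW, AV. -/
def Stmt_ARW : Prop :=
  ∀ (ι : Type) [Fintype ι] [DecidableEq ι] (F : Type) [NormedAddCommGroup F]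
    [InnerProductSpace ℝ F] [FiniteDimensional ℝ F] (m ℓ D : ℕ) (c : ℝ) (φ : ι → F), 0 < c →
    1 ≤ D → 1 ≤ ℓ → Module.finrank ℝ F ≤ D → m ≤ Fintype.card ι →
    2 ^ 20 * (ℓ : ℝ) * (D : ℝ) ^ 2 * (1 + Real.log ℓ) ^ 2 < (m : ℝ) ^ 3 →
    2 ^ 31 * (D : ℝ) ^ 4 * (1 + Real.log ℓ) ^ 2 ≤ (Fintype.card ι : ℝ) * (m : ℝ) ^ 2 →
    (∀ J : Finset ι, J.card ≤ m → ∀ x : ι → ℝ,
      c ^ 2 * ∑ j ∈ J, x j ^ 2 ≤ ‖∑ j ∈ J, x j • φ j‖ ^ 2 ∧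
        ‖∑ j ∈ J, x j • φ j‖ ^ 2 ≤ 4 * c ^ 2 * ∑ j ∈ J, x j ^ 2) →
    ∃ (κ : Type) (_ : Fintype κ) (_ : DecidableEq κ) (e : κ ↪ ι)
      (Y : Finset κ → Finset κ → Matrix κ κ ℝ), Wide m ℓ Y ∧ (Y ∅ ∅).IsSymm ∧
      4 * c ^ 2 < ∑ k, ∑ l, inner ℝ (φ (e k)) (φ (e l)) * Y ∅ ∅ k l

/-- HSW.  The lift of a single vector is wide (as `Pool.SAR.t_HS`). -/
def Stmt_HSW : Prop :=
  ∀ (𝕜 : Type) [RCLike 𝕜] (ι : Type) [Fintype ι] [DecidableEq ι] (m ℓ : ℕ) (x : ι → 𝕜),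
    (∑ i, ‖x i‖ ^ 2 = 1) → (∃ S : Finset ι, S.card ≤ m ∧ ∀ i ∉ S, x i = 0) →
      Wide m ℓ (vlift x)

/-- HRW.  Soundness (as `Pool.SAR.t_HR`). -/
def Stmt_HRW : Prop :=
  ∀ (𝕜 : Type) [RCLike 𝕜] (ι ρ : Type) [Fintype ι] [DecidableEq ι] [Fintype ρ] (m ℓ : ℕ)
    (Φ : Matrix ρ ι 𝕜) (c : ℝ), 0 < c → (∀ Y : Finset ι → Finset ι → Matrix ι ι 𝕜, Wide m ℓ Y →
      c ^ 2 ≤ val Φ (Y ∅ ∅) ∧ val Φ (Y ∅ ∅) ≤ 4 * c ^ 2) →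
    ∀ S : Finset ι, S.card ≤ m → ∀ x : ι → 𝕜, (∀ i ∉ S, x i = 0) →
      c ^ 2 * ∑ i, ‖x i‖ ^ 2 ≤ ∑ a, ‖(Φ *ᵥ x) a‖ ^ 2 ∧
        ∑ a, ‖(Φ *ᵥ x) a‖ ^ 2 ≤ 4 * c ^ 2 * ∑ i, ‖x i‖ ^ 2

/-- HEW.  Extension by zero of a wide lift (as `Pool.SAR.t_HE`). -/
def Stmt_HEW : Prop :=
  ∀ (𝕜 : Type) [RCLike 𝕜] (ι κ : Type) [Fintype ι] [DecidableEq ι] [Fintype κ] [DecidableEq κ]
    (e : κ ↪ ι) (m ℓ : ℕ) (Y : Finset κ → Finset κ → Matrix κ κ ℝ), Wide m ℓ Y →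
      Wide m ℓ (ext 𝕜 e Y)

/-- XZW.  `Y A C = 0` if `A.card = m + 1` and the level is at least `m + 2`.  For `C = ∅`: take `k ∈ A`,
`A' = A.erase k`; `sparse` at `(A', ∅)` says that `0 • Y A' ∅ - ∑_{j ∉ A'} Y (insert j A') ∅` is positive
semidefinite, all the `Y (insert j A') ∅` are positive semidefinite, so they are `0` (trace, see
`Pool.SAR.t_XZ`).  Induction on `C`: for `k ∉ A ∪ C`, `0 = Y A C = Y (insert k A) C + Y A (insert k C)`, a sum of two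
positive semidefinite matrices. -/
def Stmt_XZW : Prop :=
  ∀ (𝕜 : Type) [RCLike 𝕜] (ι : Type) [Fintype ι] [DecidableEq ι] (m : ℕ)
    (Y : Finset ι → Finset ι → Matrix ι ι 𝕜), Wide m (m + 2) Y →
      ∀ A C : Finset ι, Disjoint A C → A.card = m + 1 → Y A C = 0

/-- XSW.  Full splitting: by induction on `K`, `Y ∅ ∅ = ∑_{A ⊆ K, |A| ≤ m} Y A (K \ A)`: for `k ∉ K`,
`Y A (K \ A) = Y (insert k A) (K \ A) + Y A (insert k (K \ A))` and the first term is `0` if `A.card = m`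
(XZW); `Finset.sum_powerset_insert`. -/
def Stmt_XSW : Prop :=
  ∀ (𝕜 : Type) [RCLike 𝕜] (ι : Type) [Fintype ι] [DecidableEq ι] (m : ℕ)
    (Y : Finset ι → Finset ι → Matrix ι ι 𝕜), Wide m (m + 2) Y →
      Y ∅ ∅ = ∑ A ∈ univ.filter (fun A : Finset ι => A.card ≤ m), Y A Aᶜ

/-- XEW.  Level `m + 2` is exact: as `Pool.SAR.t_XE`, from XSW and `Pool.SAR.Stmt_XV`. -/
def Stmt_XEW : Prop :=
  ∀ (𝕜 : Type) [RCLike 𝕜] (ι ρ : Type) [Fintype ι] [DecidableEq ι] [Fintype ρ] (m : ℕ)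
    (Φ : Matrix ρ ι 𝕜), m ≤ Fintype.card ι → RIP m Φ → WCert m (m + 2) Φ

/-- MBW.  The barrier: HRW, HV, ARW with `D = 2 * card ρ`, HEW (as `Pool.SAR.t_MB`). -/
def Stmt_MBW : Prop :=
  ∀ (𝕜 : Type) [RCLike 𝕜] (n d m ℓ : ℕ), 1 ≤ n → 1 ≤ ℓ → m ≤ d →
    2 ^ 22 * (ℓ : ℝ) * (n : ℝ) ^ 2 * (1 + Real.log ℓ) ^ 2 < (m : ℝ) ^ 3 →
    2 ^ 35 * (n : ℝ) ^ 4 * (1 + Real.log ℓ) ^ 2 ≤ (d : ℝ) * (m : ℝ) ^ 2 →
    ∀ Φ : Matrix (Fin n) (Fin d) 𝕜, ¬ WCert m ℓ Φ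

end Pool.SAT
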